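import Mathlib

namespace Pool.Agent.P.MP_9ca27c_lc

/-- A class of semigroups. -/
abbrev Cls : Type 1 := (S : Type) → [Semigroup S] → Prop

/-- `G` is a subgroup of the semigroup `S`: a subsemigroup that is a group. -/
def IsSubgroup {S : Type} [Semigroup S] (G : Set S) : Prop :=
  (∀ a ∈ G, ∀ b ∈ G, a * b ∈ G) ∧
    ∃ e ∈ G, ∀ a ∈ G, e * a = a ∧ a * e = a ∧ ∃ b ∈ G, a * b = e ∧ b * a = e

/-- The class of finite regular aperiodic semigroups. -/
def RegAp : Cls := fun S _ =>
  Finite S ∧ (∀ a : S, ∃ x : S, a * x * a = a) ∧ ∀ G : Set S, IsSubgroup G → G.Subsingleton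

/-- The three basic operators. -/
inductive Op : Type
  | image : Op
  | sub : Op
  | prod : Op

/-- Homomorphic images, (isomorphic copies of) subsemigroups, finite direct products. -/
def Op.apply : Op → Cls → Cls
  | .image, Φ => fun T _ => ∃ (A : Type) (_ : Semigroup A), Φ A ∧
      ∃ f : A →ₙ* T, Function.Surjective f
  | .sub, Φ => fun T _ => ∃ (A : Type) (_ : Semigroup A), Φ A ∧
      ∃ f : T →ₙ* A, Function.Injective f
  | .prod, Φ => fun T _ => ∃ (n : ℕ) (A : Fin n → Type) (_ : ∀ i, Semigroup (A i)),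
      (∀ i, Φ (A i)) ∧ Nonempty (T ≃* ∀ i, A i)

/-- Some algorithm decides from the multiplication table of a finite semigroup whether it
belongs to the class. -/
def Recursive (Φ : Cls) : Prop :=
  ∃ f : List (List ℕ) → Bool, Computable f ∧
    ∀ (T : Type) [Semigroup T] (n : ℕ) (e : Fin n ≃ T),
      f (List.ofFn fun i => List.ofFn fun j => (e.symm (e i * e j)).val) = true ↔ Φ T

end Pool.Agent.P.MP_9ca27c_lc
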