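import Mathlib
import Pool.Agent.P.MP_9ca27c_lc.Stack

/-! Path independence of the restriction maps. -/

namespace Pool.Agent.P.MP_9ca27c_lc

open Set

variable {M : Type} [Monoid M] {X : Type} [MulAction M X]

namespace LS

variable {S : LS M X}

theorem lv_lv (g : Option X) (w : X) {w' : X} (ν : Rl X) {q : X × Tl X} (h : S.le q.1 w') :
    lv M g w' (cp ν (Tr M w w')) q = lv M g w ν q := by
  simp only [lv, cp_assoc, Tr_Tr w h]

theorem PT.ctx {w : X} {K : Set X} {p : X × Tl X} (hp : S.PT (.R w K) p) (hK : Cl M K) :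
    S.Ctx p.1 (img (Tr M w p.1) K) := Ctx.tr hK hp.1

def P1 (S : LS M X) (n : Tl X) : Prop :=
  ∀ w K L₁ L₂, S.Ctx w K → S.Nrm n w K → Cl M L₁ → L₁ ⊆ K → Cl M L₂ → L₂ ⊆ L₁ →
    S.resR (S.resR n w L₁).2 (S.resR n w L₁).1 (img (Tr M w (S.resR n w L₁).1) L₂) =
      S.resR n w L₂

def P3 (S : LS M X) (n : Tl X) : Prop :=
  ∀ w K L ν, S.Ctx w K → S.Nrm n w K → Cl M L → L ⊆ K → ClR M ν → S.Adm ν → ran ν ⊆ L →
    S.Fg w ν →
    S.gh (S.resR n w L).2 (S.resR n w L).1 (cp ν (Tr M w (S.resR n w L).1)) = S.pullU n ν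

def P2 (S : LS M X) (n : Tl X) : Prop :=
  ∀ w K L ν, S.Ctx w K → S.Nrm n w K → Cl M L → L ⊆ K → ClR M ν → S.Adm ν → ran ν ⊆ L →
    S.gh (S.resR n w L).2 (S.resR n w L).1 (cp ν (Tr M w (S.resR n w L).1)) = S.gh n w ν

def P5 (S : LS M X) (n : Tl X) : Prop :=
  ∀ ν σ, S.HOK n → ClR M ν → S.Adm ν → ClR M σ → S.Adm σ → S.NS σ →
    S.pullU (S.pullU n ν) σ = S.pullU n (cp σ ν)

def P4 (S : LS M X) (n : Tl X) : Prop :=
  ∀ w K ν σ, S.Ctx w K → S.Nrm n w K → ClR M ν → S.Adm ν → ran ν ⊆ K → ClR M σ → S.Adm σ →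
    S.NS σ → S.pullU (S.gh n w ν) σ = S.gh n w (cp σ ν)

theorem P2_of {n : Tl X} (p1 : S.P1 n) (p3 : S.P3 n) : S.P2 n := by
  intro w K L ν h1 h2 h3 h4 h5 h6 h7
  by_cases hF : S.Fg w ν
  · rw [gh_pos hF]; exact p3 w K L ν h1 h2 h3 h4 h5 h6 h7 hF
  have hv := valid_resR h1 h2 h3 h4
  have ho : ran ν ⊆ orb M w := h7.trans (h4.trans h1.2.2)
  have hv2 := valid_resR (hv.ctx h3) hv.2.2 ((ClR_Tr _ _).cl_img h5.cl_ran) (img_mono _ h7)
  rw [gh_neg hF, gh_neg fun h => hF (h.of_tr ho hv.2.1), ran_cp, lv_lv _ _ _ hv2.2.1,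
    p1 w K L _ h1 h2 h3 h4 h5.cl_ran h7]

theorem P4_of {n : Tl X} (p2 : S.P2 n) (p5 : S.P5 n) : S.P4 n := by
  intro w K ν σ h1 h2 h3 h4 h5 h6 h7 h8
  by_cases hF : S.Fg w ν
  · rw [gh_pos hF, gh_pos (hF.comp h8)]; exact p5 ν σ h2.hok h3 h4 h6 h7 h8
  · rw [gh_neg hF, lv, pullU_cons, ← cp_assoc]
    exact p2 w K _ _ h1 h2 h3.cl_ran h5 (h6.comp h3) (h7.comp h4)
      ((ran_cp _ _).subset.trans (img_subset_ran _ _))

theorem path_aux (n : Tl X) : S.P1 n ∧ S.P3 n ∧ S.P5 n := by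
  induction n with
  | top =>
    refine ⟨fun w K L₁ L₂ _ _ _ _ _ _ => by simp only [resR_top],
      fun w K L ν h1 _ _ h4 _ _ h7 h8 => ?_, fun ν σ _ _ _ _ _ _ => ?_⟩
    · simp only [resR_top]
      rw [cp_Tr_same (h7.trans (h4.trans h1.2.2)), gh_pos h8]
    · rw [pullU_top, pullU_top, pullU_virt, dom_cp]
  | virt D =>
    refine ⟨fun w K L₁ L₂ h1 _ _ h4 _ h6 => ?_,
      fun w K L ν h1 _ _ h4 _ _ h7 h8 => ?_, fun ν σ _ _ _ _ _ _ => ?_⟩
    · by_cases hw : w ∈ L₁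
      · simp only [resR_mem hw]
        rw [img_Tr_same (h6.trans (h4.trans h1.2.2))]
      · simp only [resR_virt hw]
        rw [img_Tr_same (h6.trans (h4.trans h1.2.2)), resR_virt fun h => hw (h6 h),
          resR_virt fun h => hw (h6 h), inter_assoc, inter_eq_right.2 h6]
    · by_cases hw : w ∈ L
      · simp only [resR_mem hw]
        rw [cp_Tr_same (h7.trans (h4.trans h1.2.2)), gh_pos h8]
      · simp only [resR_virt hw]
        rw [cp_Tr_same (h7.trans (h4.trans h1.2.2)), gh_pos h8, pullU_virt, pullU_virt,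
          pre_inter h7]
    · rw [pullU_virt, pullU_virt, pullU_virt, pre_cp]
  | cons g w' μ n ih =>
    obtain ⟨p1, p3, p5⟩ := ih
    have p2 := P2_of p1 p3
    have p4 := P4_of p2 p5
    refine ⟨fun w K L₁ L₂ h1 ⟨k1, k2, k3, k4⟩ h3 h4 h5 h6 => ?_,
      fun w K L ν h1 ⟨k1, k2, k3, k4⟩ h3 h4 h5 h6 h7 h8 => ?_,
      fun ν σ h1 h2 h3 h4 h5 h6 => ?_⟩
    · have ho := h6.trans (h4.trans h1.2.2)
      by_cases hw : w ∈ L₁
      · simp only [resR_mem hw]
        rw [img_Tr_same ho]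
      have hw2 : w ∉ L₂ := fun h => hw (h6 h)
      have hv := valid_resR k1.ctx k2 (k1.2.1.cl_img h3) (img_subset_ran μ L₁)
      have ih := p1 _ _ _ _ k1.ctx k2 (k1.2.1.cl_img h3) (img_subset_ran μ L₁)
        (k1.2.1.cl_img h5) (img_mono μ h6)
      by_cases hg : g = some w
      · subst hg
        by_cases hL : L₁ ⊆ dom μ
        · rw [resR_full hw hL, resR_full hw2 (h6.trans hL), ← ih,
            img_eq_img_Tr k4.2.2.2 k4.2.2.1 (h6.trans hL), ← img_cp, Tr_Tr w hv.2.1]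
        · simp only [resR_nfull hw hL]
          have e1 : img (cp (cp (idr L₁) μ) (Tr M w' (S.resR n w' (img μ L₁)).1)) L₂ =
              img (Tr M w' (S.resR n w' (img μ L₁)).1) (img μ L₂) := by
            rw [img_cp, img_cp, img_idr, inter_eq_left.2 h6]
          have e2 : dom (cp (cp (idr L₁) μ) (Tr M w' (S.resR n w' (img μ L₁)).1)) =
              dom μ ∩ L₁ := by
            rw [dom_cp_Tr (k1.comp h3.clr_idr (Adm_idr _)).2.2.2, dom_cp, pre_idr]
          rw [img_Tr_same ho, lv]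
          by_cases hL2 : L₂ ⊆ dom μ
          · rw [resR_full hw2 (by rw [e2]; exact subset_inter hL2 h6), resR_full hw2 hL2, e1, ih]
          · have hv2 := valid_resR (hv.ctx (k1.2.1.cl_img h3)) hv.2.2
              ((ClR_Tr _ _).cl_img (k1.2.1.cl_img h5)) (img_mono _ (img_mono μ h6))
            rw [resR_nfull hw2 (by rw [e2]; exact fun h => hL2 (h.trans inter_subset_left)),
              resR_nfull hw2 hL2, e1, ← cp_assoc, lv_lv _ _ _ hv2.2.1, ih, ← cp_assoc,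
              cp_idr (by rwa [ran_idr])]
      · have hl := k1.comp h3.clr_idr (Adm_idr L₁)
        have hr : ran (cp (idr L₁) μ) ⊆ ran μ := (ran_cp _ _).subset.trans (img_subset_ran _ _)
        simp only [resR_ghost hw hg]
        rw [img_Tr_same ho, resR_U hw2 (valid_gh k1.ctx k2 hl.2.1 hl.2.2.1 hr).1,
          resR_ghost hw2 hg, p4 _ _ _ _ k1.ctx k2 hl.2.1 hl.2.2.1 hr h5.clr_idr (Adm_idr _)
            (NS_idr _), ← cp_assoc, cp_idr (by rwa [ran_idr])]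
    · have ho := h7.trans (h4.trans h1.2.2)
      by_cases hw : w ∈ L
      · simp only [resR_mem hw]
        rw [cp_Tr_same ho, gh_pos h8]
      have hv := valid_resR k1.ctx k2 (k1.2.1.cl_img h3) (img_subset_ran μ L)
      have ih := p2 _ _ _ (cp ν μ) k1.ctx k2 (k1.2.1.cl_img h3) (img_subset_ran μ L)
        (h5.comp k1.2.1) (h6.comp k1.2.2.1) ((ran_cp _ _).subset.trans (img_mono μ h7))
      rw [pullU_cons]
      by_cases hg : g = some w
      · subst hg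
        by_cases hL : L ⊆ dom μ
        · rw [resR_full hw hL, ← ih, cp_eq_cp_Tr k4.2.2.2 k4.2.2.1 (h7.trans hL), cp_assoc,
            Tr_Tr w hv.2.1]
        · simp only [resR_nfull hw hL]
          rw [cp_Tr_same ho, gh_pos h8, lv, pullU_cons, ← ih, ← cp_assoc, ← cp_assoc, cp_idr h7]
      · have hl := k1.comp h3.clr_idr (Adm_idr L)
        have hr : ran (cp (idr L) μ) ⊆ ran μ := (ran_cp _ _).subset.trans (img_subset_ran _ _)
        simp only [resR_ghost hw hg]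
        rw [cp_Tr_same ho, gh_pos h8, p4 _ _ _ _ k1.ctx k2 hl.2.1 hl.2.2.1 hr h5 h6 h8.2,
          ← cp_assoc, cp_idr h7]
    · have hl := h1.1.comp h2 h3
      rw [pullU_cons, pullU_cons, p4 _ _ _ _ h1.1.ctx h1.2 hl.2.1 hl.2.2.1
        ((ran_cp _ _).subset.trans (img_subset_ran _ _)) h4 h5 h6, cp_assoc]

theorem p1 (n : Tl X) : S.P1 n := (path_aux n).1
theorem p5 (n : Tl X) : S.P5 n := (path_aux n).2.2
theorem p2 (n : Tl X) : S.P2 n := P2_of (p1 n) (path_aux n).2.1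
theorem p4 (n : Tl X) : S.P4 n := P4_of (p2 n) (p5 n)

end LS

end Pool.Agent.P.MP_9ca27c_lc
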