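import Mathlib

/-! Normal maps of a finite meet structure with a rigid groupoid of isomorphisms
between principal ideals form a finite regular monoid with trivial subgroups. -/

namespace Pool.Agent.P.MP_9ca27c_lc

/-- elementary form of triviality of all subgroups -/
def HTriv (S : Type*) [Mul S] : Prop :=
  ∀ e a b : S, e * e = e → e * a = a → a * e = a → a * b = e → b * a = e → a = e

def Reg (S : Type*) [Mul S] : Prop := ∀ a : S, ∃ x : S, a * x * a = a

structure Frame (Ω : Type) where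
  le : Ω → Ω → Prop
  refl : ∀ x, le x x
  trans : ∀ {x y z}, le x y → le y z → le x z
  antisymm : ∀ {x y}, le x y → le y x → x = y
  top : Ω
  le_top : ∀ x, le x top
  meet : ∀ x x', (∃ y, le y x ∧ le y x') → ∃ m, ∀ y, le y m ↔ le y x ∧ le y x'
  I : Ω → Ω → Ω → Ω → Prop
  I_refl : ∀ {x y}, le y x → I x x y y
  I_symm : ∀ {x x' y y'}, I x x' y y' → I x' x y' y
  I_trans : ∀ {x x' x'' y y' y''}, I x x' y y' → I x' x'' y' y'' → I x x'' y y''
  I_le : ∀ {x x' y y'}, I x x' y y' → le y x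
  I_total : ∀ {x x' y₀ y₀' y}, I x x' y₀ y₀' → le y x → ∃ y', I x x' y y'
  I_rigid : ∀ {x y y'}, I x x y y' → y = y'
  I_res : ∀ {x x' y y' z}, I x x' y y' → le z y → ∃ z', I x x' z z' ∧ I y y' z z'

namespace Frame

variable {Ω : Type} (F : Frame Ω)

theorem I_fun {x x' y y₁ y₂} (h₁ : F.I x x' y y₁) (h₂ : F.I x x' y y₂) : y₁ = y₂ :=
  F.I_rigid (F.I_trans (F.I_symm h₁) h₂)

theorem I_le' {x x' y y'} (h : F.I x x' y y') : F.le y' x' := F.I_le (F.I_symm h)

def Nm (t : Function.End (Option Ω)) : Prop :=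
  t none = none ∧ ∀ x, (∀ y, F.le y x → t (some y) = none) ∨
    ∃ x' x'', F.le x' x ∧ (∀ y, F.le y x' → ∃ y', F.I x' x'' y y' ∧ t (some y) = some y') ∧
      (∀ y, F.le y x → t (some y) = none ∨ ∃ y'', F.le y'' x'' ∧ t (some y) = some y'')

def T : Submonoid (Function.End (Option Ω)) where
  carrier := {t | F.Nm t}
  one_mem' := by
    refine ⟨rfl, fun x => Or.inr ⟨x, x, F.refl x, fun y hy => ⟨y, F.I_refl hy, rfl⟩,
      fun y hy => Or.inr ⟨y, hy, rfl⟩⟩⟩
  mul_mem' := by
    rintro s t ⟨hs0, hs⟩ ⟨ht0, ht⟩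
    have hmul : ∀ o, (s * t) o = s (t o) := fun _ => rfl
    refine ⟨by rw [hmul, ht0, hs0], fun x => ?_⟩
    rcases ht x with h | ⟨x', x'', hx', h1, h2⟩
    · left; intro y hy; rw [hmul, h y hy, hs0]
    rcases hs x'' with h | ⟨x₁, x₂, hx₁, h3, h4⟩
    · left; intro y hy
      rcases h2 y hy with h5 | ⟨y'', h5, h6⟩
      · rw [hmul, h5, hs0]
      · rw [hmul, h6, h y'' h5]
    right
    obtain ⟨y', hy', -⟩ := h1 x' (F.refl _)
    obtain ⟨x₀, hx₀⟩ := F.I_total (F.I_symm hy') hx₁
    refine ⟨x₀, x₂, F.trans (F.I_le' hx₀) hx', fun y hy => ?_, fun y hy => ?_⟩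
    · obtain ⟨z', hz1, hz2⟩ := F.I_res (F.I_symm hx₀) hy
      obtain ⟨y₁, hy₁, hy₂⟩ := h1 y (F.trans hy (F.I_le' hx₀))
      obtain rfl := F.I_fun hy₁ hz1
      obtain ⟨y₃, hy₃, hy₄⟩ := h3 y₁ (F.I_le' hz2)
      exact ⟨y₃, F.I_trans hz2 hy₃, by rw [hmul, hy₂, hy₄]⟩
    · rcases h2 y hy with h5 | ⟨y'', h5, h6⟩
      · left; rw [hmul, h5, hs0]
      · rw [hmul, h6]; exact h4 y'' h5

theorem reg_T : Reg F.T := by
  classical
  rintro ⟨t, ht0, ht⟩
  rcases ht F.top with h | ⟨x', x'', -, h1, h2⟩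
  · refine ⟨1, Subtype.ext (funext fun o => ?_)⟩
    change t (t o) = t o
    have : ∀ o, t o = none := fun o => by
      cases o with
      | none => exact ht0
      | some y => exact h y (F.le_top y)
    rw [this, this]
  obtain ⟨y', hy', -⟩ := h1 x' (F.refl _)
  have hex : ∀ y, F.le y x'' → ∃ z, F.I x'' x' y z := fun y hy => F.I_total (F.I_symm hy') hy
  let s : Function.End (Option Ω) := fun o =>
    match o with
    | none => none
    | some y => if h : F.le y x'' then some (hex y h).choose else none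
  have hs1 : ∀ y, F.le y x'' → ∃ z, F.I x'' x' y z ∧ s (some y) = some z := fun y hy =>
    ⟨(hex y hy).choose, (hex y hy).choose_spec, by simp only [s, dif_pos hy]⟩
  have hs2 : ∀ y, ¬ F.le y x'' → s (some y) = none := fun y hy => by simp only [s, dif_neg hy]
  have hs : F.Nm s := by
    refine ⟨rfl, fun z => ?_⟩
    by_cases hz : ∃ y, F.le y z ∧ F.le y x''
    · right
      obtain ⟨m, hm⟩ := F.meet z x'' hz
      have hm0 := (hm m).1 (F.refl m)
      obtain ⟨m', hm', -⟩ := hs1 m hm0.2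
      have key : ∀ y, F.le y m → ∃ y', F.I m m' y y' ∧ s (some y) = some y' := by
        intro y hy
        obtain ⟨z', hz1, hz2⟩ := F.I_res hm' hy
        obtain ⟨z₂, hz3, hz4⟩ := hs1 y (F.trans hy hm0.2)
        obtain rfl := F.I_fun hz1 hz3
        exact ⟨_, hz2, hz4⟩
      refine ⟨m, m', hm0.1, key, fun y hy => ?_⟩
      by_cases hyx : F.le y x''
      · obtain ⟨y₁, hy₁, hy₂⟩ := key y ((hm y).2 ⟨hy, hyx⟩)
        exact Or.inr ⟨y₁, F.I_le' hy₁, hy₂⟩
      · exact Or.inl (hs2 y hyx)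
    · left; intro y hy; exact hs2 y fun h => hz ⟨y, hy, h⟩
  refine ⟨⟨s, hs⟩, Subtype.ext (funext fun o => ?_)⟩
  change t (s (t o)) = t o
  cases o with
  | none => rw [ht0]; exact ht0
  | some y =>
    rcases h2 y (F.le_top y) with h5 | ⟨y'', h5, h6⟩
    · rw [h5]; exact ht0
    · rw [h6]
      obtain ⟨z, hz1, hz2⟩ := hs1 y'' h5
      rw [hz2]
      obtain ⟨z', hz3, hz4⟩ := h1 z (F.I_le' hz1)
      rw [hz4, F.I_fun hz3 (F.I_symm hz1)]

theorem htriv_T : HTriv F.T := by
  rintro ⟨e, he0, he⟩ ⟨a, ha0, ha⟩ ⟨b, hb0, hb1⟩ h1 h2 h3 h4 h5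
  have e1 : ∀ o, e (e o) = e o := fun o => congrFun (congrArg Subtype.val h1) o
  have e2 : ∀ o, e (a o) = a o := fun o => congrFun (congrArg Subtype.val h2) o
  have e3 : ∀ o, a (e o) = a o := fun o => congrFun (congrArg Subtype.val h3) o
  have e4 : ∀ o, a (b o) = e o := fun o => congrFun (congrArg Subtype.val h4) o
  have e5 : ∀ o, b (a o) = e o := fun o => congrFun (congrArg Subtype.val h5) o
  refine Subtype.ext (funext fun o => ?_)
  change a o = e o
  rcases he F.top with h | ⟨x', x'', -, g1, g2⟩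
  · have : ∀ o, e o = none := fun o => by
      cases o with
      | none => exact he0
      | some y => exact h y (F.le_top y)
    rw [← e2, this, this]
  obtain ⟨y', hy', -⟩ := g1 x' (F.refl _)
  -- the fixed points of `e` are the elements below `x''`
  have fix1 : ∀ y, F.le y x'' → e (some y) = some y := by
    intro y hy
    obtain ⟨z, hz⟩ := F.I_total (F.I_symm hy') hy
    obtain ⟨z', hz1, hz2⟩ := g1 z (F.I_le' hz)
    obtain rfl := F.I_fun hz1 (F.I_symm hz)
    rw [← hz2, e1]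
  have fix2 : ∀ o y, e o = some y → F.le y x'' := by
    intro o y h
    cases o with
    | none => rw [he0] at h; cases h
    | some z =>
      rcases g2 z (F.le_top z) with h5 | ⟨y'', h5, h6⟩
      · rw [h5] at h; cases h
      · rw [h6] at h; cases h; exact h5
  have ane : ∀ y, F.le y x'' → a (some y) ≠ none := by
    intro y hy h
    have := e5 (some y)
    rw [h, hb0, fix1 y hy] at this
    cases this
  have key : ∀ y, F.le y x'' → a (some y) = some y := by
    rcases ha x'' with h | ⟨x₁, x₂, hx₁, k1, k2⟩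
    · exact absurd (h x'' (F.refl _)) (ane _ (F.refl _))
    obtain ⟨y₁, hy₁, -⟩ := k1 x₁ (F.refl _)
    have surj : ∀ y, F.le y x₂ → ∃ z, F.le z x₁ ∧ a (some z) = some y := by
      intro y hy
      obtain ⟨z, hz⟩ := F.I_total (F.I_symm hy₁) hy
      obtain ⟨z', hz1, hz2⟩ := k1 z (F.I_le' hz)
      obtain rfl := F.I_fun hz1 (F.I_symm hz)
      exact ⟨z, F.I_le' hz, hz2⟩
    have l1 : F.le x₂ x'' := by
      obtain ⟨z, -, hz⟩ := surj x₂ (F.refl _)
      exact fix2 (a (some z)) x₂ (by rw [e2, hz])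
    have l2 : F.le x'' x₂ := by
      have h6 : a (e (b (some x''))) = some x'' := by rw [e3, e4, fix1 _ (F.refl _)]
      cases h7 : e (b (some x'')) with
      | none => rw [h7, ha0] at h6; cases h6
      | some z =>
        rw [h7] at h6
        rcases k2 z (fix2 _ _ h7) with h8 | ⟨y'', h8, h9⟩
        · rw [h8] at h6; cases h6
        · rw [h9] at h6; cases h6; exact h8
    obtain rfl := F.antisymm l1 l2
    have l3 : F.le x₂ x₁ := by
      rcases k2 x₂ (F.refl _) with h8 | ⟨y'', h8, h9⟩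
      · exact absurd h8 (ane _ (F.refl _))
      · obtain ⟨z, hz1, hz2⟩ := surj y'' h8
        have h10 := e5 (some z)
        rw [hz2, ← h9, e5, fix1 _ (F.refl _), fix1 _ (F.trans hz1 hx₁)] at h10
        cases h10; exact hz1
    obtain rfl := F.antisymm l3 hx₁
    intro y hy
    obtain ⟨z, hz1, hz2⟩ := k1 y hy
    rw [hz2, F.I_rigid hz1]
  rw [← e3]
  cases h7 : e o with
  | none => exact ha0
  | some z => exact key z (fix2 _ _ h7)

theorem exists_hom [Finite Ω] {M : Type} [Monoid M] (act : M → Ω → Ω)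
    (h1 : ∀ x, act 1 x = x) (h2 : ∀ a b x, act (a * b) x = act a (act b x))
    (h3 : ∀ a x, ∃ x', F.le x' x ∧ ∀ y, F.le y x' → F.I x' (act a x) y (act a y))
    (h4 : ∀ a x y, F.le y x → F.le (act a y) (act a x)) :
    ∃ (T : Type) (_ : Monoid T), Finite T ∧ Reg T ∧ HTriv T ∧
      ∃ φ : M →* T, ∀ a b, φ a = φ b → ∀ x, act a x = act b x := by
  have hmem : ∀ a, (show Function.End (Option Ω) from Option.map (act a)) ∈ F.T := by
    intro a
    refine ⟨rfl, fun x => Or.inr ?_⟩
    obtain ⟨x', hx', h⟩ := h3 a x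
    exact ⟨x', act a x, hx', fun y hy => ⟨_, h y hy, rfl⟩,
      fun y hy => Or.inr ⟨_, h4 a x y hy, rfl⟩⟩
  have hfin : Finite (Function.End (Option Ω)) := inferInstanceAs (Finite (Option Ω → Option Ω))
  refine ⟨F.T, inferInstance, inferInstance, F.reg_T, F.htriv_T,
    ⟨⟨fun a => ⟨_, hmem a⟩, ?_⟩, ?_⟩, ?_⟩
  · refine Subtype.ext (funext fun o => ?_)
    cases o with
    | none => rfl
    | some y => exact congrArg some (h1 y)
  · intro a b
    refine Subtype.ext (funext fun o => ?_)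
    cases o with
    | none => rfl
    | some y => exact congrArg some (h2 a b y)
  · intro a b h x
    have := congrFun (congrArg Subtype.val h) (some x)
    exact Option.some.inj this

end Frame

end Pool.Agent.P.MP_9ca27c_lc
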