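import Mathlib
import Pool.Agent.P.MP_9ca27c_lc.Graft

/-! Isomorphisms between types of stacks. -/

namespace Pool.Agent.P.MP_9ca27c_lc

open Set

variable {M : Type} [Monoid M] {X : Type} [MulAction M X]

namespace LS

variable (S : LS M X)

def TI : Ty X → Ty X → X × Tl X → X × Tl X → Prop
  | .R w K, .R w' K', z, z' => (w = w' ∧ K = K' ∧ z' = z) ∨
      (w ∈ K ∧ w' ∈ K' ∧ ∃ a : M, S.le (a • w) w' ∧ S.le w' (a • w) ∧ w ∈ orb M (a • w) ∧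
        z' = S.act a z)
  | .U D, .U D', z, z' => ∃ σ, ClR M σ ∧ S.Adm σ ∧ S.NS σ ∧ dom σ = D' ∧ ran σ = D ∧
      z' = (S.top, S.relab z.2 σ)
  | _, _, _, _ => False

variable {S}

theorem PT_orb {w : X} {z : X × Tl X} : S.PT (.R w (orb M w)) z ↔ S.St z ∧ S.le z.1 w := by
  simp only [PT, St, img_Tr_orb]; tauto

theorem Ctx.eq_orb {w : X} {K : Set X} (h : S.Ctx w K) (hw : w ∈ K) : K = orb M w :=
  h.2.2.antisymm (h.2.1.orb_subset hw)

theorem TI_refl {τ : Ty X} {z : X × Tl X} (h : S.TyOK τ) (hz : S.PT τ z) : S.TI τ τ z z := by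
  cases τ with
  | R w K => exact Or.inl ⟨rfl, rfl, rfl⟩
  | U D =>
    refine ⟨idr D, h.1.clr_idr, Adm_idr D, NS_idr D, dom_idr D, ran_idr D, ?_⟩
    rw [relab_idr (hz.2.1.flagIn D) (Or.inr hz.2.2), ← hz.1]

theorem TI_valid {τ τ' : Ty X} {z z' : X × Tl X} (h : S.TyOK τ) (h' : S.TyOK τ')
    (hz : S.PT τ z) (hI : S.TI τ τ' z z') : S.PT τ' z' := by
  cases τ <;> cases τ'
  · rcases hI with ⟨rfl, rfl, rfl⟩ | ⟨h1, h2, a, h3, -, -, rfl⟩
    · exact hz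
    · rw [Ctx.eq_orb h h1, PT_orb] at hz
      rw [Ctx.eq_orb h' h2, PT_orb]
      exact ⟨(valid_act hz.1 a).1, le_trans (valid_act hz.1 a).2 (le_trans (hz.2.smul a) h3)⟩
  · exact hI.elim
  · exact hI.elim
  · obtain ⟨σ, h1, h2, -, rfl, rfl, rfl⟩ := hI
    have := valid_pullU hz.2.1.hok h1 h2
    rw [← relab_U hz.2.1 hz.2.2 h1 h2] at this
    exact ⟨rfl, this.1, this.2.trans (pre_subset_dom _ _)⟩

theorem le.fix {a b : X} (h : S.le a b) {z : M} (e : z • b = b) : z • a = a := by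
  have := h.eq (z := z) (z' := 1) (by rwa [one_smul])
  rwa [one_smul] at this

theorem NS.adm_flip {σ : Rl X} (h : S.NS σ) : S.Adm (flip σ) := by
  obtain ⟨f, hf, h⟩ := h; exact ⟨f, hf, fun k k' e => h k' k e⟩

theorem Adm.ns_flip {σ : Rl X} (h : S.Adm σ) : S.NS (flip σ) := by
  obtain ⟨f, hf, h⟩ := h; exact ⟨f, hf, fun k k' e => h k' k e⟩

theorem TI_symm {τ τ' : Ty X} {z z' : X × Tl X} (h : S.TyOK τ)
    (hz : S.PT τ z) (hI : S.TI τ τ' z z') : S.TI τ' τ z' z := by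
  cases τ <;> cases τ'
  · rename_i w K w' K'
    rcases hI with ⟨rfl, rfl, rfl⟩ | ⟨h1, h2, a, h3, h4, ⟨b, hb⟩, rfl⟩
    · exact Or.inl ⟨rfl, rfl, rfl⟩
    · rw [Ctx.eq_orb h h1, PT_orb] at hz
      refine Or.inr ⟨h2, h1, b, ?_, ?_, ⟨a, ?_⟩, ?_⟩
      · have := h4.smul b; rwa [← hb] at this
      · have := h3.smul b; rwa [← hb] at this
      · rw [← mul_smul, h4.fix (by rw [mul_smul, ← hb])]
      · rw [act_act hz.1, act_fix hz.1 (hz.2.fix (by rw [mul_smul, ← hb]))]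
  · exact hI.elim
  · exact hI.elim
  · obtain ⟨σ, h1, h2, h3, rfl, rfl, rfl⟩ := hI
    refine ⟨flip σ, h1.fl, h3.adm_flip, h2.ns_flip, rfl, rfl, ?_⟩
    dsimp only
    rw [relab_relab (hz.2.1.flagIn _) h3 h2.ns_flip, h2.flip_cp,
      relab_idr (hz.2.1.flagIn _) (Or.inr hz.2.2), ← hz.1]

theorem TI_trans {τ τ' τ'' : Ty X} {z z' z'' : X × Tl X} (h : S.TyOK τ)
    (hz : S.PT τ z) (hI : S.TI τ τ' z z') (hI' : S.TI τ' τ'' z' z'') : S.TI τ τ'' z z'' := by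
  cases τ <;> cases τ' <;> cases τ'' <;> try first | exact hI.elim | exact hI'.elim
  · rename_i w K w' K' w'' K''
    rcases hI with ⟨rfl, rfl, rfl⟩ | ⟨h1, h2, a, h3, h4, ⟨b, hb⟩, rfl⟩
    · exact hI'
    rcases hI' with ⟨rfl, rfl, rfl⟩ | ⟨-, k2, a', k3, k4, ⟨b', hb'⟩, rfl⟩
    · exact Or.inr ⟨h1, h2, a, h3, h4, ⟨b, hb⟩, rfl⟩
    rw [Ctx.eq_orb h h1, PT_orb] at hz
    refine Or.inr ⟨h1, k2, a' * a, ?_, ?_, ⟨b * b', ?_⟩, act_act hz.1 a a'⟩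
    · rw [mul_smul]; exact le_trans (h3.smul a') k3
    · rw [mul_smul]; exact le_trans k4 (h4.smul a')
    · have := h3.fix (z := b' * a') (by rw [mul_smul, ← hb'])
      rw [mul_smul, mul_smul, ← mul_smul b', this, ← hb]
  · obtain ⟨σ, h1, h2, h3, h4, rfl, rfl⟩ := hI
    obtain ⟨σ', k1, k2, k3, rfl, k5, rfl⟩ := hI'
    refine ⟨cp σ' σ, k1.comp h1, k2.comp h2, k3.comp h3, ?_, ?_, ?_⟩
    · rw [dom_cp, pre_of_ran (by rw [k5, h4])]
    · rw [ran_cp, img_of_dom (by rw [k5, h4])]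
    · dsimp only
      rw [relab_relab (hz.2.1.flagIn _) h3 k3]

theorem TI_total {τ τ' : Ty X} {z₀ z₀' : X × Tl X} (hI : S.TI τ τ' z₀ z₀') (z : X × Tl X) :
    ∃ z', S.TI τ τ' z z' := by
  cases τ <;> cases τ'
  · rcases hI with ⟨rfl, rfl, rfl⟩ | ⟨h1, h2, a, h3, h4, h5, rfl⟩
    · exact ⟨z, Or.inl ⟨rfl, rfl, rfl⟩⟩
    · exact ⟨_, Or.inr ⟨h1, h2, a, h3, h4, h5, rfl⟩⟩
  · exact hI.elim
  · exact hI.elim
  · obtain ⟨σ, h1, h2, h3, h4, h5, -⟩ := hI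
    exact ⟨_, σ, h1, h2, h3, h4, h5, rfl⟩

theorem TI_rigid [Finite X] {τ : Ty X} {z z' : X × Tl X} (h : S.TyOK τ)
    (hz : S.PT τ z) (hI : S.TI τ τ z z') : z' = z := by
  cases τ with
  | R w K =>
    rcases hI with ⟨-, -, rfl⟩ | ⟨h1, -, a, h3, h4, h5, rfl⟩
    · rfl
    · rw [Ctx.eq_orb h h1, PT_orb] at hz
      have e := rigid_rel (σ := Tr M w (a • w)) h.1.1 subset_rfl (Adm_Tr h3) (NS_Tr h4)
        (dom_Tr _ _) (by
          rw [ran_Tr]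
          exact ((Cl_orb w).orb_subset ⟨a, rfl⟩).antisymm ((Cl_orb _).orb_subset h5))
      have := Tr_self (M := M) w (a • w)
      rw [e] at this
      exact act_fix hz.1 (hz.2.fix this.2)
  | U D =>
    obtain ⟨σ, -, h2, h3, h4, h5, rfl⟩ := hI
    obtain ⟨w, hw, hD⟩ := h.2
    rw [rigid_rel hw hD h2 h3 h4 h5, relab_idr (hz.2.1.flagIn D) (Or.inr hz.2.2), ← hz.1]

theorem relab_res {m : Tl X} {σ : Rl X} {D : Set X} (h : S.Uv m) (h1 : hdom m ⊆ D)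
    (h3 : S.NS σ) : S.relab m (cp σ (idr D)) = S.relab m σ := by
  rw [← relab_relab (h.flagIn _) (NS_idr D) h3, relab_idr (h.flagIn _) (Or.inr h1)]

theorem relab_ne_top {n : Tl X} (h : n ≠ .top) (σ : Rl X) : S.relab n σ ≠ .top := by
  cases n with
  | top => exact (h rfl).elim
  | virt D => simp [relab]
  | cons => simp [relab]

theorem relab_graft {n : Tl X} {w : X} {K : Set X} {σ : Rl X} {s : X × Tl X} (hn : n ≠ .top)
    (hd : hdom n ⊆ ran σ) (h1 : ClR M σ) (h2 : S.Adm σ) (h3 : S.NS σ) (hT : S.TyOK (ty n w K))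
    (hs : S.PT (ty n w K) s) (w₂ : X) (K₂ : Set X) :
    ∃ s', S.TI (ty n w K) (ty (S.relab n σ) w₂ K₂) s s' ∧
      S.relab (graft M n w s).2 σ = (graft M (S.relab n σ) w₂ s').2 := by
  cases n with
  | top => exact (hn rfl).elim
  | virt D =>
    refine ⟨(S.top, S.relab s.2 (cp σ (idr D))), ⟨cp σ (idr D), h1.comp hT.1.clr_idr,
      h2.comp (Adm_idr D), h3.comp (NS_idr D), by rw [dom_cp, dom_idr], ?_, rfl⟩, ?_⟩
    · rw [ran_cp, img_idr]; exact inter_eq_right.2 hd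
    · exact (relab_res hs.2.1 hs.2.2 h3).symm
  | cons g w' μ n =>
    have e : ran (cp σ μ) = ran μ := by rw [ran_cp, img_of_dom hd]
    refine ⟨s, ?_, ?_⟩
    · simp only [relab, ty, e]; exact TI_refl hT hs
    · simp only [relab, graft, lv, cp_assoc]

theorem TI_res {τ τ' : Ty X} {r r' s : X × Tl X} (h : S.TyOK τ) (h' : S.TyOK τ')
    (hr : S.PT τ r) (hI : S.TI τ τ' r r') (hs : S.PT (tyE M τ r) s) :
    ∃ s', S.TI (tyE M τ r) (tyE M τ' r') s s' ∧ S.TI τ τ' (gr M r s) (gr M r' s') := by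
  have hT := tyE_ok h hr
  cases τ <;> cases τ'
  · rename_i w K w' K'
    rcases hI with ⟨rfl, rfl, rfl⟩ | ⟨h1, h2, a, h3, h4, h5, rfl⟩
    · exact ⟨s, TI_refl hT hs, Or.inl ⟨rfl, rfl, rfl⟩⟩
    obtain rfl := Ctx.eq_orb h h1
    obtain rfl := Ctx.eq_orb h' h2
    have hr' := PT_orb.1 hr
    obtain ⟨u, n⟩ := r
    have hu : u ∈ orb M (a • u) := by
      obtain ⟨b, hb⟩ := h5
      exact ⟨b, by rw [← mul_smul, hr'.2.fix (by rw [mul_smul, ← hb])]⟩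
    have hP : a • u ∈ S.Pt := S.P_smul hr'.1.1.1 a
    have e : ∀ m, S.act a (u, m) = (S.rep (a • u), S.relab m (Tr M (S.rep (a • u)) (a • u))) :=
      fun m => mv_pos hu m
    simp only [tyE, vis, img_Tr_orb, gr, e] at hs hT ⊢
    by_cases hn : n = .top
    · subst hn
      exact ⟨S.act a s, Or.inr ⟨mem_orb _, mem_orb _, a, (rep_spec hP).2.2, (rep_spec hP).2.1,
        hu, rfl⟩, Or.inr ⟨h1, h2, a, h3, h4, h5, rfl⟩⟩
    · obtain ⟨s', k1, k2⟩ := relab_graft hn (by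
        rw [ran_Tr]
        exact (hr'.1.2.hdom_subset.resolve_left hn).trans ((Cl_orb _).orb_subset hu))
        (ClR_Tr _ _) (Adm_rep hP) (NS_rep hP) hT hs (S.rep (a • u)) (orb M (S.rep (a • u)))
      refine ⟨s', k1, Or.inr ⟨h1, h2, a, h3, h4, h5, ?_⟩⟩
      rw [g_ne hn u u, e, k2, ← g_ne (relab_ne_top hn _)]
  · exact hI.elim
  · exact hI.elim
  · obtain ⟨σ, h1, h2, h3, rfl, rfl, rfl⟩ := hI
    obtain ⟨s', k1, k2⟩ := relab_graft hr.2.1.ne_top hr.2.2 h1 h2 h3 hT hs S.top ∅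
    refine ⟨s', k1, σ, h1, h2, h3, rfl, rfl, ?_⟩
    simp only [gr]
    rw [k2, ← g_ne (relab_ne_top hr.2.1.ne_top _)]

end LS

end Pool.Agent.P.MP_9ca27c_lc
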