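import Mathlib

/-! The family of subsets of an `M`-set generated from the whole set by translates,
intersections and equalizers is finite when `M` is finite. -/

namespace Pool.Agent.P.MP_9ca27c_lc.Ex

open Set

inductive Gen (M : Type) [Monoid M] {Z : Type} [MulAction M Z] : Set Z → Prop
  | univ : Gen M univ
  | smul (s : M) {Y : Set Z} : Gen M Y → Gen M {z | ∃ y ∈ Y, z = s • y}
  | inter {Y Y' : Set Z} : Gen M Y → Gen M Y' → Gen M (Y ∩ Y')
  | eq (r r' : M) {Y : Set Z} : Gen M Y → Gen M (Y ∩ {z | r • z = r' • z})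

variable {M : Type} [Monoid M] [Finite M] {Z : Type} [MulAction M Z]

def Hi (M : Type) [Monoid M] {Z : Type} [MulAction M Z] (j : ℕ) (Y : Set Z) : Prop :=
  ∀ p : M, (∀ y ∈ Y, ∃ z, y = p • z) → j ≤ (range (fun m : M => m * p)).ncard

theorem gen_step (j : ℕ) (h : {Y : Set Z | Gen M Y ∧ Hi M (j + 1) Y}.Finite) :
    {Y : Set Z | Gen M Y ∧ Hi M j Y}.Finite := by
  let W : Set (Set Z) := {Y : Set Z | Gen M Y ∧ Hi M (j + 1) Y}
  let B : Set (Set Z) :=
    ((fun q : (M × M) × Set Z => {z | ∃ y ∈ q.2, q.1.1 • z = q.1.2 • y}) '' (univ ×ˢ W)) ∪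
      range (fun q : M × M => {z : Z | q.1 • z = q.2 • z})
  have hB : B.Finite := ((finite_univ.prod h).image _).union (finite_range _)
  have hpre : ∀ r : M, ∀ C ∈ B, {z | r • z ∈ C} ∈ B := by
    rintro r C (⟨⟨⟨a, b⟩, Y⟩, ⟨-, hY⟩, rfl⟩ | ⟨⟨a, b⟩, rfl⟩)
    · exact Or.inl ⟨((a * r, b), Y), ⟨trivial, hY⟩, by ext z; simp [mul_smul]⟩
    · exact Or.inr ⟨(a * r, b * r), by ext z; simp [mul_smul]⟩
  have key : ∀ Y : Set Z, Gen M Y → Hi M j Y → ∃ C ⊆ B, Y = ⋂₀ C := by
    intro Y hY
    induction hY with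
    | univ => intro _; exact ⟨∅, empty_subset _, by simp⟩
    | @smul s Y hY ih =>
      intro hH
      have hsub : ∀ p : M, range (fun m : M => m * (s * p)) ⊆ range (fun m : M => m * p) := by
        rintro p _ ⟨m, rfl⟩; exact ⟨m * s, mul_assoc _ _ _⟩
      have hs : ∀ p : M, (∀ y ∈ Y, ∃ z, y = p • z) →
          j ≤ (range (fun m : M => m * (s * p))).ncard := by
        intro p hp
        apply hH
        rintro _ ⟨y, hy, rfl⟩
        obtain ⟨z, rfl⟩ := hp y hy
        exact ⟨z, (mul_smul _ _ _).symm⟩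
      by_cases h1 : Hi M (j + 1) Y
      · refine ⟨{{z | ∃ y ∈ Y, z = s • y}}, ?_, by simp⟩
        rintro _ rfl
        exact Or.inl ⟨((1, s), Y), ⟨trivial, hY, h1⟩, by ext z; simp⟩
      obtain ⟨C, hC, rfl⟩ := ih fun p hp => (hs p hp).trans (ncard_le_ncard (hsub p))
      simp only [Hi, not_forall, not_le] at h1
      obtain ⟨p, hp, hlt⟩ := h1
      have heq := eq_of_subset_of_ncard_le (hsub p) ((Nat.lt_succ_iff.1 hlt).trans (hs p hp))
      obtain ⟨r, hr⟩ : p ∈ range (fun m : M => m * (s * p)) := by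
        rw [heq]; exact ⟨1, one_mul p⟩
      have hr' : r * (s * p) = p := hr
      refine ⟨((fun D => {z | r • z ∈ D}) '' C) ∪ {{z | (s * r) • z = (1 : M) • z}}, ?_, ?_⟩
      · rintro _ (⟨D, hD, rfl⟩ | rfl)
        · exact hpre r D (hC hD)
        · exact Or.inr ⟨(s * r, 1), rfl⟩
      · ext z
        constructor
        · rintro ⟨y, hy, rfl⟩
          obtain ⟨y₀, hy₀⟩ := hp y hy
          have h2 : r • s • y = y := by rw [hy₀, ← mul_smul, ← mul_smul, mul_assoc, hr']
          rintro _ (⟨D, hD, rfl⟩ | rfl)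
          · change r • s • y ∈ D
            rw [h2]; exact hy D hD
          · change (s * r) • s • y = (1 : M) • s • y
            rw [mul_smul, h2, one_smul]
        · intro hz
          refine ⟨r • z, fun D hD => hz _ (Or.inl ⟨D, hD, rfl⟩), ?_⟩
          have := hz _ (Or.inr rfl)
          simpa [mul_smul] using this.symm
    | @inter Y Y' _ _ ih ih' =>
      intro hH
      by_cases h1 : Hi M j Y
      · by_cases h2 : Hi M j Y'
        · obtain ⟨C, hC, rfl⟩ := ih h1
          obtain ⟨C', hC', rfl⟩ := ih' h2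
          exact ⟨C ∪ C', union_subset hC hC', (sInter_union _ _).symm⟩
        · exact absurd (fun p hp => hH p fun y hy => hp y hy.2) h2
      · exact absurd (fun p hp => hH p fun y hy => hp y hy.1) h1
    | @eq r r' Y _ ih =>
      intro hH
      obtain ⟨C, hC, rfl⟩ := ih fun p hp => hH p fun y hy => hp y hy.1
      refine ⟨C ∪ {{z | r • z = r' • z}}, union_subset hC ?_, by rw [sInter_union, sInter_singleton]⟩
      rintro _ rfl
      exact Or.inr ⟨(r, r'), rfl⟩
  refine (hB.powerset.image sInter).subset ?_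
  rintro Y ⟨h1, h2⟩
  obtain ⟨C, hC, rfl⟩ := key Y h1 h2
  exact ⟨C, hC, rfl⟩

theorem gen_finite : {Y : Set Z | Gen M Y}.Finite := by
  have key : ∀ k j, Nat.card M + 1 ≤ j + k → {Y : Set Z | Gen M Y ∧ Hi M j Y}.Finite := by
    intro k
    induction k with
    | zero =>
      intro j hj
      refine finite_empty.subset ?_
      rintro Y ⟨-, h⟩
      have h1 := h 1 fun y _ => ⟨y, (one_smul _ _).symm⟩
      have h2 : (range (fun m : M => m * 1)).ncard ≤ Nat.card M := ncard_le_card _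
      omega
    | succ k ih => intro j hj; exact gen_step j (ih (j + 1) (by omega))
  refine (key (Nat.card M + 1) 0 (by omega)).subset fun Y hY => ⟨hY, fun _ _ => Nat.zero_le _⟩

/-- the maps with property `P`, restricted to `V`, form an image of a subsemigroup of `M` -/
def Cov (M : Type) [Monoid M] {A : Type} (P : (A → A) → Prop) (V : A → Prop) : Prop :=
  ∃ ρ : M → (A → A) → Prop, (∀ j, P j → ∃ r, ρ r j) ∧ (∀ r j, ρ r j → P j) ∧
    (∀ r r' j j', ρ r j → ρ r' j' → ρ (r * r') (j ∘ j')) ∧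
    ∀ r j j', ρ r j → ρ r j' → ∀ y, V y → j y = j' y

end Pool.Agent.P.MP_9ca27c_lc.Ex
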