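import Mathlib
import Pool.Agent.P.MP_9ca27c_lc.ExGen

/-! Label systems: finite `M`-sets with a rigid monoid of equivariant maps whose induced
preorder has meets and equalizers. -/

namespace Pool.Agent.P.MP_9ca27c_lc.Ex

open Set

structure LS (M : Type) [Monoid M] (X : Type) [MulAction M X] where
  E : Set (X → X)
  id_mem : id ∈ E
  comp_mem : ∀ {f g}, f ∈ E → g ∈ E → f ∘ g ∈ E
  equiv : ∀ {f}, f ∈ E → ∀ (z : M) (v : X), f (z • v) = z • f v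
  Pt : Set X
  P_smul : ∀ {v}, v ∈ Pt → ∀ z : M, z • v ∈ Pt
  top : X
  top_mem : top ∈ Pt
  le_top : ∀ v ∈ Pt, ∃ f ∈ E, f top = v
  faith : ∀ a b : M, (∃ f ∈ E, f (b • top) = a • top) → ∃ c, a = b * c
  meet : ∀ v ∈ Pt, ∀ v' ∈ Pt, ∃ m ∈ Pt, ∀ x,
    (∃ f ∈ E, f m = x) ↔ (∃ f ∈ E, f v = x) ∧ (∃ f ∈ E, f v' = x)
  eqz : ∀ v ∈ Pt, ∀ z z' : M, ∃ m ∈ Pt, ∀ x,
    (∃ f ∈ E, f m = x) ↔ (∃ f ∈ E, f v = x) ∧ z • x = z' • x

/-- the permutations of a subset of an orbit induced by the maps of a label system are all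
induced by maps that preserve one larger orbit -/
def LS.Rig {M : Type} [Monoid M] {X : Type} [MulAction M X] (S : LS M X) : Prop :=
  ∀ w ∈ S.Pt, ∀ D : Set X, (∀ k ∈ D, ∃ z : M, k = z • w) → ∃ n, (∃ z : M, w = z • n) ∧
    ∀ f ∈ S.E, BijOn f D D → ∃ g ∈ S.E, EqOn g f D ∧ ∃ r : M, g n = r • n

/-- good pointed finite `M`-sets -/
structure GP (M : Type) [Monoid M] where
  Y : Type
  [act : MulAction M Y]
  [fin : Finite Y]
  x : Y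
  N : Set Y
  x_mem : x ∈ N
  x_le : ∀ n ∈ N, ∃ z : M, x = z • n
  least : ∀ y, ∃ n ∈ N, (∃ z : M, y = z • n) ∧
    ∀ n' ∈ N, (∃ z : M, y = z • n') → ∃ z : M, n = z • n'
  chain : ∀ n₁ ∈ N, ∀ n₂ ∈ N, ∀ n ∈ N, (∃ z : M, n₁ = z • n) → (∃ z : M, n₂ = z • n) →
    (∃ z : M, n₁ = z • n₂) ∨ ∃ z : M, n₂ = z • n₁

attribute [instance] GP.act GP.fin

variable {M : Type} [Monoid M]

def Hom (M : Type) [Monoid M] {Y Z : Type} [MulAction M Y] [MulAction M Z] (y : Y) (z : Z) :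
    Prop :=
  ∃ f : Y → Z, (∀ (m : M) v, f (m • v) = m • f v) ∧ f y = z

theorem GP.common (G : GP M) (Φ : Set (G.Y → G.Y)) (I : Set G.Y)
    (h1 : ∀ f ∈ Φ, ∀ (m : M) v, f (m • v) = m • f v) (h2 : ∀ f ∈ Φ, ∀ y, f y ∈ I)
    (h3 : ∀ f ∈ Φ, ∀ y ∈ I, ∃ y' ∈ I, f y' = y) :
    ∃ n, (∃ z : M, G.x = z • n) ∧ ∀ f ∈ Φ, ∃ r : M, f n = r • n := by
  choose c hc1 hc2 hc3 using G.least
  have tr : ∀ {a b d : G.Y}, (∃ z : M, a = z • b) → (∃ z : M, b = z • d) → ∃ z : M, a = z • d := by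
    rintro _ _ d ⟨z, rfl⟩ ⟨s, rfl⟩
    exact ⟨z * s, (mul_smul _ _ _).symm⟩
  let Q : Set G.Y := {n | n ∈ G.N ∧ ∀ y ∈ I, (∃ z : M, c y = z • n) ∨ ∃ z : M, n = z • c y}
  have hx : G.x ∈ Q := ⟨G.x_mem, fun y _ => Or.inr (G.x_le _ (hc1 y))⟩
  obtain ⟨n, ⟨hn1, hn2⟩, hmax⟩ := exists_max_image Q
    (fun n => (range (fun s : M => s • n)).ncard) (toFinite _) ⟨_, hx⟩
  refine ⟨n, G.x_le n hn1, fun f hf => ?_⟩
  have mono : ∀ {a b : G.Y}, (∃ z : M, a = z • b) → ∃ z : M, f a = z • f b := by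
    rintro _ b ⟨z, rfl⟩
    exact ⟨z, h1 f hf z b⟩
  rcases hn2 (f n) (h2 f hf n) with h | h
  · exact tr (hc2 _) h
  have hQ : c (f n) ∈ Q := by
    refine ⟨hc1 _, fun y hy => ?_⟩
    obtain ⟨y', hy', rfl⟩ := h3 f hf y hy
    rcases hn2 y' hy' with k | k
    · exact Or.inl (hc3 _ _ (hc1 _) (tr (mono (tr (hc2 y') k)) (hc2 _)))
    · exact G.chain _ (hc1 _) _ (hc1 _) (c (f (c y'))) (hc1 _)
        (hc3 _ _ (hc1 _) (tr (mono (hc2 y')) (hc2 _))) (hc3 _ _ (hc1 _) (tr (mono k) (hc2 _)))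
  have hsub : range (fun s : M => s • n) ⊆ range (fun s : M => s • c (f n)) := by
    rintro _ ⟨t, rfl⟩
    obtain ⟨s, hs⟩ := h
    exact ⟨t * s, by simp only [mul_smul, ← hs]⟩
  have heq := eq_of_subset_of_ncard_le hsub (hmax _ hQ)
  obtain ⟨r, hr⟩ : f n ∈ range (fun s : M => s • n) := by
    rw [heq]; obtain ⟨t, ht⟩ := hc2 (f n); exact ⟨t, ht.symm⟩
  exact ⟨r, hr.symm⟩

theorem GP.rigid (G : GP M) (D : Set G.Y) :
    ∃ n, (∃ z : M, G.x = z • n) ∧ ∀ f : G.Y → G.Y, (∀ (m : M) v, f (m • v) = m • f v) →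
      BijOn f D D → ∃ g : G.Y → G.Y, (∀ (m : M) v, g (m • v) = m • g v) ∧ EqOn g f D ∧
        ∃ r : M, g n = r • n := by
  let F : Set (G.Y → G.Y) := {f | (∀ (m : M) v, f (m • v) = m • f v) ∧ BijOn f D D}
  have hF : ∀ f ∈ F, ∀ g ∈ F, f ∘ g ∈ F := fun f hf g hg =>
    ⟨fun m v => by simp [hf.1, hg.1], hf.2.comp hg.2⟩
  have hid : id ∈ F := ⟨fun _ _ => rfl, bijOn_id D⟩
  obtain ⟨g₀, hg₀, hmin⟩ := exists_min_image F (fun f => (range f).ncard) (toFinite _) ⟨_, hid⟩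
  obtain ⟨n, hn, h⟩ := G.common {f | f ∈ F ∧ ∀ y, f y ∈ range g₀} (range g₀)
    (fun f hf => hf.1.1) (fun f hf => hf.2) (fun f hf y hy => by
      have hsub : range (f ∘ g₀) ⊆ range g₀ := by
        rintro _ ⟨t, rfl⟩
        exact hf.2 _
      have heq := eq_of_subset_of_ncard_le hsub (hmin _ (hF f hf.1 g₀ hg₀))
      rw [← heq] at hy
      obtain ⟨t, rfl⟩ := hy
      exact ⟨g₀ t, ⟨t, rfl⟩, rfl⟩)
  refine ⟨n, hn, fun f hf1 hf2 => ?_⟩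
  have hit : ∀ m, g₀^[m] ∈ F := by
    intro m
    induction m with
    | zero => exact hid
    | succ m ih => rw [Function.iterate_succ]; exact hF _ ih _ hg₀
  obtain ⟨m, hm⟩ : ∃ m, ∀ k ∈ D, g₀^[m + 1] k = k := by
    let π : Equiv.Perm D := hg₀.2.equiv g₀
    obtain ⟨m, hm⟩ : ∃ m, orderOf π = m + 1 := ⟨orderOf π - 1, by have := orderOf_pos π; omega⟩
    have hp : ∀ j (k : D), ((π ^ j) k : G.Y) = g₀^[j] k := by
      intro j k
      induction j with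
      | zero => rfl
      | succ j ih => rw [pow_succ', Equiv.Perm.mul_apply, Function.iterate_succ_apply', ← ih]; rfl
    refine ⟨m, fun k hk => ?_⟩
    rw [← hp _ ⟨k, hk⟩, ← hm, pow_orderOf_eq_one]
    rfl
  have hg := hF _ (hit (m + 1)) f ⟨hf1, hf2⟩
  refine ⟨g₀^[m + 1] ∘ f, hg.1, fun k hk => hm _ (hf2.mapsTo hk), h _ ⟨hg, fun y => ?_⟩⟩
  rw [Function.comp, Function.iterate_succ_apply']
  exact ⟨_, rfl⟩

def GP.top (M : Type) [Monoid M] [Finite M] : GP M where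
  Y := M
  x := 1
  N := {1}
  x_mem := rfl
  x_le := by rintro _ rfl; exact ⟨1, by simp⟩
  least := fun y => ⟨1, rfl, ⟨y, by simp⟩, by rintro _ rfl _; exact ⟨1, by simp⟩⟩
  chain := by rintro _ rfl _ rfl _ _ _ _; exact Or.inl ⟨1, by simp⟩

def GP.move (a : M) (G : GP M) : GP M where
  Y := G.Y
  x := a • G.x
  N := insert (a • G.x) G.N
  x_mem := Or.inl rfl
  x_le := by
    rintro n (rfl | hn)
    · exact ⟨1, by simp⟩
    · obtain ⟨z, hz⟩ := G.x_le n hn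
      exact ⟨a * z, by rw [hz, mul_smul]⟩
  least := by
    intro y
    by_cases hy : ∃ z : M, y = z • a • G.x
    · refine ⟨_, Or.inl rfl, hy, ?_⟩
      rintro n (rfl | hn) -
      · exact ⟨1, by simp⟩
      · obtain ⟨z, hz⟩ := G.x_le n hn
        exact ⟨a * z, by rw [hz, mul_smul]⟩
    · obtain ⟨n, h1, h2, h3⟩ := G.least y
      refine ⟨n, Or.inr h1, h2, ?_⟩
      rintro n' (rfl | hn') h
      · exact absurd h hy
      · exact h3 n' hn' h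
  chain := by
    have low : ∀ n ∈ insert (a • G.x) G.N, ∃ z : M, a • G.x = z • n := by
      rintro n (rfl | hn)
      · exact ⟨1, by simp⟩
      · obtain ⟨z, hz⟩ := G.x_le n hn
        exact ⟨a * z, by rw [hz, mul_smul]⟩
    rintro n₁ h₁ n₂ h₂ n h k₁ k₂
    rcases h₁ with rfl | h₁
    · exact Or.inl (low _ h₂)
    rcases h₂ with rfl | h₂
    · exact Or.inr (low _ (Or.inr h₁))
    rcases h with rfl | h
    · obtain ⟨z, hz⟩ := k₁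
      obtain ⟨s, hs⟩ := low _ (Or.inr h₂)
      exact Or.inl ⟨z * s, by rw [mul_smul, ← hs, hz]⟩
    · exact G.chain _ h₁ _ h₂ n h k₁ k₂

section Quo

variable {Y : Type} [MulAction M Y]

def qrel (M : Type) [Monoid M] {Y : Type} [MulAction M Y] (p q : Y) : Setoid Y :=
  Relation.EqvGen.setoid fun y y' => ∃ z : M, y = z • p ∧ y' = z • q

theorem qrel_smul {p q y y' : Y} (z : M) (h : qrel M p q y y') :
    qrel M p q (z • y) (z • y') := by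
  induction h with
  | rel _ _ h =>
    obtain ⟨s, rfl, rfl⟩ := h
    exact Relation.EqvGen.rel _ _ ⟨z * s, (mul_smul _ _ _).symm, (mul_smul _ _ _).symm⟩
  | refl => exact Relation.EqvGen.refl _
  | symm _ _ _ ih => exact Relation.EqvGen.symm _ _ ih
  | trans _ _ _ _ _ ih ih' => exact Relation.EqvGen.trans _ _ _ ih ih'

theorem qrel_cases {p q y y' : Y} {B : Set Y} (hp : ∀ z : M, z • p ∈ B) (hq : ∀ z : M, z • q ∈ B)
    (h : qrel M p q y y') : y = y' ∨ (y ∈ B ∧ y' ∈ B) := by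
  induction h with
  | rel _ _ h => obtain ⟨s, rfl, rfl⟩ := h; exact Or.inr ⟨hp s, hq s⟩
  | refl => exact Or.inl rfl
  | symm _ _ _ ih => exact ih.imp Eq.symm And.symm
  | trans _ _ _ _ _ ih ih' =>
    rcases ih with rfl | h
    · exact ih'
    · rcases ih' with rfl | h'
      · exact Or.inr h
      · exact Or.inr ⟨h.1, h'.2⟩

def QT (M : Type) [Monoid M] {Y : Type} [MulAction M Y] (p q : Y) : Type :=
  Quotient (qrel M p q)

def QT.mk (p q : Y) (y : Y) : QT M p q := Quotient.mk _ y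

instance (p q : Y) : MulAction M (QT M p q) where
  smul z := Quotient.map (z • ·) fun _ _ h => qrel_smul z h
  one_smul := by
    rintro ⟨y⟩
    exact congrArg (QT.mk p q) (one_smul M y)
  mul_smul := by
    rintro a b ⟨y⟩
    exact congrArg (QT.mk p q) (mul_smul a b y)

theorem QT.smul_mk (p q : Y) (z : M) (y : Y) :
    z • (QT.mk p q y : QT M p q) = QT.mk p q (z • y) := rfl

theorem QT.mk_eq {p q y y' : Y} : (QT.mk p q y : QT M p q) = QT.mk p q y' ↔ qrel M p q y y' :=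
  Quotient.eq

theorem QT.hom_iff {Z : Type} [MulAction M Z] (p q b : Y) (c : Z) :
    Hom M (QT.mk p q b : QT M p q) c ↔
      ∃ f : Y → Z, (∀ (m : M) v, f (m • v) = m • f v) ∧ f b = c ∧ f p = f q := by
  constructor
  · rintro ⟨f, h1, h2⟩
    refine ⟨fun y => f (QT.mk p q y), fun m v => by rw [← h1, QT.smul_mk], h2, ?_⟩
    exact congrArg f (QT.mk_eq.2 (Relation.EqvGen.rel _ _ ⟨1, by simp, by simp⟩))
  · rintro ⟨f, h1, h2, h3⟩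
    refine ⟨Quotient.lift f fun y y' h => ?_, ?_, h2⟩
    · induction h with
      | rel _ _ h => obtain ⟨s, rfl, rfl⟩ := h; rw [h1, h1, h3]
      | refl => rfl
      | symm _ _ _ ih => exact ih.symm
      | trans _ _ _ _ _ ih ih' => exact ih.trans ih'
    · rintro m ⟨v⟩; exact h1 m v

def GP.quo [Finite Y] (p q b : Y) (B N : Set Y) (hp : ∀ z : M, z • p ∈ B)
    (hq : ∀ z : M, z • q ∈ B) (hb : b ∈ N) (h1 : ∀ y ∈ B, ∃ z : M, qrel M p q y (z • b))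
    (h2 : ∀ n ∈ N, ∃ z : M, qrel M p q b (z • n))
    (h3 : ∀ y, ∃ n ∈ N, (∃ z : M, y = z • n) ∧
      ∀ n' ∈ N, (∃ z : M, y = z • n') → ∃ z : M, n = z • n')
    (h4 : ∀ n₁ ∈ N, ∀ n₂ ∈ N, ∀ n ∈ N, (∃ z : M, n₁ = z • n) → (∃ z : M, n₂ = z • n) →
      (∃ z : M, n₁ = z • n₂) ∨ ∃ z : M, n₂ = z • n₁) : GP M where
  Y := QT M p q
  fin := inferInstanceAs (Finite (Quotient _))
  x := QT.mk p q b
  N := QT.mk p q '' N
  x_mem := ⟨b, hb, rfl⟩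
  x_le := by
    rintro _ ⟨n, hn, rfl⟩
    obtain ⟨z, hz⟩ := h2 n hn
    exact ⟨z, QT.mk_eq.2 hz⟩
  least := by
    rintro ⟨y⟩
    change ∃ n ∈ _, (∃ z : M, QT.mk p q y = z • n) ∧
      ∀ n' ∈ _, (∃ z : M, QT.mk p q y = z • n') → ∃ z : M, n = z • n'
    by_cases hy : y ∈ B
    · obtain ⟨z, hz⟩ := h1 y hy
      refine ⟨_, ⟨b, hb, rfl⟩, ⟨z, QT.mk_eq.2 hz⟩, ?_⟩
      rintro _ ⟨n, hn, rfl⟩ -
      obtain ⟨z, hz⟩ := h2 n hn
      exact ⟨z, QT.mk_eq.2 hz⟩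
    · obtain ⟨n, hn, ⟨z, hz⟩, h4⟩ := h3 y
      refine ⟨_, ⟨n, hn, rfl⟩, ⟨z, by rw [hz]; rfl⟩, ?_⟩
      rintro _ ⟨n', hn', rfl⟩ ⟨s, hs⟩
      rcases qrel_cases hp hq (QT.mk_eq.1 hs) with h5 | h5
      · obtain ⟨t, ht⟩ := h4 n' hn' ⟨s, h5⟩
        exact ⟨t, by rw [ht]; rfl⟩
      · exact absurd h5.1 hy
  chain := by
    have low : ∀ y ∈ B, ∀ n ∈ N, ∃ z : M, (QT.mk p q y : QT M p q) = z • QT.mk p q n := by
      intro y hy n hn
      obtain ⟨z, hz⟩ := h1 y hy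
      obtain ⟨s, hs⟩ := h2 n hn
      refine ⟨z * s, ?_⟩
      rw [QT.mk_eq.2 hz, ← QT.smul_mk, QT.mk_eq.2 hs, ← QT.smul_mk, mul_smul]
    rintro _ ⟨n₁, h₁, rfl⟩ _ ⟨n₂, h₂, rfl⟩ _ ⟨n, h, rfl⟩ ⟨z₁, k₁⟩ ⟨z₂, k₂⟩
    rcases qrel_cases hp hq (QT.mk_eq.1 k₁) with e₁ | e₁
    · rcases qrel_cases hp hq (QT.mk_eq.1 k₂) with e₂ | e₂
      · rcases h4 _ h₁ _ h₂ n h ⟨z₁, e₁⟩ ⟨z₂, e₂⟩ with ⟨t, ht⟩ | ⟨t, ht⟩
        · exact Or.inl ⟨t, by rw [ht]; rfl⟩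
        · exact Or.inr ⟨t, by rw [ht]; rfl⟩
      · exact Or.inr (low _ e₂.1 _ h₁)
    · exact Or.inl (low _ e₁.1 _ h₂)

end Quo

def GP.eqz (r r' : M) (G : GP M) : GP M :=
  GP.quo (r • G.x) (r' • G.x) G.x (range fun z : M => z • G.x) G.N
    (fun z => ⟨z * r, mul_smul _ _ _⟩) (fun z => ⟨z * r', mul_smul _ _ _⟩) G.x_mem
    (by rintro _ ⟨z, rfl⟩; exact ⟨z, Relation.EqvGen.refl _⟩)
    (fun n hn => by obtain ⟨z, hz⟩ := G.x_le n hn; exact ⟨z, by rw [← hz]⟩) G.least G.chain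

def GP.meet (G G' : GP M) : GP M :=
  GP.quo (Y := G.Y ⊕ G'.Y) (Sum.inl G.x) (Sum.inr G'.x) (Sum.inl G.x)
    ((range fun z : M => Sum.inl (z • G.x)) ∪ range fun z : M => Sum.inr (z • G'.x))
    (Sum.inl '' G.N ∪ Sum.inr '' G'.N)
    (fun z => Or.inl ⟨z, rfl⟩) (fun z => Or.inr ⟨z, rfl⟩) (Or.inl ⟨_, G.x_mem, rfl⟩)
    (by
      rintro _ (⟨z, rfl⟩ | ⟨z, rfl⟩)
      · exact ⟨z, Relation.EqvGen.refl _⟩
      · exact ⟨z, Relation.EqvGen.symm _ _ (Relation.EqvGen.rel _ _ ⟨z, rfl, rfl⟩)⟩)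
    (by
      rintro _ (⟨n, hn, rfl⟩ | ⟨n, hn, rfl⟩)
      · obtain ⟨z, hz⟩ := G.x_le n hn
        exact ⟨z, by rw [hz]; exact Relation.EqvGen.refl _⟩
      · obtain ⟨z, hz⟩ := G'.x_le n hn
        exact ⟨z, Relation.EqvGen.rel _ _ ⟨1, by simp, by rw [hz]; simp⟩⟩)
    (by
      rintro (y | y)
      · obtain ⟨n, hn, ⟨z, hz⟩, h⟩ := G.least y
        refine ⟨_, Or.inl ⟨n, hn, rfl⟩, ⟨z, by rw [hz]; rfl⟩, ?_⟩
        rintro _ (⟨n', hn', rfl⟩ | ⟨n', hn', rfl⟩) ⟨s, hs⟩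
        · obtain ⟨t, ht⟩ := h n' hn' ⟨s, Sum.inl.inj hs⟩
          exact ⟨t, by rw [ht]; rfl⟩
        · cases hs
      · obtain ⟨n, hn, ⟨z, hz⟩, h⟩ := G'.least y
        refine ⟨_, Or.inr ⟨n, hn, rfl⟩, ⟨z, by rw [hz]; rfl⟩, ?_⟩
        rintro _ (⟨n', hn', rfl⟩ | ⟨n', hn', rfl⟩) ⟨s, hs⟩
        · cases hs
        · obtain ⟨t, ht⟩ := h n' hn' ⟨s, Sum.inr.inj hs⟩
          exact ⟨t, by rw [ht]; rfl⟩)
    (by
      rintro _ (⟨n₁, h₁, rfl⟩ | ⟨n₁, h₁, rfl⟩) _ (⟨n₂, h₂, rfl⟩ | ⟨n₂, h₂, rfl⟩)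
        _ (⟨n, h, rfl⟩ | ⟨n, h, rfl⟩) ⟨z₁, k₁⟩ ⟨z₂, k₂⟩
      · rcases G.chain _ h₁ _ h₂ n h ⟨z₁, Sum.inl.inj k₁⟩ ⟨z₂, Sum.inl.inj k₂⟩ with
          ⟨t, ht⟩ | ⟨t, ht⟩
        · exact Or.inl ⟨t, by rw [ht]; rfl⟩
        · exact Or.inr ⟨t, by rw [ht]; rfl⟩
      · cases k₁
      · cases k₂
      · cases k₁
      · cases k₁
      · cases k₂
      · cases k₁
      · rcases G'.chain _ h₁ _ h₂ n h ⟨z₁, Sum.inr.inj k₁⟩ ⟨z₂, Sum.inr.inj k₂⟩ with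
          ⟨t, ht⟩ | ⟨t, ht⟩
        · exact Or.inl ⟨t, by rw [ht]; rfl⟩
        · exact Or.inr ⟨t, by rw [ht]; rfl⟩)

section HomLemmas

variable {Z : Type} [MulAction M Z]

theorem hom_top [Finite M] (c : Z) : Hom M (GP.top M).x c :=
  ⟨fun m : M => m • c, fun m v => mul_smul m v c, one_smul M c⟩

theorem hom_smul {Y : Type} [MulAction M Y] (a : M) (y : Y) (c : Z) :
    Hom M (a • y) c ↔ ∃ c₀, Hom M y c₀ ∧ c = a • c₀ := by
  constructor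
  · rintro ⟨f, h1, h2⟩
    exact ⟨f y, ⟨f, h1, rfl⟩, by rw [← h2, h1]⟩
  · rintro ⟨c₀, ⟨f, h1, rfl⟩, rfl⟩
    exact ⟨f, h1, h1 _ _⟩

theorem hom_eqz (r r' : M) (G : GP M) (c : Z) :
    Hom M (G.eqz r r').x c ↔ Hom M G.x c ∧ r • c = r' • c := by
  refine (QT.hom_iff (r • G.x) (r' • G.x) G.x c).trans ⟨?_, ?_⟩
  · rintro ⟨f, h1, rfl, h3⟩
    exact ⟨⟨f, h1, rfl⟩, by rw [← h1, ← h1, h3]⟩
  · rintro ⟨⟨f, h1, rfl⟩, h3⟩
    exact ⟨f, h1, rfl, by rw [h1, h1, h3]⟩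

theorem hom_meet (G G' : GP M) (c : Z) :
    Hom M (G.meet G').x c ↔ Hom M G.x c ∧ Hom M G'.x c := by
  refine (QT.hom_iff (Y := G.Y ⊕ G'.Y) (Sum.inl G.x) (Sum.inr G'.x) (Sum.inl G.x) c).trans
    ⟨?_, ?_⟩
  · rintro ⟨f, h1, h2, h3⟩
    exact ⟨⟨fun y => f (Sum.inl y), fun m v => h1 m (Sum.inl v), h2⟩,
      ⟨fun y => f (Sum.inr y), fun m v => h1 m (Sum.inr v), h3.symm.trans h2⟩⟩
  · rintro ⟨⟨f, h1, h2⟩, ⟨g, h3, h4⟩⟩
    refine ⟨Sum.elim f g, ?_, h2, h2.trans h4.symm⟩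
    rintro m (v | v)
    · exact h1 m v
    · exact h3 m v

end HomLemmas

inductive Tm (M : Type) : Type
  | top : Tm M
  | move : M → Tm M → Tm M
  | meet : Tm M → Tm M → Tm M
  | eqz : M → M → Tm M → Tm M

noncomputable def Tm.G [Finite M] : Tm M → GP M
  | .top => GP.top M
  | .move a t => t.G.move a
  | .meet t t' => t.G.meet t'.G
  | .eqz r r' t => t.G.eqz r r'

def Tm.sem [Finite M] (t : Tm M) : Set (Σ s : Tm M, s.G.Y) := {p | Hom M t.G.x p.2}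

theorem Tm.sem_gen [Finite M] (t : Tm M) : Gen M t.sem := by
  induction t with
  | top =>
    have : (Tm.top : Tm M).sem = univ := eq_univ_of_forall fun p => hom_top p.2
    rw [this]; exact Gen.univ
  | move a t ih =>
    have : (Tm.move a t).sem = {z | ∃ y ∈ t.sem, z = a • y} := by
      ext ⟨s, y⟩
      refine (hom_smul a t.G.x y).trans ⟨?_, ?_⟩
      · rintro ⟨c₀, h, rfl⟩; exact ⟨⟨s, c₀⟩, h, rfl⟩
      · rintro ⟨⟨s', c₀⟩, h, h2⟩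
        cases h2
        exact ⟨c₀, h, rfl⟩
    rw [this]; exact ih.smul a
  | meet t t' ih ih' =>
    have : (Tm.meet t t').sem = t.sem ∩ t'.sem := by
      ext ⟨s, y⟩; exact hom_meet t.G t'.G y
    rw [this]; exact ih.inter ih'
  | eqz r r' t ih =>
    have : (Tm.eqz r r' t).sem = t.sem ∩ {z | r • z = r' • z} := by
      ext ⟨s, y⟩
      refine (hom_eqz r r' t.G y).trans (and_congr Iff.rfl ?_)
      simp [Sigma.smul_mk]
    rw [this]; exact ih.eq r r'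

theorem exists_LS (M : Type) [Monoid M] [Finite M] :
    ∃ (X : Type) (_ : MulAction M X), Finite X ∧ ∃ S : LS M X, S.Rig := by
  classical
  let ι := range (Tm.sem (M := M))
  have : Finite ι := (gen_finite.subset (by rintro _ ⟨t, rfl⟩; exact t.sem_gen) :
    (range (Tm.sem (M := M))).Finite)
  let τ : ι → Tm M := fun i => i.2.choose
  have hτ : ∀ i, (τ i).sem = i.1 := fun i => i.2.choose_spec
  let idx : Tm M → ι := fun t => ⟨t.sem, t, rfl⟩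
  have hidx : ∀ (t s : Tm M) (y : (Tm.G s).Y), Hom M (τ (idx t)).G.x y ↔ Hom M t.G.x y := by
    intro t s y
    have := hτ (idx t)
    exact Set.ext_iff.1 this ⟨s, y⟩
  let X := Σ i : ι, (τ i).G.Y
  let E : Set (X → X) := {θ | ∀ k, ∃ j, ∃ f : (τ k).G.Y → (τ j).G.Y,
    (∀ (m : M) v, f (m • v) = m • f v) ∧ ∀ y, θ ⟨k, y⟩ = ⟨j, f y⟩}
  have hle : ∀ (i j : ι) (y : (τ i).G.Y) (y' : (τ j).G.Y),
      (∃ f ∈ E, f ⟨i, y⟩ = ⟨j, y'⟩) ↔ Hom M y y' := by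
    intro i j y y'
    constructor
    · rintro ⟨θ, hθ, h⟩
      obtain ⟨j', f, h1, h2⟩ := hθ i
      rw [h2] at h
      cases h
      exact ⟨f, h1, rfl⟩
    · rintro ⟨f, h1, h2⟩
      refine ⟨fun p => if h : p.1 = i then ⟨j, f (h ▸ p.2)⟩ else p, fun k => ?_, ?_⟩
      · by_cases hk : k = i
        · subst hk
          exact ⟨j, f, h1, fun y => by simp⟩
        · exact ⟨k, id, fun _ _ => rfl, fun y => by simp [hk]⟩
      · simp [h2]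
  refine ⟨X, inferInstance, inferInstance, {
    E := E
    id_mem := fun k => ⟨k, id, fun _ _ => rfl, fun _ => rfl⟩
    comp_mem := ?_
    equiv := ?_
    Pt := {p | ∃ (i : ι) (z : M), p = ⟨i, z • (τ i).G.x⟩}
    P_smul := ?_
    top := ⟨idx .top, (τ _).G.x⟩
    top_mem := ⟨_, 1, by rw [one_smul]⟩
    le_top := ?_
    faith := ?_
    meet := ?_
    eqz := ?_ }, ?_⟩
  · intro f g hf hg k
    obtain ⟨j, g', h1, h2⟩ := hg k
    obtain ⟨l, f', h3, h4⟩ := hf j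
    exact ⟨l, f' ∘ g', fun m v => by simp [h1, h3], fun y => by simp [h2, h4]⟩
  · rintro f hf z ⟨k, y⟩
    obtain ⟨j, g', h1, h2⟩ := hf k
    rw [Sigma.smul_mk, h2, h2, h1, Sigma.smul_mk]
  · rintro _ ⟨k, s, rfl⟩ z
    exact ⟨k, z * s, by rw [mul_smul]; rfl⟩
  · rintro ⟨k, y⟩ -
    exact (hle _ _ _ _).2 ((hidx _ _ _).2 (hom_top y))
  · intro a b h
    rw [Sigma.smul_mk, Sigma.smul_mk] at h
    obtain ⟨θ, h1, h2⟩ := (hle _ _ _ _).1 h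
    obtain ⟨f, h3, h4⟩ := (hidx .top .top (1 : M)).2 (hom_top _)
    refine ⟨f (θ (τ (idx .top)).G.x), ?_⟩
    have := congrArg f h2
    rw [h1, h3, h3, h4] at this
    exact (mul_one a).symm.trans this.symm
  · rintro _ ⟨i, s, rfl⟩ _ ⟨i', s', rfl⟩
    refine ⟨⟨idx (.meet (.move s (τ i)) (.move s' (τ i'))), (τ _).G.x⟩,
      ⟨_, 1, by rw [one_smul]⟩, ?_⟩
    rintro ⟨j, c⟩
    rw [hle, hle, hle, hidx]
    exact hom_meet _ _ c
  · rintro _ ⟨i, s, rfl⟩ z z'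
    refine ⟨⟨idx (.eqz z z' (.move s (τ i))), (τ _).G.x⟩, ⟨_, 1, by rw [one_smul]⟩, ?_⟩
    rintro ⟨j, c⟩
    rw [hle, hle, hidx]
    refine (hom_eqz z z' _ c).trans (and_congr Iff.rfl ?_)
    simp [X, Sigma.smul_mk]
  · rintro _ ⟨i, s, rfl⟩ D hD
    obtain ⟨n, ⟨t, ht⟩, h⟩ := (τ i).G.rigid {y | (⟨i, y⟩ : X) ∈ D}
    refine ⟨⟨i, n⟩, ⟨s * t, by rw [Sigma.smul_mk, mul_smul, ← ht]⟩, fun θ hθ hb => ?_⟩
    rcases D.eq_empty_or_nonempty with rfl | ⟨k, hk⟩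
    · exact ⟨id, fun k => ⟨k, id, fun _ _ => rfl, fun _ => rfl⟩, eqOn_empty _ _, 1, by simp⟩
    obtain ⟨j, f, h1, h2⟩ := hθ i
    have hD' : ∀ k ∈ D, ∃ y, k = ⟨i, y⟩ := fun k hk => by
      obtain ⟨z, rfl⟩ := hD k hk
      exact ⟨_, rfl⟩
    obtain rfl : j = i := by
      obtain ⟨y, rfl⟩ := hD' k hk
      obtain ⟨y', hy'⟩ := hD' _ (hb.mapsTo hk)
      rw [h2] at hy'
      exact congrArg Sigma.fst hy'
    obtain ⟨g, k1, k2, r, k3⟩ := h f h1 ⟨fun y hy => by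
      have := hb.mapsTo hy
      rwa [h2] at this, fun y hy y' hy' e => by
      have := hb.injOn hy hy' (by rw [h2, h2, e])
      exact eq_of_heq (Sigma.mk.inj this).2, fun y hy => by
      obtain ⟨k', hk', e⟩ := hb.surjOn hy
      obtain ⟨y', rfl⟩ := hD' k' hk'
      rw [h2] at e
      exact ⟨y', hk', eq_of_heq (Sigma.mk.inj e).2⟩⟩
    refine ⟨fun p => if h : p.1 = j then ⟨j, g (h ▸ p.2)⟩ else p, fun k => ?_, fun k hk => ?_,
      r, ?_⟩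
    · by_cases hk : k = j
      · subst hk
        exact ⟨k, g, k1, fun y => by simp⟩
      · exact ⟨k, id, fun _ _ => rfl, fun y => by simp [hk]⟩
    · obtain ⟨y, rfl⟩ := hD' k hk
      rw [h2, ← k2 hk]
      simp
    · simp [k3, X, Sigma.smul_mk]

end Pool.Agent.P.MP_9ca27c_lc.Ex
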