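import Mathlib
import Pool.Agent.P.MP_9ca27c_lc.ExLabel

/-! Algebra of admissible relations in a label system. -/

namespace Pool.Agent.P.MP_9ca27c_lc.Ex

open Set

abbrev Rl (X : Type) := X → X → Prop

variable {M : Type} [Monoid M] {X : Type} [MulAction M X]

def dom (ν : Rl X) : Set X := {k | ∃ k', ν k k'}
def ran (ν : Rl X) : Set X := {k' | ∃ k, ν k k'}
def cp (ν μ : Rl X) : Rl X := fun k k'' => ∃ k', ν k k' ∧ μ k' k''
def idr (L : Set X) : Rl X := fun k k' => k ∈ L ∧ k' = k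
def img (μ : Rl X) (L : Set X) : Set X := {k' | ∃ k ∈ L, μ k k'}
def pre (σ : Rl X) (D : Set X) : Set X := {k | ∃ k' ∈ D, σ k k'}
def Tr (M : Type) [Monoid M] {X : Type} [MulAction M X] (v v' : X) : Rl X :=
  fun k k' => ∃ z : M, k = z • v ∧ k' = z • v'
def orb (M : Type) [Monoid M] {X : Type} [MulAction M X] (v : X) : Set X :=
  {k | ∃ z : M, k = z • v}
def Cl (M : Type) [Monoid M] {X : Type} [MulAction M X] (L : Set X) : Prop :=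
  ∀ (z : M) k, k ∈ L → z • k ∈ L
def ClR (M : Type) [Monoid M] {X : Type} [MulAction M X] (ν : Rl X) : Prop :=
  ∀ (z : M) k k', ν k k' → ν (z • k) (z • k')

theorem rl_ext {ν μ : Rl X} (h : ∀ a b, ν a b ↔ μ a b) : ν = μ :=
  funext fun a => funext fun b => propext (h a b)

theorem cp_assoc (ν μ ρ : Rl X) : cp (cp ν μ) ρ = cp ν (cp μ ρ) := by
  refine rl_ext fun a b => ?_
  simp only [cp]; grind

theorem ran_cp (ν μ : Rl X) : ran (cp ν μ) = img μ (ran ν) := by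
  ext a; simp only [cp, ran, img, mem_ofPred_eq]; grind

theorem dom_cp (ν μ : Rl X) : dom (cp ν μ) = pre ν (dom μ) := by
  ext a; simp only [cp, dom, pre, mem_ofPred_eq]; grind

theorem ran_idr (L : Set X) : ran (idr L) = L := by
  ext a; simp only [idr, ran, mem_ofPred_eq]; grind

theorem dom_idr (L : Set X) : dom (idr L) = L := by
  ext a; simp only [idr, dom, mem_ofPred_eq]; grind

theorem pre_idr (L D : Set X) : pre (idr L) D = D ∩ L := by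
  ext a; simp only [idr, pre, mem_ofPred_eq, mem_inter_iff]; grind

theorem img_idr (L D : Set X) : img (idr L) D = D ∩ L := by
  ext a; simp only [idr, img, mem_ofPred_eq, mem_inter_iff]; grind

theorem img_cp (ν μ : Rl X) (L : Set X) : img (cp ν μ) L = img μ (img ν L) := by
  ext a; simp only [cp, img, mem_ofPred_eq]; grind

theorem pre_cp (ν μ : Rl X) (L : Set X) : pre (cp ν μ) L = pre ν (pre μ L) := by
  ext a; simp only [cp, pre, mem_ofPred_eq]; grind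

theorem img_subset_ran (μ : Rl X) (L : Set X) : img μ L ⊆ ran μ :=
  fun _ ⟨k, _, h⟩ => ⟨k, h⟩

theorem pre_subset_dom (μ : Rl X) (L : Set X) : pre μ L ⊆ dom μ :=
  fun _ ⟨k, _, h⟩ => ⟨k, h⟩

theorem img_mono (μ : Rl X) {L L' : Set X} (h : L ⊆ L') : img μ L ⊆ img μ L' :=
  fun _ ⟨k, h1, h2⟩ => ⟨k, h h1, h2⟩

theorem pre_mono (μ : Rl X) {L L' : Set X} (h : L ⊆ L') : pre μ L ⊆ pre μ L' :=
  fun _ ⟨k, h1, h2⟩ => ⟨k, h h1, h2⟩

theorem img_of_dom {μ : Rl X} {L : Set X} (h : dom μ ⊆ L) : img μ L = ran μ :=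
  (img_subset_ran μ L).antisymm fun _ ⟨k, hk⟩ => ⟨k, h ⟨_, hk⟩, hk⟩

theorem pre_of_ran {μ : Rl X} {L : Set X} (h : ran μ ⊆ L) : pre μ L = dom μ :=
  (pre_subset_dom μ L).antisymm fun _ ⟨k, hk⟩ => ⟨k, h ⟨_, hk⟩, hk⟩

theorem cp_idr {ν : Rl X} {L : Set X} (h : ran ν ⊆ L) : cp ν (idr L) = ν :=
  rl_ext fun a b => ⟨by rintro ⟨k, h1, -, rfl⟩; exact h1, fun h1 => ⟨b, h1, h ⟨a, h1⟩, rfl⟩⟩

theorem idr_cp {ν : Rl X} {L : Set X} (h : dom ν ⊆ L) : cp (idr L) ν = ν :=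
  rl_ext fun a b => ⟨by rintro ⟨k, ⟨-, rfl⟩, h1⟩; exact h1, fun h1 => ⟨a, ⟨h ⟨b, h1⟩, rfl⟩, h1⟩⟩

theorem pre_inter {σ : Rl X} {L : Set X} (h : ran σ ⊆ L) (D : Set X) :
    pre σ (D ∩ L) = pre σ D :=
  (pre_mono σ inter_subset_left).antisymm fun _ ⟨k, h1, h2⟩ => ⟨k, ⟨h1, h ⟨_, h2⟩⟩, h2⟩

theorem mem_orb (v : X) : v ∈ orb M v := ⟨1, (one_smul _ _).symm⟩

theorem Tr_self (v v' : X) : Tr M v v' v v' := ⟨1, (one_smul _ _).symm, (one_smul _ _).symm⟩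

theorem dom_Tr (v v' : X) : dom (Tr M v v') = orb M v := by
  ext a; simp only [Tr, dom, orb, mem_ofPred_eq]; grind

theorem ran_Tr (v v' : X) : ran (Tr M v v') = orb M v' := by
  ext a; simp only [Tr, ran, orb, mem_ofPred_eq]; grind

theorem Tr_same (w : X) : Tr M w w = idr (orb M w) := by
  refine rl_ext fun a b => ?_
  simp only [Tr, idr, orb, mem_ofPred_eq]; grind

theorem cp_Tr_same {ν : Rl X} {w : X} (h : ran ν ⊆ orb M w) : cp ν (Tr M w w) = ν := by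
  rw [Tr_same, cp_idr h]

theorem img_Tr_same {L : Set X} {w : X} (h : L ⊆ orb M w) : img (Tr M w w) L = L := by
  rw [Tr_same, img_idr, inter_eq_left.2 h]

theorem dom_cp_Tr {ν : Rl X} {w : X} (h : ran ν ⊆ orb M w) (w' : X) :
    dom (cp ν (Tr M w w')) = dom ν := by
  rw [dom_cp, dom_Tr, pre_of_ran h]

theorem img_Tr_subset (w w' : X) (L : Set X) : img (Tr M w w') L ⊆ orb M w' :=
  (img_subset_ran _ _).trans (ran_Tr w w').subset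

theorem img_Tr_orb (w w' : X) : img (Tr M w w') (orb M w) = orb M w' := by
  rw [img_of_dom (dom_Tr w w').subset, ran_Tr]

theorem Cl_orb (v : X) : Cl M (orb M v) := by
  rintro z _ ⟨s, rfl⟩; exact ⟨z * s, (mul_smul _ _ _).symm⟩

theorem Cl.orb_subset {L : Set X} (h : Cl M L) {v : X} (hv : v ∈ L) : orb M v ⊆ L := by
  rintro _ ⟨s, rfl⟩; exact h s v hv

theorem Cl.inter {L L' : Set X} (h : Cl M L) (h' : Cl M L') : Cl M (L ∩ L') :=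
  fun z k hk => ⟨h z k hk.1, h' z k hk.2⟩

theorem ClR.cl_ran {ν : Rl X} (h : ClR M ν) : Cl M (ran ν) :=
  fun z _ ⟨k, hk⟩ => ⟨_, h z k _ hk⟩

theorem ClR.cl_dom {ν : Rl X} (h : ClR M ν) : Cl M (dom ν) :=
  fun z _ ⟨k, hk⟩ => ⟨_, h z _ k hk⟩

theorem ClR.cl_img {ν : Rl X} (h : ClR M ν) {L : Set X} (hL : Cl M L) : Cl M (img ν L) :=
  fun z _ ⟨k, h1, hk⟩ => ⟨_, hL z k h1, h z k _ hk⟩

theorem ClR.cl_pre {ν : Rl X} (h : ClR M ν) {L : Set X} (hL : Cl M L) : Cl M (pre ν L) :=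
  fun z _ ⟨k, h1, hk⟩ => ⟨_, hL z k h1, h z _ k hk⟩

theorem ClR.comp {ν μ : Rl X} (h : ClR M ν) (h' : ClR M μ) : ClR M (cp ν μ) :=
  fun z _ _ ⟨k, h1, h2⟩ => ⟨_, h z _ k h1, h' z k _ h2⟩

theorem ClR.fl {ν : Rl X} (h : ClR M ν) : ClR M (flip ν) := fun z _ _ h1 => h z _ _ h1

theorem Cl.clr_idr {L : Set X} (h : Cl M L) : ClR M (idr L) := by
  rintro z k _ ⟨h1, rfl⟩; exact ⟨h z _ h1, rfl⟩

theorem ClR_Tr (v v' : X) : ClR M (Tr M v v') := by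
  rintro z _ _ ⟨s, rfl, rfl⟩
  exact ⟨z * s, (mul_smul _ _ _).symm, (mul_smul _ _ _).symm⟩

namespace LS

variable (S : LS M X)

def le (v' v : X) : Prop := ∃ f ∈ S.E, f v = v'
def Adm (ν : Rl X) : Prop := ∃ f ∈ S.E, ∀ k k', ν k k' → f k = k'
def NS (ν : Rl X) : Prop := ∃ f ∈ S.E, ∀ k k', ν k k' → f k' = k

noncomputable def rep (v : X) : X :=
  @Classical.epsilon X ⟨S.top⟩ fun u => u ∈ S.Pt ∧ S.le u v ∧ S.le v u

def Lam (v : X) : Prop := v ∈ S.Pt ∧ S.rep v = v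

noncomputable def app (μ : Rl X) (u : X) : X := @Classical.epsilon X ⟨S.top⟩ fun u' => μ u u'

variable {S}

theorem le_rfl (v : X) : S.le v v := ⟨id, S.id_mem, rfl⟩

theorem le_trans {a b c : X} : S.le a b → S.le b c → S.le a c := by
  rintro ⟨f, hf, rfl⟩ ⟨g, hg, rfl⟩; exact ⟨f ∘ g, S.comp_mem hf hg, rfl⟩

theorem le.smul {a b : X} (h : S.le a b) (z : M) : S.le (z • a) (z • b) := by
  obtain ⟨f, hf, rfl⟩ := h; exact ⟨f, hf, S.equiv hf z b⟩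

theorem le.eq {a b : X} (h : S.le a b) {z z' : M} (e : z • b = z' • b) : z • a = z' • a := by
  obtain ⟨f, hf, rfl⟩ := h
  rw [← S.equiv hf, ← S.equiv hf, e]

theorem rep_spec {v : X} (hv : v ∈ S.Pt) :
    S.rep v ∈ S.Pt ∧ S.le (S.rep v) v ∧ S.le v (S.rep v) :=
  @Classical.epsilon_spec X (fun u => u ∈ S.Pt ∧ S.le u v ∧ S.le v u)
    ⟨v, hv, le_rfl v, le_rfl v⟩

theorem rep_congr {v v' : X} (h : S.le v v') (h' : S.le v' v) : S.rep v = S.rep v' := by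
  unfold rep
  congr 1
  funext u
  exact propext (and_congr Iff.rfl ⟨fun k => ⟨le_trans k.1 h, le_trans h' k.2⟩,
    fun k => ⟨le_trans k.1 h', le_trans h k.2⟩⟩)

theorem rep_lam {v : X} (hv : v ∈ S.Pt) : S.Lam (S.rep v) :=
  ⟨(rep_spec hv).1, rep_congr (rep_spec hv).2.1 (rep_spec hv).2.2⟩

theorem Lam.eq {v v' : X} (hv : S.Lam v) (hv' : S.Lam v') (h : S.le v v') (h' : S.le v' v) :
    v = v' := by rw [← hv.2, ← hv'.2, rep_congr h h']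

theorem Adm.fn {ν : Rl X} (h : S.Adm ν) {k a b : X} (h1 : ν k a) (h2 : ν k b) : a = b := by
  obtain ⟨f, -, hf⟩ := h; rw [← hf k a h1, hf k b h2]

theorem NS.inj {ν : Rl X} (h : S.NS ν) {k a b : X} (h1 : ν a k) (h2 : ν b k) : a = b := by
  obtain ⟨f, -, hf⟩ := h; rw [← hf a k h1, hf b k h2]

theorem Adm.le_of {ν : Rl X} (h : S.Adm ν) {k a : X} (h1 : ν k a) : S.le a k := by
  obtain ⟨f, hf, hf'⟩ := h; exact ⟨f, hf, hf' k a h1⟩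

theorem NS.le_of {ν : Rl X} (h : S.NS ν) {k a : X} (h1 : ν k a) : S.le k a := by
  obtain ⟨f, hf, hf'⟩ := h; exact ⟨f, hf, hf' k a h1⟩

theorem Adm.app_eq {ν : Rl X} (h : S.Adm ν) {k a : X} (h1 : ν k a) : S.app ν k = a :=
  h.fn (@Classical.epsilon_spec X (fun u' => ν k u') ⟨a, h1⟩) h1

theorem app_spec {ν : Rl X} {k : X} (h1 : k ∈ dom ν) : ν k (S.app ν k) :=
  @Classical.epsilon_spec X (fun u' => ν k u') h1

theorem Adm.comp {ν μ : Rl X} (h : S.Adm ν) (h' : S.Adm μ) : S.Adm (cp ν μ) := by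
  obtain ⟨f, hf, h1⟩ := h
  obtain ⟨g, hg, h2⟩ := h'
  refine ⟨g ∘ f, S.comp_mem hg hf, ?_⟩
  rintro k k'' ⟨k', h3, h4⟩
  rw [Function.comp, h1 _ _ h3, h2 _ _ h4]

theorem NS.comp {ν μ : Rl X} (h : S.NS ν) (h' : S.NS μ) : S.NS (cp ν μ) := by
  obtain ⟨f, hf, h1⟩ := h
  obtain ⟨g, hg, h2⟩ := h'
  refine ⟨f ∘ g, S.comp_mem hf hg, ?_⟩
  rintro k k'' ⟨k', h3, h4⟩
  rw [Function.comp, h2 _ _ h4, h1 _ _ h3]

theorem Adm_idr (L : Set X) : S.Adm (idr L) := ⟨id, S.id_mem, fun _ _ h => h.2.symm⟩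

theorem NS_idr (L : Set X) : S.NS (idr L) := ⟨id, S.id_mem, fun _ _ h => h.2⟩

theorem Adm_Tr {w w' : X} (h : S.le w' w) : S.Adm (Tr M w w') := by
  obtain ⟨f, hf, rfl⟩ := h
  exact ⟨f, hf, by rintro _ _ ⟨z, rfl, rfl⟩; exact S.equiv hf z w⟩

theorem NS_Tr {w w' : X} (h : S.le w w') : S.NS (Tr M w w') := by
  obtain ⟨f, hf, rfl⟩ := h
  exact ⟨f, hf, by rintro _ _ ⟨z, rfl, rfl⟩; exact S.equiv hf z w'⟩

theorem Tr_Tr (a : X) {b c : X} (h : S.le c b) : cp (Tr M a b) (Tr M b c) = Tr M a c := by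
  refine rl_ext fun k k'' => ⟨?_, ?_⟩
  · rintro ⟨_, ⟨z, rfl, rfl⟩, z', h1, rfl⟩
    exact ⟨z, rfl, (h.eq h1).symm⟩
  · rintro ⟨z, rfl, rfl⟩
    exact ⟨_, ⟨z, rfl, rfl⟩, z, rfl, rfl⟩

theorem NS.of_cp_left {ν μ : Rl X} (h : S.NS (cp ν μ)) (h1 : ran ν ⊆ dom μ) (h2 : S.Adm μ) :
    S.NS ν := by
  obtain ⟨f, hf, h3⟩ := h
  obtain ⟨g, hg, h4⟩ := h2
  refine ⟨f ∘ g, S.comp_mem hf hg, fun k k' hk => ?_⟩
  obtain ⟨k'', h5⟩ := h1 ⟨k, hk⟩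
  rw [Function.comp, h4 _ _ h5, h3 _ _ ⟨k', hk, h5⟩]

theorem NS.of_cp_right {σ μ : Rl X} (h : S.NS (cp σ μ)) (h1 : dom μ ⊆ ran σ) (h2 : S.Adm σ) :
    S.NS μ := by
  obtain ⟨f, hf, h3⟩ := h
  obtain ⟨g, hg, h4⟩ := h2
  refine ⟨g ∘ f, S.comp_mem hg hf, fun k k' hk => ?_⟩
  obtain ⟨k₀, h5⟩ := h1 ⟨k', hk⟩
  rw [Function.comp, h3 _ _ ⟨k, h5, hk⟩, h4 _ _ h5]

theorem cp_eq_cp_Tr {ν μ : Rl X} {g w' : X} (h : ∀ a b, μ a b → Tr M g w' a b) (h1 : S.le w' g)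
    (h2 : ran ν ⊆ dom μ) : cp ν μ = cp ν (Tr M g w') := by
  refine rl_ext fun k k'' => ⟨fun ⟨k', h3, h4⟩ => ⟨k', h3, h _ _ h4⟩, fun ⟨k', h3, h4⟩ => ?_⟩
  obtain ⟨k₁, h5⟩ := h2 ⟨k, h3⟩
  exact ⟨k', h3, (Adm_Tr h1).fn (h _ _ h5) h4 ▸ h5⟩

theorem img_eq_img_Tr {L : Set X} {μ : Rl X} {g w' : X} (h : ∀ a b, μ a b → Tr M g w' a b)
    (h1 : S.le w' g) (h2 : L ⊆ dom μ) : img μ L = img (Tr M g w') L := by
  have := congrArg ran (cp_eq_cp_Tr (ν := idr L) h h1 (by rwa [ran_idr]))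
  rwa [ran_cp, ran_cp, ran_idr] at this

theorem Adm.flip_cp {σ : Rl X} (h : S.Adm σ) : cp (flip σ) σ = idr (ran σ) := by
  refine rl_ext fun a b => ⟨fun ⟨k, h1, h2⟩ => ⟨⟨k, h1⟩, h.fn h2 h1⟩, ?_⟩
  rintro ⟨⟨k, hk⟩, rfl⟩
  exact ⟨k, hk, hk⟩

theorem bij_rel {σ : Rl X} {D : Set X} {f : X → X} (hf : ∀ k k', σ k k' → f k = k')
    (h2 : S.NS σ) (h3 : dom σ = D) (h4 : ran σ = D) :
    (∀ a b, σ a b ↔ a ∈ D ∧ b = f a) ∧ BijOn f D D := by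
  have hσ : ∀ k ∈ D, σ k (f k) := by
    intro k hk
    obtain ⟨k', hk'⟩ := h3.symm.subset hk
    rw [hf k k' hk']; exact hk'
  refine ⟨fun a b => ⟨fun h => ⟨h3.subset ⟨b, h⟩, (hf a b h).symm⟩, ?_⟩,
    fun k hk => h4.subset ⟨k, hσ k hk⟩, fun a ha b hb e => h2.inj (hσ a ha) (e ▸ hσ b hb),
    fun b hb => ?_⟩
  · rintro ⟨ha, rfl⟩
    exact hσ a ha
  · obtain ⟨a, ha⟩ := h4.symm.subset hb
    exact ⟨a, h3.subset ⟨b, ha⟩, hf a b ha⟩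

theorem eqz_set [Finite M] {v : X} (hv : v ∈ S.Pt) (A : Set (M × M)) :
    ∃ m ∈ S.Pt, ∀ x, S.le x m ↔ S.le x v ∧ ∀ q ∈ A, q.1 • x = q.2 • x := by
  induction A, toFinite A using Set.Finite.induction_on with
  | empty => exact ⟨v, hv, fun x => by simp⟩
  | @insert q A _ _ ih =>
    obtain ⟨m, hm, h⟩ := ih
    obtain ⟨m', hm', h'⟩ := S.eqz m hm q.1 q.2
    refine ⟨m', hm', fun x => (h' x).trans ?_⟩
    change S.le x m ∧ _ ↔ _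
    rw [h, forall_mem_insert]
    tauto

end LS

end Pool.Agent.P.MP_9ca27c_lc.Ex
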