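import Mathlib
import Pool.Agent.P.MP_9ca27c_lc.ExRel

/-! Normal stacks over a label system, restriction maps, and their validity. -/

namespace Pool.Agent.P.MP_9ca27c_lc.Ex

open Set

variable {M : Type} [Monoid M] {X : Type} [MulAction M X]

inductive Tl (X : Type) : Type
  | top : Tl X
  | virt : Set X → Tl X
  | cons : Option X → X → Rl X → Tl X → Tl X

inductive Ty (X : Type) : Type
  | R : X → Set X → Ty X
  | U : Set X → Ty X

def hdom : Tl X → Set X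
  | .top => univ
  | .virt D => D
  | .cons _ _ μ _ => dom μ

def lv (M : Type) [Monoid M] {X : Type} [MulAction M X] (g : Option X) (w : X) (ν : Rl X)
    (p : X × Tl X) : Tl X :=
  .cons g p.1 (cp ν (Tr M w p.1)) p.2

theorem lv_same {g : Option X} {w : X} {ν : Rl X} (h : ran ν ⊆ orb M w) (n : Tl X) :
    lv M g w ν (w, n) = .cons g w ν n := by
  simp only [lv, cp_Tr_same h]

namespace LS

variable (S : LS M X)

def Lev (w : X) (μ : Rl X) : Prop := S.Lam w ∧ ClR M μ ∧ S.Adm μ ∧ ran μ ⊆ orb M w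

def Ctx (w : X) (K : Set X) : Prop := S.Lam w ∧ Cl M K ∧ K ⊆ orb M w

def Fg (w : X) (ν : Rl X) : Prop := w ∉ ran ν ∧ S.NS ν

def Hd : Option X → X → Set X → X → Rl X → Prop
  | none, w, _, w', μ => w ∉ dom μ ∧ ¬ S.Fg w' μ
  | some g, w, K, w', μ => dom μ ≠ K ∧ (g = w ∨ (g ∈ K ∧ w ∈ orb M g)) ∧ S.le w' g ∧
      ∀ a b, μ a b → Tr M g w' a b

def Nrm : Tl X → X → Set X → Prop
  | .top, _, _ => True
  | .virt D, w, K => Cl M D ∧ D ⊆ K ∧ w ∉ D
  | .cons g w' μ n, w, K => S.Lev w' μ ∧ Nrm n w' (ran μ) ∧ dom μ ⊆ K ∧ S.Hd g w K w' μ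

def Uv : Tl X → Prop
  | .top => False
  | .virt D => Cl M D
  | .cons g w' μ n => g = none ∧ S.Lev w' μ ∧ S.Nrm n w' (ran μ) ∧ ¬ S.Fg w' μ

def HOK : Tl X → Prop
  | .top => True
  | .virt D => Cl M D
  | .cons _ w' μ n => S.Lev w' μ ∧ S.Nrm n w' (ran μ)

def PT : Ty X → X × Tl X → Prop
  | .R w K, p => S.Lam p.1 ∧ S.le p.1 w ∧ S.Nrm p.2 p.1 (img (Tr M w p.1) K)
  | .U D, p => p.1 = S.top ∧ S.Uv p.2 ∧ hdom p.2 ⊆ D

open Classical in
noncomputable def mkgh (w : X) (ν : Rl X) (r : X × Tl X) (u : Tl X) : Tl X :=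
  if S.Fg w ν then u else lv M none w ν r

open Classical in
mutual
noncomputable def resR : Tl X → X → Set X → X × Tl X
  | .top, w, _ => (w, .top)
  | .virt D, w, L => (w, if w ∈ L then .virt D else .virt (D ∩ L))
  | .cons g w' μ n, w, L =>
    if w ∈ L then (w, .cons g w' μ n)
    else if g = some w then
      (if L ⊆ dom μ then resR n w' (img μ L)
       else (w, lv M g w' (cp (idr L) μ) (resR n w' (img μ L))))
    else (w, S.mkgh w' (cp (idr L) μ) (resR n w' (ran (cp (idr L) μ))) (pullU n (cp (idr L) μ)))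
noncomputable def pullU : Tl X → Rl X → Tl X
  | .top, σ => .virt (dom σ)
  | .virt D, σ => .virt (pre σ D)
  | .cons _ w' μ n, σ => S.mkgh w' (cp σ μ) (resR n w' (ran (cp σ μ))) (pullU n (cp σ μ))
end

noncomputable def gh (n : Tl X) (w : X) (ν : Rl X) : Tl X :=
  S.mkgh w ν (S.resR n w (ran ν)) (S.pullU n ν)

variable {S}

theorem pullU_top (σ : Rl X) : S.pullU .top σ = .virt (dom σ) := by rw [pullU]

theorem pullU_virt (D : Set X) (σ : Rl X) : S.pullU (.virt D) σ = .virt (pre σ D) := by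
  rw [pullU]

theorem pullU_cons (g : Option X) (w' : X) (μ : Rl X) (n : Tl X) (σ : Rl X) :
    S.pullU (.cons g w' μ n) σ = S.gh n w' (cp σ μ) := by rw [pullU, gh]

theorem gh_pos {n : Tl X} {w : X} {ν : Rl X} (h : S.Fg w ν) : S.gh n w ν = S.pullU n ν := by
  rw [gh, mkgh, if_pos h]

theorem gh_neg {n : Tl X} {w : X} {ν : Rl X} (h : ¬ S.Fg w ν) :
    S.gh n w ν = lv M none w ν (S.resR n w (ran ν)) := by
  rw [gh, mkgh, if_neg h]

theorem resR_top (w : X) (L : Set X) : S.resR .top w L = (w, .top) := by rw [resR]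

theorem resR_mem {w : X} {L : Set X} (h : w ∈ L) (n : Tl X) : S.resR n w L = (w, n) := by
  cases n <;> simp only [resR, if_pos h]

theorem resR_virt {w : X} {L : Set X} (h : w ∉ L) (D : Set X) :
    S.resR (.virt D) w L = (w, .virt (D ∩ L)) := by
  simp only [resR, if_neg h]

theorem resR_full {w : X} {L : Set X} (h : w ∉ L) {μ : Rl X} (h2 : L ⊆ dom μ) (w' : X)
    (n : Tl X) : S.resR (.cons (some w) w' μ n) w L = S.resR n w' (img μ L) := by
  simp only [resR, if_neg h, if_pos h2, if_true]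

theorem resR_nfull {w : X} {L : Set X} (h : w ∉ L) {μ : Rl X} (h2 : ¬ L ⊆ dom μ) (w' : X)
    (n : Tl X) : S.resR (.cons (some w) w' μ n) w L =
      (w, lv M (some w) w' (cp (idr L) μ) (S.resR n w' (img μ L))) := by
  simp only [resR, if_neg h, if_neg h2, if_true]

theorem resR_ghost {w : X} {L : Set X} (h : w ∉ L) {g : Option X} (h2 : g ≠ some w) (μ : Rl X)
    (w' : X) (n : Tl X) :
    S.resR (.cons g w' μ n) w L = (w, S.gh n w' (cp (idr L) μ)) := by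
  simp only [resR, if_neg h, if_neg h2, gh]

theorem resR_U {w : X} {L : Set X} (h : w ∉ L) {n : Tl X} (hn : S.Uv n) :
    S.resR n w L = (w, S.pullU n (idr L)) := by
  cases n with
  | top => exact hn.elim
  | virt D => rw [resR_virt h, pullU_virt, pre_idr]
  | cons g w' μ n => rw [resR_ghost h (by rw [hn.1]; simp), pullU_cons]

theorem Nrm.hok {n : Tl X} {w : X} {K : Set X} (h : S.Nrm n w K) : S.HOK n := by
  cases n with
  | top => trivial
  | virt D => exact h.1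
  | cons g w' μ n => exact ⟨h.1, h.2.1⟩

theorem Uv.hok {n : Tl X} (h : S.Uv n) : S.HOK n := by
  cases n with
  | top => trivial
  | virt D => exact h
  | cons g w' μ n => exact ⟨h.2.1, h.2.2.1⟩

theorem Uv.nrm {n : Tl X} (h : S.Uv n) {w : X} {K : Set X} (h1 : hdom n ⊆ K) (h2 : w ∉ hdom n) :
    S.Nrm n w K := by
  cases n with
  | top => trivial
  | virt D => exact ⟨h, h1, h2⟩
  | cons g w' μ n =>
    obtain ⟨rfl, h3, h4, h5⟩ := h
    exact ⟨h3, h4, h1, h2, h5⟩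

theorem Uv.ne_top {n : Tl X} (h : S.Uv n) : n ≠ .top := by rintro rfl; exact h

theorem Lev.ctx {w : X} {μ : Rl X} (h : S.Lev w μ) : S.Ctx w (ran μ) :=
  ⟨h.1, h.2.1.cl_ran, h.2.2.2⟩

theorem Lev.comp {w : X} {μ σ : Rl X} (h : S.Lev w μ) (h1 : ClR M σ) (h2 : S.Adm σ) :
    S.Lev w (cp σ μ) :=
  ⟨h.1, h1.comp h.2.1, h2.comp h.2.2.1,
    (ran_cp σ μ).subset.trans ((img_subset_ran _ _).trans h.2.2.2)⟩

theorem Lev.tr {w w' : X} {μ : Rl X} (h : S.Lev w μ) (h1 : S.Lam w') (h2 : S.le w' w) :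
    S.Lev w' (cp μ (Tr M w w')) :=
  ⟨h1, h.2.1.comp (ClR_Tr _ _), h.2.2.1.comp (Adm_Tr h2),
    (ran_cp _ _).subset.trans (img_Tr_subset _ _ _)⟩

theorem Fg.of_tr {w w' : X} {μ : Rl X} (h1 : ran μ ⊆ orb M w) (h2 : S.le w' w)
    (h : S.Fg w' (cp μ (Tr M w w'))) : S.Fg w μ :=
  ⟨fun ⟨k, hk⟩ => h.1 ⟨k, w, hk, Tr_self w w'⟩,
    h.2.of_cp_left (by rwa [dom_Tr]) (Adm_Tr h2)⟩

theorem Fg.comp {w : X} {μ σ : Rl X} (h : S.Fg w μ) (h2 : S.NS σ) : S.Fg w (cp σ μ) :=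
  ⟨fun ⟨_, k, _, hk⟩ => h.1 ⟨k, hk⟩, h2.comp h.2⟩

theorem Ctx.tr {w w' : X} {K : Set X} (h : Cl M K) (h1 : S.Lam w') :
    S.Ctx w' (img (Tr M w w') K) :=
  ⟨h1, (ClR_Tr _ _).cl_img h, img_Tr_subset _ _ _⟩

theorem Ctx.eq_of_mem {w : X} {K L : Set X} (h : S.Ctx w K) (hL : Cl M L) (hLK : L ⊆ K)
    (hw : w ∈ L) : L = K := hLK.antisymm (h.2.2.trans (hL.orb_subset hw))

theorem PT_same {w : X} {K : Set X} (h : S.Ctx w K) {n : Tl X} (hn : S.Nrm n w K) :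
    S.PT (.R w K) (w, n) := ⟨h.1, le_rfl w, by rwa [img_Tr_same h.2.2]⟩

theorem Nrm_lv {g : Option X} {w₀ w : X} {K : Set X} {μ : Rl X} {p : X × Tl X} (h1 : S.Lev w μ)
    (h2 : dom μ ⊆ K) (h3 : S.Hd g w₀ K w μ) (hp : S.PT (.R w (ran μ)) p) :
    S.Nrm (lv M g w μ p) w₀ K := by
  refine ⟨h1.tr hp.1 hp.2.1, by rw [ran_cp]; exact hp.2.2, by rwa [dom_cp_Tr h1.2.2.2], ?_⟩
  cases g with
  | none => exact ⟨by rw [dom_cp_Tr h1.2.2.2]; exact h3.1, fun h => h3.2 (h.of_tr h1.2.2.2 hp.2.1)⟩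
  | some g =>
    refine ⟨by rw [dom_cp_Tr h1.2.2.2]; exact h3.1, h3.2.1, le_trans hp.2.1 h3.2.2.1, ?_⟩
    rintro a b ⟨k, h4, h5⟩
    rw [← Tr_Tr g hp.2.1]
    exact ⟨k, h3.2.2.2 _ _ h4, h5⟩

theorem Uv_lv {w : X} {μ : Rl X} {p : X × Tl X} (h1 : S.Lev w μ) (h3 : ¬ S.Fg w μ)
    (hp : S.PT (.R w (ran μ)) p) : S.Uv (lv M none w μ p) :=
  ⟨rfl, h1.tr hp.1 hp.2.1, by rw [ran_cp]; exact hp.2.2,
    fun h => h3 (h.of_tr h1.2.2.2 hp.2.1)⟩

theorem hdom_lv {g : Option X} {w : X} {μ : Rl X} (h : ran μ ⊆ orb M w) (p : X × Tl X) :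
    hdom (lv M g w μ p) = dom μ := dom_cp_Tr h _

theorem PT.trans {w w' : X} {K : Set X} {p : X × Tl X} (h : S.le w' w)
    (hp : S.PT (.R w' (img (Tr M w w') K)) p) : S.PT (.R w K) p :=
  ⟨hp.1, le_trans hp.2.1 h, by rw [← Tr_Tr w hp.2.1, img_cp]; exact hp.2.2⟩

theorem valid_aux (n : Tl X) :
    (∀ w K L, S.Ctx w K → S.Nrm n w K → Cl M L → L ⊆ K → S.PT (.R w L) (S.resR n w L)) ∧
    (∀ σ, S.HOK n → ClR M σ → S.Adm σ →
      S.Uv (S.pullU n σ) ∧ hdom (S.pullU n σ) ⊆ pre σ (hdom n)) := by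
  have mem : ∀ (n : Tl X) w K L, S.Ctx w K → S.Nrm n w K → Cl M L → L ⊆ K → w ∈ L →
      S.PT (.R w L) (S.resR n w L) := by
    intro n w K L h1 h2 h3 h4 h5
    obtain rfl := h1.eq_of_mem h3 h4 h5
    rw [resR_mem h5]; exact PT_same h1 h2
  induction n with
  | top =>
    refine ⟨fun w K L h1 _ _ _ => by rw [resR_top]; exact ⟨h1.1, le_rfl w, trivial⟩,
      fun σ _ h2 _ => ?_⟩
    rw [pullU_top]
    exact ⟨h2.cl_dom, fun _ ⟨k, hk⟩ => ⟨k, trivial, hk⟩⟩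
  | virt D =>
    refine ⟨fun w K L h1 h2 h3 h4 => ?_, fun σ h1 h2 _ => ?_⟩
    · by_cases hw : w ∈ L
      · exact mem _ w K L h1 h2 h3 h4 hw
      rw [resR_virt hw]
      exact PT_same ⟨h1.1, h3, h4.trans h1.2.2⟩ ⟨h2.1.inter h3, inter_subset_right, fun h => hw h.2⟩
    · rw [pullU_virt]; exact ⟨h2.cl_pre h1, subset_rfl⟩
  | cons g w' μ n ih =>
    have hgh : ∀ σ, S.Lev w' μ → S.Nrm n w' (ran μ) → ClR M σ → S.Adm σ →
        S.Uv (S.gh n w' (cp σ μ)) ∧ hdom (S.gh n w' (cp σ μ)) ⊆ pre σ (dom μ) := by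
      intro σ h1 h2 h3 h4
      have h5 := h1.comp h3 h4
      by_cases hF : S.Fg w' (cp σ μ)
      · rw [gh_pos hF]
        have := ih.2 _ h2.hok h5.2.1 h5.2.2.1
        exact ⟨this.1, this.2.trans ((pre_subset_dom _ _).trans (dom_cp _ _).subset)⟩
      · rw [gh_neg hF, hdom_lv h5.2.2.2, dom_cp]
        exact ⟨Uv_lv h5 hF (ih.1 _ _ _ h1.ctx h2 h5.2.1.cl_ran
          ((ran_cp _ _).subset.trans (img_subset_ran _ _))), subset_rfl⟩
    refine ⟨fun w K L h1 h2 h3 h4 => ?_, fun σ h1 h2 h3 => ?_⟩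
    · by_cases hw : w ∈ L
      · exact mem _ w K L h1 h2 h3 h4 hw
      have hc : S.Ctx w L := ⟨h1.1, h3, h4.trans h1.2.2⟩
      obtain ⟨k1, k2, k3, k4⟩ := h2
      by_cases hg : g = some w
      · subst hg
        have ih1 := ih.1 _ _ _ k1.ctx k2 (k1.2.1.cl_img h3) (img_subset_ran μ L)
        by_cases hL : L ⊆ dom μ
        · rw [resR_full hw hL]
          rw [img_eq_img_Tr k4.2.2.2 k4.2.2.1 hL] at ih1 ⊢
          exact ih1.trans k4.2.2.1
        · rw [resR_nfull hw hL]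
          refine PT_same hc (Nrm_lv (k1.comp h3.clr_idr (Adm_idr L)) ?_ ?_ ?_)
          · rw [dom_cp, pre_idr]; exact inter_subset_right
          · refine ⟨fun h => hL ?_, Or.inl rfl, k4.2.2.1, ?_⟩
            · rw [dom_cp, pre_idr] at h
              exact h.symm.subset.trans inter_subset_left
            · rintro a b ⟨_, ⟨-, rfl⟩, h⟩; exact k4.2.2.2 _ _ h
          · rwa [ran_cp, ran_idr]
      · rw [resR_ghost hw hg]
        have := hgh _ k1 k2 h3.clr_idr (Adm_idr L)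
        rw [pre_idr] at this
        exact PT_same hc (this.1.nrm (this.2.trans inter_subset_right) fun h => hw (this.2 h).2)
    · rw [pullU_cons]; exact hgh σ h1.1 h1.2 h2 h3

theorem valid_resR {n : Tl X} {w : X} {K L : Set X} (h1 : S.Ctx w K) (h2 : S.Nrm n w K)
    (h3 : Cl M L) (h4 : L ⊆ K) : S.PT (.R w L) (S.resR n w L) :=
  (valid_aux n).1 w K L h1 h2 h3 h4

theorem valid_pullU {n : Tl X} {σ : Rl X} (h1 : S.HOK n) (h2 : ClR M σ) (h3 : S.Adm σ) :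
    S.Uv (S.pullU n σ) ∧ hdom (S.pullU n σ) ⊆ pre σ (hdom n) := (valid_aux n).2 σ h1 h2 h3

theorem valid_gh {n : Tl X} {w : X} {K : Set X} {ν : Rl X} (h1 : S.Ctx w K) (h2 : S.Nrm n w K)
    (h3 : ClR M ν) (h4 : S.Adm ν) (h5 : ran ν ⊆ K) :
    S.Uv (S.gh n w ν) ∧ hdom (S.gh n w ν) ⊆ dom ν := by
  by_cases hF : S.Fg w ν
  · rw [gh_pos hF]
    have := valid_pullU h2.hok h3 h4
    exact ⟨this.1, this.2.trans (pre_subset_dom _ _)⟩
  · rw [gh_neg hF, hdom_lv (h5.trans h1.2.2)]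
    exact ⟨Uv_lv ⟨h1.1, h3, h4, h5.trans h1.2.2⟩ hF (valid_resR h1 h2 h3.cl_ran h5), subset_rfl⟩

/-- restriction to the whole visible set does nothing -/
theorem resR_self {n : Tl X} : ∀ {w : X} {K : Set X}, S.Ctx w K → S.Nrm n w K →
    S.resR n w K = (w, n) := by
  induction n with
  | top => intro w K _ _; exact resR_top _ _
  | virt D =>
    intro w K _ h2
    by_cases hw : w ∈ K
    · exact resR_mem hw _
    · rw [resR_virt hw, inter_eq_left.2 h2.2.1]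
  | cons g w' μ n ih =>
    intro w K h1 ⟨k1, k2, k3, k4⟩
    by_cases hw : w ∈ K
    · exact resR_mem hw _
    cases g with
    | none =>
      rw [resR_ghost hw (by simp), idr_cp k3, gh_neg k4.2, ih k1.ctx k2, lv_same k1.2.2.2]
    | some g =>
      obtain rfl : g = w := by
        rcases k4.2.1 with h | h
        · exact h
        · exact absurd (h1.2.1.orb_subset h.1 h.2) hw
      rw [resR_nfull hw fun h => k4.1 (k3.antisymm h), idr_cp k3, img_of_dom k3, ih k1.ctx k2,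
        lv_same k1.2.2.2]

theorem gh_self {n : Tl X} {w : X} {ν : Rl X} (h1 : S.Lev w ν) (h2 : S.Nrm n w (ran ν))
    (h3 : ¬ S.Fg w ν) : S.gh n w ν = .cons none w ν n := by
  rw [gh_neg h3, resR_self h1.ctx h2, lv_same h1.2.2.2]

end LS

end Pool.Agent.P.MP_9ca27c_lc.Ex
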