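import Mathlib
import Pool.Agent.P.MP_9ca27c_lc.ExPath

/-! The action of the monoid on normal stacks. -/

namespace Pool.Agent.P.MP_9ca27c_lc.Ex

open Set

variable {M : Type} [Monoid M] {X : Type} [MulAction M X]

namespace LS

variable (S : LS M X)

noncomputable def relab : Tl X → Rl X → Tl X
  | .top, _ => .top
  | .virt D, σ => .virt (pre σ D)
  | .cons g w μ n, σ => .cons (g.map (S.app (flip σ))) w (cp σ μ) n

open Classical in
noncomputable def mkmv (w u : X) (n : Tl X) (r : X × Tl X) : X × Tl X :=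
  if w ∈ orb M u then (S.rep u, S.relab n (Tr M (S.rep u) u)) else r

open Classical in
noncomputable def mvN : Tl X → X → X × Tl X
  | .top, u => (S.rep u, .top)
  | .virt D, u => if u ∈ D then (S.rep u, .top) else (S.rep u, .virt (pre (Tr M (S.rep u) u) D))
  | .cons _ w' μ n, u =>
    if u ∈ dom μ then S.mkmv w' (S.app μ u) n (mvN n (S.app μ u))
    else (S.rep u, S.gh n w' (cp (Tr M (S.rep u) u) μ))

noncomputable def mv (n : Tl X) (w u : X) : X × Tl X := S.mkmv w u n (S.mvN n u)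

def St (x : X × Tl X) : Prop := S.Lam x.1 ∧ S.Nrm x.2 x.1 (orb M x.1)

noncomputable def act (a : M) (x : X × Tl X) : X × Tl X := S.mv x.2 x.1 (a • x.1)

variable {S}

theorem mv_pos {w u : X} (h : w ∈ orb M u) (n : Tl X) :
    S.mv n w u = (S.rep u, S.relab n (Tr M (S.rep u) u)) := by rw [mv, mkmv, if_pos h]

theorem mv_neg {w u : X} (h : w ∉ orb M u) (n : Tl X) : S.mv n w u = S.mvN n u := by
  rw [mv, mkmv, if_neg h]

theorem mv_top (w u : X) : S.mv .top w u = (S.rep u, .top) := by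
  by_cases h : w ∈ orb M u
  · rw [mv_pos h]; rfl
  · rw [mv_neg h]; rfl

theorem mvN_notMem {n : Tl X} {u : X} (h : u ∉ hdom n) :
    S.mvN n u = (S.rep u, S.pullU n (Tr M (S.rep u) u)) := by
  cases n with
  | top => exact (h trivial).elim
  | virt D => rw [mvN, if_neg (show u ∉ D from h), pullU_virt]
  | cons g w' μ n => rw [mvN, if_neg (show u ∉ dom μ from h), pullU_cons]

theorem mvN_virt {D : Set X} {u : X} (h : u ∈ D) : S.mvN (.virt D) u = (S.rep u, .top) := by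
  rw [mvN, if_pos h]

theorem mvN_cons {μ : Rl X} {u u' : X} (h : μ u u') (h1 : S.Adm μ) (g : Option X) (w' : X)
    (n : Tl X) : S.mvN (.cons g w' μ n) u = S.mv n w' u' := by
  rw [mvN, if_pos ⟨u', h⟩, h1.app_eq h, mv]

theorem Tr_cp (r : X) {σ : Rl X} {a c : X} (h1 : ClR M σ) (h2 : S.Adm σ) (h : σ a c) :
    cp (Tr M r a) σ = Tr M r c := by
  refine rl_ext fun k k'' => ⟨?_, ?_⟩
  · rintro ⟨_, ⟨z, rfl, rfl⟩, h3⟩
    exact ⟨z, rfl, h2.fn h3 (h1 z _ _ h)⟩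
  · rintro ⟨z, rfl, rfl⟩
    exact ⟨_, ⟨z, rfl, rfl⟩, h1 z _ _ h⟩

theorem Ctx.mem_Pt {w u : X} {K : Set X} (h : S.Ctx w K) (hu : u ∈ K) : u ∈ S.Pt := by
  obtain ⟨z, rfl⟩ := h.2.2 hu
  exact S.P_smul h.1.1 z

theorem Adm_rep {u : X} (h : u ∈ S.Pt) : S.Adm (Tr M (S.rep u) u) := Adm_Tr (rep_spec h).2.2

theorem NS_rep {u : X} (h : u ∈ S.Pt) : S.NS (Tr M (S.rep u) u) := NS_Tr (rep_spec h).2.1

theorem relab_U {n : Tl X} {σ : Rl X} (h : S.Uv n) (h1 : hdom n ⊆ ran σ) (h2 : ClR M σ)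
    (h3 : S.Adm σ) : S.relab n σ = S.pullU n σ := by
  cases n with
  | top => exact h.elim
  | virt D => rw [pullU_virt]; rfl
  | cons g w μ n =>
    obtain ⟨rfl, k1, k2, k3⟩ := h
    have e : ran (cp σ μ) = ran μ := by rw [ran_cp, img_of_dom h1]
    rw [pullU_cons, gh_self (k1.comp h2 h3) (by rwa [e])
      fun h => k3 ⟨by rw [← e]; exact h.1, h.2.of_cp_right h1 h3⟩]
    rfl

def FlagIn (n : Tl X) (A : Set X) : Prop := ∀ g w μ m, n = .cons (some g) w μ m → g ∈ A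

theorem Nrm.flagIn {n : Tl X} {w : X} {K : Set X} (h : S.Nrm n w K) (hw : w ∈ K) :
    FlagIn n K := by
  rintro g w' μ m rfl
  rcases h.2.2.2.2.1 with rfl | h
  · exact hw
  · exact h.1

theorem Uv.flagIn {n : Tl X} (h : S.Uv n) (K : Set X) : FlagIn n K := by
  rintro g w' μ m rfl
  cases h.1

theorem NS.app_flip {σ : Rl X} (h : S.NS σ) {a b : X} (h1 : σ a b) : S.app (flip σ) b = a :=
  Adm.app_eq (ν := flip σ) (by obtain ⟨f, hf, h⟩ := h; exact ⟨f, hf, fun k k' e => h k' k e⟩) h1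

theorem relab_relab {n : Tl X} {σ σ' : Rl X} (h : FlagIn n (ran (cp σ' σ))) (h1 : S.NS σ)
    (h2 : S.NS σ') : S.relab (S.relab n σ) σ' = S.relab n (cp σ' σ) := by
  cases n with
  | top => rfl
  | virt D => simp only [relab, pre_cp]
  | cons g w μ n =>
    cases g with
    | none => simp only [relab, cp_assoc, Option.map_none]
    | some g =>
      obtain ⟨a, b, h3, h4⟩ := h g w μ n rfl
      simp only [relab, cp_assoc, Option.map_some]
      rw [h1.app_flip h4, h2.app_flip h3, (h2.comp h1).app_flip ⟨b, h3, h4⟩]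

theorem relab_idr {n : Tl X} {L : Set X} (h : FlagIn n L) (h1 : n = .top ∨ hdom n ⊆ L) :
    S.relab n (idr L) = n := by
  cases n with
  | top => rfl
  | virt D =>
    simp only [relab, pre_idr]
    rw [inter_eq_left.2 (show D ⊆ L from h1.resolve_left (by simp))]
  | cons g w μ n =>
    simp only [relab]
    rw [idr_cp (h1.resolve_left (by simp))]
    cases g with
    | none => rfl
    | some g => rw [Option.map_some, (NS_idr L).app_flip ⟨h g w μ n rfl, rfl⟩]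

theorem Nrm.hdom_subset {n : Tl X} {w : X} {K : Set X} (h : S.Nrm n w K) :
    n = .top ∨ hdom n ⊆ K := by
  cases n with
  | top => exact Or.inl rfl
  | virt D => exact Or.inr h.2.1
  | cons g w' μ n => exact Or.inr h.2.2.1

theorem valid_relab {n : Tl X} {w u u₂ : X} {K : Set X} (h1 : S.Ctx w K) (h2 : S.Nrm n w K)
    (hu : u ∈ K) (hw : w ∈ orb M u) (h3 : S.le u u₂) (h4 : S.le u₂ u) :
    S.Nrm (S.relab n (Tr M u₂ u)) u₂ (orb M u₂) := by
  have hK : K = orb M u :=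
    (h1.2.2.trans ((Cl_orb u).orb_subset hw)).antisymm (h1.2.1.orb_subset hu)
  have hA := Adm_Tr h3
  have hN := NS_Tr h4
  have hpre : ∀ D : Set X, Cl M D → w ∉ D → u₂ ∉ pre (Tr M u₂ u) D := by
    rintro D hD hwD ⟨k, hk, h⟩
    obtain rfl := hA.fn h (Tr_self u₂ u)
    exact hwD (hD.orb_subset hk hw)
  cases n with
  | top => trivial
  | virt D =>
    exact ⟨(ClR_Tr _ _).cl_pre h2.1, (pre_subset_dom _ _).trans (dom_Tr _ _).subset,
      hpre D h2.1 h2.2.2⟩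
  | cons g w' μ n =>
    obtain ⟨k1, k2, k3, k4⟩ := h2
    have hd : dom μ ⊆ ran (Tr M u₂ u) := by rw [ran_Tr, ← hK]; exact k3
    have e : ran (cp (Tr M u₂ u) μ) = ran μ := by rw [ran_cp, img_of_dom hd]
    refine ⟨k1.comp (ClR_Tr _ _) hA, by rwa [e],
      (dom_cp _ _).subset.trans ((pre_subset_dom _ _).trans (dom_Tr _ _).subset), ?_⟩
    cases g with
    | none =>
      exact ⟨by rw [dom_cp]; exact hpre _ k1.2.1.cl_dom k4.1,
        fun h => k4.2 ⟨by rw [← e]; exact h.1, h.2.of_cp_right hd hA⟩⟩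
    | some g =>
      have hwK : w ∈ K := by rw [hK]; exact hw
      have hg : g ∈ K ∧ w ∈ orb M g := by
        rcases k4.2.1 with rfl | h
        · exact ⟨hwK, mem_orb _⟩
        · exact h
      have hwd : w ∉ dom μ := fun h =>
        k4.1 (k3.antisymm (h1.2.2.trans (k1.2.1.cl_dom.orb_subset h)))
      obtain ⟨s, hs⟩ := hK.subset hg.1
      have hσ : Tr M u₂ u (s • u₂) g := ⟨s, rfl, hs⟩
      obtain ⟨t, ht⟩ := (Cl_orb g).orb_subset hg.2 (h1.2.2 hu)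
      rw [Option.map_some, hN.app_flip hσ]
      refine ⟨fun h => hpre _ k1.2.1.cl_dom hwd ?_, Or.inr ⟨⟨s, rfl⟩, t, ?_⟩,
        le_trans k4.2.2.1 (hA.le_of hσ), ?_⟩
      · rw [← dom_cp, h]; exact mem_orb _
      · have h7 := ClR_Tr _ _ t _ _ hσ
        rw [← ht] at h7
        exact hN.inj (Tr_self u₂ u) h7
      · rintro a b ⟨k, h5, h6⟩
        obtain ⟨z, rfl, rfl⟩ := k4.2.2.2 _ _ h6
        exact ⟨z, hN.inj h5 (ClR_Tr _ _ z _ _ hσ), rfl⟩

theorem valid_mvN {n : Tl X} : ∀ {u : X}, S.HOK n → u ∈ S.Pt →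
    S.St (S.mvN n u) ∧ S.le (S.mvN n u).1 u := by
  have hn : ∀ (n : Tl X) {u : X}, S.HOK n → u ∈ S.Pt → u ∉ hdom n →
      S.St (S.mvN n u) ∧ S.le (S.mvN n u).1 u := by
    intro n u h1 h2 h3
    rw [mvN_notMem h3]
    have := valid_pullU h1 (ClR_Tr (S.rep u) u) (Adm_rep h2)
    refine ⟨⟨rep_lam h2, this.1.nrm
      (this.2.trans ((pre_subset_dom _ _).trans (dom_Tr _ _).subset)) fun h => ?_⟩,
      (rep_spec h2).2.1⟩
    obtain ⟨k, hk, h⟩ := this.2 h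
    exact h3 ((Adm_rep h2).fn h (Tr_self _ _) ▸ hk)
  induction n with
  | top => intro u _ h2; exact ⟨⟨rep_lam h2, trivial⟩, (rep_spec h2).2.1⟩
  | virt D =>
    intro u h1 h2
    by_cases h : u ∈ D
    · rw [mvN_virt h]; exact ⟨⟨rep_lam h2, trivial⟩, (rep_spec h2).2.1⟩
    · exact hn _ h1 h2 h
  | cons g w' μ n ih =>
    intro u h1 h2
    by_cases h : u ∈ dom μ
    · obtain ⟨u', hu'⟩ := h
      have hP := h1.1.ctx.mem_Pt ⟨u, hu'⟩
      rw [mvN_cons hu' h1.1.2.2.1]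
      by_cases hw : w' ∈ orb M u'
      · rw [mv_pos hw]
        exact ⟨⟨rep_lam hP, valid_relab h1.1.ctx h1.2 ⟨u, hu'⟩ hw (rep_spec hP).2.2
          (rep_spec hP).2.1⟩, le_trans (rep_spec hP).2.1 (h1.1.2.2.1.le_of hu')⟩
      · rw [mv_neg hw]
        have := ih h1.2.hok hP
        exact ⟨this.1, le_trans this.2 (h1.1.2.2.1.le_of hu')⟩
    · exact hn _ h1 h2 h

theorem valid_mv {n : Tl X} {w u : X} {K : Set X} (h1 : S.Ctx w K) (h2 : S.Nrm n w K)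
    (hu : u ∈ K) : S.St (S.mv n w u) ∧ S.le (S.mv n w u).1 u := by
  have hP := h1.mem_Pt hu
  by_cases hw : w ∈ orb M u
  · rw [mv_pos hw]
    exact ⟨⟨rep_lam hP, valid_relab h1 h2 hu hw (rep_spec hP).2.2 (rep_spec hP).2.1⟩,
      (rep_spec hP).2.1⟩
  · rw [mv_neg hw]; exact valid_mvN h2.hok hP

theorem mvN_relab {n : Tl X} {σ : Rl X} {u₁ u₂ : X} (h : S.HOK n) (h1 : ClR M σ) (h2 : S.Adm σ)
    (h3 : S.NS σ) (h4 : σ u₂ u₁) : S.mvN (S.relab n σ) u₂ = S.mvN n u₁ := by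
  have e : S.rep u₂ = S.rep u₁ := rep_congr (h3.le_of h4) (h2.le_of h4)
  have hp : ∀ D : Set X, u₂ ∈ pre σ D ↔ u₁ ∈ D :=
    fun D => ⟨fun ⟨k, hk, h5⟩ => h2.fn h5 h4 ▸ hk, fun hk => ⟨u₁, hk, h4⟩⟩
  cases n with
  | top => simp only [relab, mvN, e]
  | virt D =>
    by_cases hu : u₁ ∈ D
    · rw [relab, mvN_virt hu, mvN_virt ((hp D).2 hu), e]
    · rw [relab, mvN_notMem (n := .virt D) hu,
        mvN_notMem (n := .virt (pre σ D)) fun h => hu ((hp D).1 h), pullU_virt, pullU_virt,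
        ← pre_cp, Tr_cp _ h1 h2 h4, e]
  | cons g w μ n =>
    by_cases hu : u₁ ∈ dom μ
    · obtain ⟨u', hu'⟩ := hu
      rw [relab, mvN_cons ⟨u₁, h4, hu'⟩ (h2.comp h.1.2.2.1), mvN_cons hu' h.1.2.2.1]
    · rw [relab, mvN_notMem (n := .cons g w μ n) hu,
        mvN_notMem (n := .cons _ w (cp σ μ) n) fun h => hu ((hp _).1 ((dom_cp _ _).subset h)),
        pullU_cons, pullU_cons, ← cp_assoc, Tr_cp _ h1 h2 h4, e]

theorem mvN_gh_notMem {n : Tl X} {w u : X} {K : Set X} {ν : Rl X} (h1 : S.Ctx w K)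
    (h2 : S.Nrm n w K) (h3 : ClR M ν) (h4 : S.Adm ν) (h5 : ran ν ⊆ K) (hu : u ∈ S.Pt)
    (h6 : u ∉ dom ν) :
    S.mvN (S.gh n w ν) u = (S.rep u, S.gh n w (cp (Tr M (S.rep u) u) ν)) := by
  rw [mvN_notMem fun h => h6 ((valid_gh h1 h2 h3 h4 h5).2 h),
    p4 n w K ν _ h1 h2 h3 h4 h5 (ClR_Tr _ _) (Adm_rep hu) (NS_rep hu)]

def Q1 (S : LS M X) (n : Tl X) : Prop :=
  ∀ w K L u u'', S.Ctx w K → S.Nrm n w K → Cl M L → L ⊆ K → u ∈ L →
    Tr M w (S.resR n w L).1 u u'' → S.mv (S.resR n w L).2 (S.resR n w L).1 u'' = S.mv n w u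

def Q2 (S : LS M X) (n : Tl X) : Prop :=
  ∀ σ u₂ u₁, S.HOK n → ClR M σ → S.Adm σ → S.NS σ → σ u₂ u₁ → u₂ ∈ S.Pt →
    S.mvN (S.pullU n σ) u₂ = S.mvN n u₁

def Q3 (S : LS M X) (n : Tl X) : Prop :=
  ∀ w K ν u₂ u', S.Ctx w K → S.Nrm n w K → ClR M ν → S.Adm ν → ran ν ⊆ K → ν u₂ u' →
    u₂ ∈ S.Pt → S.mvN (S.gh n w ν) u₂ = S.mv n w u'

theorem Q3_of {n : Tl X} (q1 : S.Q1 n) (q2 : S.Q2 n) : S.Q3 n := by
  intro w K ν u₂ u' h1 h2 h3 h4 h5 h6 h7
  by_cases hF : S.Fg w ν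
  · rw [gh_pos hF, q2 ν u₂ u' h2.hok h3 h4 hF.2 h6 h7,
      mv_neg fun h => hF.1 (h3.cl_ran.orb_subset ⟨u₂, h6⟩ h)]
  · have hv := valid_resR h1 h2 h3.cl_ran h5
    obtain ⟨z, hz⟩ := h1.2.2 (h5 ⟨u₂, h6⟩)
    have hT : Tr M w (S.resR n w (ran ν)).1 u' (z • (S.resR n w (ran ν)).1) := ⟨z, hz, rfl⟩
    rw [gh_neg hF, lv, mvN_cons ⟨u', h6, hT⟩ (h4.comp (Adm_Tr hv.2.1))]
    exact q1 w K _ u' _ h1 h2 h3.cl_ran h5 ⟨u₂, h6⟩ hT

theorem q_aux (n : Tl X) : S.Q1 n ∧ S.Q2 n := by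
  have same : ∀ {w u u'' : X}, Tr M w w u u'' → u'' = u := by
    rintro w _ _ ⟨z, rfl, rfl⟩; rfl
  induction n with
  | top =>
    refine ⟨fun w K L u u'' _ _ _ _ _ h6 => ?_, fun σ u₂ u₁ _ h2 h3 h4 h5 _ => ?_⟩
    · simp only [resR_top] at h6 ⊢
      rw [same h6]
    · rw [pullU_top, mvN_virt (D := dom σ) ⟨u₁, h5⟩, rep_congr (h4.le_of h5) (h3.le_of h5)]; rfl
  | virt D =>
    refine ⟨fun w K L u u'' _ _ h3 _ h5 h6 => ?_, fun σ u₂ u₁ h1 h2 h3 h4 h5 _ => ?_⟩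
    · by_cases hw : w ∈ L
      · simp only [resR_mem hw] at h6 ⊢
        rw [same h6]
      · simp only [resR_virt hw] at h6 ⊢
        have hw2 : w ∉ orb M u := fun h => hw (h3.orb_subset h5 h)
        rw [same h6, mv_neg hw2, mv_neg hw2]
        by_cases hu : u ∈ D
        · rw [mvN_virt hu, mvN_virt (D := D ∩ L) ⟨hu, h5⟩]
        · rw [mvN_notMem (n := .virt D) hu, mvN_notMem (n := .virt (D ∩ L)) fun h => hu h.1,
            pullU_virt, pullU_virt, pre_inter ((ran_Tr _ _).subset.trans (h3.orb_subset h5))]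
    · exact mvN_relab (n := .virt D) h1 h2 h3 h4 h5
  | cons g w' μ n ih =>
    obtain ⟨q1, q2⟩ := ih
    have q3 := Q3_of q1 q2
    refine ⟨fun w K L u u'' h1 ⟨k1, k2, k3, k4⟩ h3 h4 h5 h6 => ?_,
      fun σ u₂ u₁ h1 h2 h3 h4 h5 h6 => ?_⟩
    · by_cases hw : w ∈ L
      · simp only [resR_mem hw] at h6 ⊢
        rw [same h6]
      have hw2 : w ∉ orb M u := fun h => hw (h3.orb_subset h5 h)
      have hP := h1.mem_Pt (h4 h5)
      have hv := valid_resR k1.ctx k2 (k1.2.1.cl_img h3) (img_subset_ran μ L)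
      have hoL : ran (Tr M (S.rep u) u) ⊆ L := (ran_Tr _ _).subset.trans (h3.orb_subset h5)
      rw [mv_neg hw2]
      by_cases hg : g = some w
      · subst hg
        by_cases hL : L ⊆ dom μ
        · obtain ⟨u₁, hu₁⟩ := hL h5
          rw [resR_full hw hL] at h6 ⊢
          rw [mvN_cons hu₁ k1.2.2.1]
          refine q1 _ _ _ u₁ _ k1.ctx k2 (k1.2.1.cl_img h3) (img_subset_ran μ L) ⟨u, h5, hu₁⟩ ?_
          obtain ⟨z, rfl, rfl⟩ := h6
          exact ⟨z, (Adm_Tr k4.2.2.1).fn (k4.2.2.2 _ _ hu₁) ⟨z, rfl, rfl⟩, rfl⟩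
        · simp only [resR_nfull hw hL] at h6 ⊢
          rw [same h6, mv_neg hw2, lv]
          by_cases hu : u ∈ dom μ
          · obtain ⟨u₁, hu₁⟩ := hu
            obtain ⟨z, hz⟩ := k1.2.2.2 ⟨u, hu₁⟩
            have hT : Tr M w' (S.resR n w' (img μ L)).1 u₁ (z • (S.resR n w' (img μ L)).1) :=
              ⟨z, hz, rfl⟩
            rw [mvN_cons hu₁ k1.2.2.1, mvN_cons ⟨u₁, ⟨u, ⟨h5, rfl⟩, hu₁⟩, hT⟩
              (((Adm_idr L).comp k1.2.2.1).comp (Adm_Tr hv.2.1))]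
            exact q1 _ _ _ u₁ _ k1.ctx k2 (k1.2.1.cl_img h3) (img_subset_ran μ L) ⟨u, h5, hu₁⟩ hT
          · rw [mvN_notMem (n := .cons _ _ μ _) hu, mvN_notMem, pullU_cons, pullU_cons,
              ← cp_assoc, ← cp_assoc, cp_idr hoL,
              p2 n _ _ _ _ k1.ctx k2 (k1.2.1.cl_img h3) (img_subset_ran μ L)
                ((ClR_Tr _ _).comp k1.2.1) ((Adm_rep hP).comp k1.2.2.1)
                ((ran_cp _ _).subset.trans (img_mono μ hoL))]
            rintro ⟨_, k, ⟨_, ⟨-, rfl⟩, h⟩, -⟩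
            exact hu ⟨k, h⟩
      · have hl := k1.comp h3.clr_idr (Adm_idr L)
        have hr : ran (cp (idr L) μ) ⊆ ran μ := (ran_cp _ _).subset.trans (img_subset_ran _ _)
        simp only [resR_ghost hw hg] at h6 ⊢
        rw [same h6, mv_neg hw2]
        by_cases hu : u ∈ dom μ
        · obtain ⟨u₁, hu₁⟩ := hu
          rw [mvN_cons hu₁ k1.2.2.1]
          exact q3 _ _ _ _ _ k1.ctx k2 hl.2.1 hl.2.2.1 hr ⟨u, ⟨h5, rfl⟩, hu₁⟩ hP
        · rw [mvN_gh_notMem k1.ctx k2 hl.2.1 hl.2.2.1 hr hP, mvN_notMem (n := .cons _ _ μ _) hu,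
            pullU_cons, ← cp_assoc, cp_idr hoL]
          rintro ⟨k, _, ⟨-, rfl⟩, h⟩
          exact hu ⟨k, h⟩
    · have hl := h1.1.comp h2 h3
      have hr : ran (cp σ μ) ⊆ ran μ := (ran_cp _ _).subset.trans (img_subset_ran _ _)
      rw [pullU_cons]
      by_cases hu : u₁ ∈ dom μ
      · obtain ⟨u', hu'⟩ := hu
        rw [mvN_cons hu' h1.1.2.2.1]
        exact q3 _ _ _ _ _ h1.1.ctx h1.2 hl.2.1 hl.2.2.1 hr ⟨u₁, h5, hu'⟩ h6
      · rw [mvN_gh_notMem h1.1.ctx h1.2 hl.2.1 hl.2.2.1 hr h6, mvN_notMem (n := .cons _ _ μ _) hu,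
          pullU_cons, ← cp_assoc, Tr_cp _ h2 h3 h5, rep_congr (h4.le_of h5) (h3.le_of h5)]
        rintro ⟨k, k', h7, h8⟩
        exact hu ⟨k, h3.fn h7 h5 ▸ h8⟩

theorem mv_mv (b : M) {n : Tl X} : ∀ {w u : X} {K : Set X}, S.Ctx w K → S.Nrm n w K → u ∈ K →
    S.act b (S.mv n w u) = S.mv n w (b • u) := by
  have hiff : ∀ {u : X}, u ∈ S.Pt → (S.rep u ∈ orb M (b • S.rep u) ↔ u ∈ orb M (b • u)) := by
    intro u hP
    constructor
    · rintro ⟨z, hz⟩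
      refine ⟨z, ?_⟩
      have := (rep_spec hP).2.2.eq (z := 1) (z' := z * b) (by rwa [one_smul, mul_smul])
      rwa [one_smul, mul_smul] at this
    · rintro ⟨z, hz⟩
      refine ⟨z, ?_⟩
      have := (rep_spec hP).2.1.eq (z := 1) (z' := z * b) (by rwa [one_smul, mul_smul])
      rwa [one_smul, mul_smul] at this
  have hrep : ∀ {u : X}, u ∈ S.Pt → S.rep (b • S.rep u) = S.rep (b • u) := fun hP =>
    rep_congr ((rep_spec hP).2.1.smul b) ((rep_spec hP).2.2.smul b)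
  have hT : ∀ {u : X}, u ∈ S.Pt → cp (Tr M (S.rep (b • u)) (b • S.rep u)) (Tr M (S.rep u) u) =
      Tr M (S.rep (b • u)) (b • u) := fun hP =>
    Tr_cp _ (ClR_Tr _ _) (Adm_rep hP) ⟨b, rfl, rfl⟩
  have hA : ∀ {u : X}, u ∈ S.Pt → S.Adm (Tr M (S.rep (b • u)) (b • S.rep u)) := fun hP => by
    rw [← hrep hP]; exact Adm_rep (S.P_smul (rep_spec hP).1 b)
  have hN : ∀ {u : X}, u ∈ S.Pt → S.NS (Tr M (S.rep (b • u)) (b • S.rep u)) := fun hP => by
    rw [← hrep hP]; exact NS_rep (S.P_smul (rep_spec hP).1 b)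
  have pos : ∀ (n : Tl X) {w u : X} {K : Set X}, S.Ctx w K → S.Nrm n w K → u ∈ K →
      w ∈ orb M u → S.act b (S.mv n w u) = S.mv n w (b • u) := by
    intro n w u K h1 h2 hu hw
    have hP := h1.mem_Pt hu
    rw [mv_pos hw, act]
    dsimp only
    by_cases hb : u ∈ orb M (b • u)
    · have hw2 : w ∈ orb M (b • u) := (Cl_orb _).orb_subset hb hw
      rw [mv_pos ((hiff hP).2 hb), mv_pos hw2, hrep hP, relab_relab _ (NS_rep hP) (hN hP), hT hP]
      rw [hT hP, ran_Tr]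
      intro g w' μ m e
      exact (Cl_orb _).orb_subset hw2
        (h1.2.2 (h2.flagIn (h1.2.1.orb_subset hu hw) g w' μ m e))
    · rw [mv_neg fun h => hb ((hiff hP).1 h),
        mv_neg fun h => hb ((Cl_orb _).orb_subset h (h1.2.2 hu))]
      exact mvN_relab h2.hok (ClR_Tr _ _) (Adm_rep hP) (NS_rep hP) ⟨b, rfl, rfl⟩
  have nmem : ∀ (n : Tl X) {u : X}, S.HOK n → Cl M (hdom n) → u ∈ S.Pt → u ∉ hdom n →
      S.act b (S.mvN n u) = S.mvN n (b • u) := by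
    intro n u h1 hc hP hu
    rw [mvN_notMem hu, act]
    dsimp only
    have hv := valid_pullU h1 (ClR_Tr (S.rep u) u) (Adm_rep hP)
    by_cases hb : u ∈ orb M (b • u)
    · rw [mv_pos ((hiff hP).2 hb), mvN_notMem fun h => hu (hc.orb_subset h hb), hrep hP,
        relab_U hv.1 _ (ClR_Tr _ _) (hA hP),
        p5 n _ _ h1 (ClR_Tr _ _) (Adm_rep hP) (ClR_Tr _ _) (hA hP) (hN hP), hT hP]
      rw [ran_Tr]
      exact hv.2.trans ((pre_subset_dom _ _).trans ((dom_Tr _ _).subset.trans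
        ((Cl_orb _).orb_subset ((hiff hP).2 hb))))
    · rw [mv_neg fun h => hb ((hiff hP).1 h)]
      exact (q_aux n).2 _ _ _ h1 (ClR_Tr _ _) (Adm_rep hP) (NS_rep hP) ⟨b, rfl, rfl⟩
        (S.P_smul (rep_spec hP).1 b)
  have hneg : ∀ {w u : X}, w ∉ orb M u → w ∉ orb M (b • u) :=
    fun hw h => hw ((Cl_orb _).orb_subset ⟨b, rfl⟩ h)
  induction n with
  | top => intro w u K h1 _ hu; rw [mv_top, mv_top, act, mv_top, hrep (h1.mem_Pt hu)]
  | virt D =>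
    intro w u K h1 h2 hu
    by_cases hw : w ∈ orb M u
    · exact pos _ h1 h2 hu hw
    rw [mv_neg hw, mv_neg (hneg hw)]
    by_cases hD : u ∈ D
    · rw [mvN_virt hD, mvN_virt (h2.1 b u hD), act, mv_top, hrep (h1.mem_Pt hu)]
    · exact nmem _ h2.hok h2.1 (h1.mem_Pt hu) hD
  | cons g w' μ n ih =>
    intro w u K h1 h2 hu
    by_cases hw : w ∈ orb M u
    · exact pos _ h1 h2 hu hw
    rw [mv_neg hw, mv_neg (hneg hw)]
    by_cases hD : u ∈ dom μ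
    · obtain ⟨u', hu'⟩ := hD
      rw [mvN_cons hu' h2.1.2.2.1, mvN_cons (h2.1.2.1 b _ _ hu') h2.1.2.2.1]
      exact ih h2.1.ctx h2.2.1 ⟨u, hu'⟩
    · exact nmem _ h2.hok h2.1.2.1.cl_dom (h1.mem_Pt hu) hD

theorem St.ctx {x : X × Tl X} (h : S.St x) : S.Ctx x.1 (orb M x.1) :=
  ⟨h.1, Cl_orb _, subset_rfl⟩

theorem act_act {x : X × Tl X} (h : S.St x) (a b : M) :
    S.act b (S.act a x) = S.act (b * a) x := by
  have := mv_mv b h.ctx h.2 ⟨a, rfl⟩
  rw [← mul_smul] at this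
  exact this

theorem mv_self {x : X × Tl X} (h : S.St x) : S.mv x.2 x.1 x.1 = x := by
  rw [mv_pos (mem_orb _), h.1.2, Tr_same,
    relab_idr (h.2.flagIn (mem_orb _)) h.2.hdom_subset]

theorem act_fix {x : X × Tl X} (h : S.St x) {a : M} (ha : a • x.1 = x.1) : S.act a x = x := by
  rw [act, ha, mv_self h]

theorem valid_act {x : X × Tl X} (h : S.St x) (a : M) :
    S.St (S.act a x) ∧ S.le (S.act a x).1 (a • x.1) := valid_mv h.ctx h.2 ⟨a, rfl⟩

end LS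

end Pool.Agent.P.MP_9ca27c_lc.Ex
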