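import Mathlib
import Pool.Agent.P.MP_9ca27c_lc.ExGen

/-! Normal maps of a finite meet structure with a groupoid of isomorphisms between principal
ideals form a finite regular monoid whose subgroups are subgroups of the vertex groups. -/

namespace Pool.Agent.P.MP_9ca27c_lc.Ex

/-- `a` lies in the maximal subgroup at `e` -/
def InH {T : Type} [Mul T] (e a : T) : Prop :=
  e * a = a ∧ a * e = a ∧ ∃ b, a * b = e ∧ b * a = e

/-- every maximal subgroup of `T` is an image of a subsemigroup of `M` -/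
def Div (M : Type) [Monoid M] (T : Type) [Mul T] : Prop :=
  ∀ e : T, e * e = e → ∃ ρ : M → T → Prop, (∀ a, InH e a → ∃ r, ρ r a) ∧
    (∀ r r' a a', ρ r a → ρ r' a' → ρ (r * r') (a * a')) ∧ ∀ r a a', ρ r a → ρ r a' → a = a'

def Reg (S : Type*) [Mul S] : Prop := ∀ a : S, ∃ x : S, a * x * a = a

structure Frame (Ω : Type) (M : Type) [Monoid M] where
  le : Ω → Ω → Prop
  refl : ∀ x, le x x
  trans : ∀ {x y z}, le x y → le y z → le x z
  antisymm : ∀ {x y}, le x y → le y x → x = y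
  top : Ω
  le_top : ∀ x, le x top
  meet : ∀ x x', (∃ y, le y x ∧ le y x') → ∃ m, ∀ y, le y m ↔ le y x ∧ le y x'
  J : Ω → Ω → (Ω → Ω) → Prop
  J_refl : ∀ x, J x x id
  J_symm : ∀ {x x' j}, J x x' j →
    ∃ j', J x' x j' ∧ (∀ y, le y x → j' (j y) = y) ∧ ∀ y, le y x' → j (j' y) = y
  J_comp : ∀ {x x' x'' j j'}, J x x' j → J x' x'' j' → J x x'' (j' ∘ j)
  J_le : ∀ {x x' j y}, J x x' j → le y x → le (j y) x'
  J_res : ∀ {x x' j y}, J x x' j → le y x → J y (j y) j
  J_cov : ∀ x, Cov M (J x x) fun y => le y x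

namespace Frame

variable {Ω : Type} {M : Type} [Monoid M] (F : Frame Ω M)

def Nm (t : Function.End (Option Ω)) : Prop :=
  t none = none ∧ ∀ x, (∀ y, F.le y x → t (some y) = none) ∨
    ∃ x' x'' j, F.le x' x ∧ F.J x' x'' j ∧ (∀ y, F.le y x' → t (some y) = some (j y)) ∧
      (∀ y, F.le y x → t (some y) = none ∨ ∃ y'', F.le y'' x'' ∧ t (some y) = some y'')

def T : Submonoid (Function.End (Option Ω)) where
  carrier := {t | F.Nm t}
  one_mem' := by
    refine ⟨rfl, fun x => Or.inr ⟨x, x, id, F.refl x, F.J_refl x, fun y _ => rfl,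
      fun y hy => Or.inr ⟨y, hy, rfl⟩⟩⟩
  mul_mem' := by
    rintro s t ⟨hs0, hs⟩ ⟨ht0, ht⟩
    have hmul : ∀ o, (s * t) o = s (t o) := fun _ => rfl
    refine ⟨by rw [hmul, ht0, hs0], fun x => ?_⟩
    rcases ht x with h | ⟨x', x'', j, hx', hj, h1, h2⟩
    · left; intro y hy; rw [hmul, h y hy, hs0]
    rcases hs x'' with h | ⟨x₁, x₂, k, hx₁, hk, h3, h4⟩
    · left; intro y hy
      rcases h2 y hy with h5 | ⟨y'', h5, h6⟩
      · rw [hmul, h5, hs0]
      · rw [hmul, h6, h y'' h5]
    right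
    obtain ⟨j', hj', -, hj2⟩ := F.J_symm hj
    have hx₀ := F.J_le hj' hx₁
    have hr := F.J_res hj hx₀
    rw [hj2 x₁ hx₁] at hr
    refine ⟨j' x₁, x₂, k ∘ j, F.trans hx₀ hx', F.J_comp hr hk, fun y hy => ?_, fun y hy => ?_⟩
    · rw [hmul, h1 y (F.trans hy hx₀), h3 _ (F.J_le hr hy)]
      rfl
    · rcases h2 y hy with h5 | ⟨y'', h5, h6⟩
      · left; rw [hmul, h5, hs0]
      · rw [hmul, h6]; exact h4 y'' h5

theorem reg_T : Reg F.T := by
  classical
  rintro ⟨t, ht0, ht⟩
  rcases ht F.top with h | ⟨x', x'', j, -, hj, h1, h2⟩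
  · refine ⟨1, Subtype.ext (funext fun o => ?_)⟩
    change t (t o) = t o
    have : ∀ o, t o = none := fun o => by
      cases o with
      | none => exact ht0
      | some y => exact h y (F.le_top y)
    rw [this, this]
  obtain ⟨j', hj', -, hj2⟩ := F.J_symm hj
  let s : Function.End (Option Ω) := fun o =>
    match o with
    | none => none
    | some y => if F.le y x'' then some (j' y) else none
  have hs1 : ∀ y, F.le y x'' → s (some y) = some (j' y) := fun y hy => by
    simp only [s, if_pos hy]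
  have hs2 : ∀ y, ¬ F.le y x'' → s (some y) = none := fun y hy => by simp only [s, if_neg hy]
  have hs : F.Nm s := by
    refine ⟨rfl, fun z => ?_⟩
    by_cases hz : ∃ y, F.le y z ∧ F.le y x''
    · right
      obtain ⟨m, hm⟩ := F.meet z x'' hz
      have hm0 := (hm m).1 (F.refl m)
      have hr := F.J_res hj' hm0.2
      refine ⟨m, j' m, j', hm0.1, hr, fun y hy => hs1 y (F.trans hy hm0.2), fun y hy => ?_⟩
      by_cases hyx : F.le y x''
      · exact Or.inr ⟨j' y, F.J_le hr ((hm y).2 ⟨hy, hyx⟩), hs1 y hyx⟩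
      · exact Or.inl (hs2 y hyx)
    · left; intro y hy; exact hs2 y fun h => hz ⟨y, hy, h⟩
  refine ⟨⟨s, hs⟩, Subtype.ext (funext fun o => ?_)⟩
  change t (s (t o)) = t o
  cases o with
  | none => rw [ht0]; exact ht0
  | some y =>
    rcases h2 y (F.le_top y) with h5 | ⟨y'', h5, h6⟩
    · rw [h5]; exact ht0
    · rw [h6, hs1 y'' h5, h1 _ (F.J_le hj' h5), hj2 y'' h5]

theorem div_T : Div M F.T := by
  rintro ⟨e, he0, he⟩ h1
  have e1 : ∀ o, e (e o) = e o := fun o => congrFun (congrArg Subtype.val h1) o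
  rcases id he F.top with h | ⟨x', x'', j, -, hj, g1, g2⟩
  · have : ∀ o, e o = none := fun o => by
      cases o with
      | none => exact he0
      | some y => exact h y (F.le_top y)
    refine ⟨fun _ a => a = ⟨e, he0, he⟩, fun a ha => ⟨1, Subtype.ext (funext fun o => ?_)⟩, ?_,
      fun r a a' k k' => k.trans k'.symm⟩
    · have e2 : e (a.1 o) = a.1 o := congrFun (congrArg Subtype.val ha.1) o
      change a.1 o = e o
      rw [← e2, this, this]
    · rintro r r' _ _ rfl rfl
      exact h1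
  obtain ⟨j', hj', -, hj2⟩ := F.J_symm hj
  have fix1 : ∀ y, F.le y x'' → e (some y) = some y := by
    intro y hy
    have hz2 := g1 _ (F.J_le hj' hy)
    rw [hj2 y hy] at hz2
    rw [← hz2, e1]
  have fix2 : ∀ o y, e o = some y → F.le y x'' := by
    intro o y h
    cases o with
    | none => rw [he0] at h; cases h
    | some z =>
      rcases g2 z (F.le_top z) with h5 | ⟨y'', h5, h6⟩
      · rw [h5] at h; cases h
      · rw [h6] at h; cases h; exact h5
  obtain ⟨ρ, r1, r2, r3, r4⟩ := F.J_cov x''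
  refine ⟨fun r a => (∀ o, a.1 (e o) = a.1 o) ∧
    ∃ k, ρ r k ∧ ∀ y, F.le y x'' → a.1 (some y) = some (k y), ?_, ?_, ?_⟩
  · rintro ⟨a, ha0, ha⟩ ⟨h2, h3, ⟨b, hb0, hb1⟩, h4, h5⟩
    have e2 : ∀ o, e (a o) = a o := fun o => congrFun (congrArg Subtype.val h2) o
    have e3 : ∀ o, a (e o) = a o := fun o => congrFun (congrArg Subtype.val h3) o
    have e4 : ∀ o, a (b o) = e o := fun o => congrFun (congrArg Subtype.val h4) o
    have e5 : ∀ o, b (a o) = e o := fun o => congrFun (congrArg Subtype.val h5) o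
    have ane : ∀ y, F.le y x'' → a (some y) ≠ none := by
      intro y hy h
      have := e5 (some y)
      rw [h, hb0, fix1 y hy] at this
      cases this
    rcases ha x'' with h | ⟨x₁, x₂, k, hx₁, hk, k1, k2⟩
    · exact absurd (h x'' (F.refl _)) (ane _ (F.refl _))
    obtain ⟨k', hk', -, hk2⟩ := F.J_symm hk
    have surj : ∀ y, F.le y x₂ → ∃ z, F.le z x₁ ∧ a (some z) = some y := by
      intro y hy
      exact ⟨k' y, F.J_le hk' hy, by rw [k1 _ (F.J_le hk' hy), hk2 y hy]⟩
    have l1 : F.le x₂ x'' := by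
      obtain ⟨z, -, hz⟩ := surj x₂ (F.refl _)
      exact fix2 (a (some z)) x₂ (by rw [e2, hz])
    have l2 : F.le x'' x₂ := by
      have h6 : a (e (b (some x''))) = some x'' := by rw [e3, e4, fix1 _ (F.refl _)]
      cases h7 : e (b (some x'')) with
      | none => rw [h7, ha0] at h6; cases h6
      | some z =>
        rw [h7] at h6
        rcases k2 z (fix2 _ _ h7) with h8 | ⟨y'', h8, h9⟩
        · rw [h8] at h6; cases h6
        · rw [h9] at h6; cases h6; exact h8
    obtain rfl := F.antisymm l1 l2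
    have l3 : F.le x₂ x₁ := by
      rcases k2 x₂ (F.refl _) with h8 | ⟨y'', h8, h9⟩
      · exact absurd h8 (ane _ (F.refl _))
      · obtain ⟨z, hz1, hz2⟩ := surj y'' h8
        have h10 := e5 (some z)
        rw [hz2, ← h9, e5, fix1 _ (F.refl _), fix1 _ (F.trans hz1 hx₁)] at h10
        cases h10; exact hz1
    obtain rfl := F.antisymm l3 hx₁
    obtain ⟨r, hr⟩ := r1 k hk
    exact ⟨r, e3, k, hr, k1⟩
  · rintro r r' a a' ⟨p1, k, p2, p3⟩ ⟨q1, k', q2, q3⟩
    refine ⟨fun o => congrArg a.1 (q1 o), k ∘ k', r3 _ _ _ _ p2 q2, fun y hy => ?_⟩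
    change a.1 (a'.1 (some y)) = _
    rw [q3 y hy, p3 _ (F.J_le (r2 _ _ q2) hy)]
    rfl
  · rintro r a a' ⟨p1, k, p2, p3⟩ ⟨q1, k', q2, q3⟩
    refine Subtype.ext (funext fun o => ?_)
    rw [← p1, ← q1]
    cases h7 : e o with
    | none => rw [a.2.1, a'.2.1]
    | some z => rw [p3 z (fix2 _ _ h7), q3 z (fix2 _ _ h7), r4 _ _ _ p2 q2 z (fix2 _ _ h7)]

theorem exists_hom [Finite Ω] (act : M → Ω → Ω)
    (h1 : ∀ x, act 1 x = x) (h2 : ∀ a b x, act (a * b) x = act a (act b x))
    (h3 : ∀ a x, ∃ x', F.le x' x ∧ F.J x' (act a x) (act a))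
    (h4 : ∀ a x y, F.le y x → F.le (act a y) (act a x)) :
    ∃ (T : Type) (_ : Monoid T), Finite T ∧ Reg T ∧ Div M T ∧
      ∃ φ : M →* T, ∀ a b, φ a = φ b → ∀ x, act a x = act b x := by
  have hmem : ∀ a, (show Function.End (Option Ω) from Option.map (act a)) ∈ F.T := by
    intro a
    refine ⟨rfl, fun x => Or.inr ?_⟩
    obtain ⟨x', hx', h⟩ := h3 a x
    exact ⟨x', act a x, act a, hx', h, fun y _ => rfl,
      fun y hy => Or.inr ⟨_, h4 a x y hy, rfl⟩⟩
  have hfin : Finite (Function.End (Option Ω)) := inferInstanceAs (Finite (Option Ω → Option Ω))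
  refine ⟨F.T, inferInstance, inferInstance, F.reg_T, F.div_T,
    ⟨⟨fun a => ⟨_, hmem a⟩, ?_⟩, ?_⟩, ?_⟩
  · refine Subtype.ext (funext fun o => ?_)
    cases o with
    | none => rfl
    | some y => exact congrArg some (h1 y)
  · intro a b
    refine Subtype.ext (funext fun o => ?_)
    cases o with
    | none => rfl
    | some y => exact congrArg some (h2 a b y)
  · intro a b h x
    have := congrFun (congrArg Subtype.val h) (some x)
    exact Option.some.inj this

end Frame

end Pool.Agent.P.MP_9ca27c_lc.Ex
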