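import Mathlib
import Pool.Agent.P.MP_9ca27c_lc.ExAct

/-! Grafting of stacks and the induced order. -/

namespace Pool.Agent.P.MP_9ca27c_lc.Ex

open Set

variable {M : Type} [Monoid M] {X : Type} [MulAction M X]

def ty : Tl X → X → Set X → Ty X
  | .top, w, K => .R w K
  | .virt D, _, _ => .U D
  | .cons _ w' μ n, _, _ => ty n w' (ran μ)

def graft (M : Type) [Monoid M] {X : Type} [MulAction M X] : Tl X → X → X × Tl X → X × Tl X
  | .top, _, p => p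
  | .virt _, w, p => (w, p.2)
  | .cons g w' μ n, w, p => (w, lv M g w' μ (graft M n w' p))

def vis (M : Type) [Monoid M] {X : Type} [MulAction M X] : Ty X → X × Tl X → Set X
  | .R w K, z => img (Tr M w z.1) K
  | .U _, _ => ∅

def tyE (M : Type) [Monoid M] {X : Type} [MulAction M X] (τ : Ty X) (z : X × Tl X) : Ty X :=
  ty z.2 z.1 (vis M τ z)

def gr (M : Type) [Monoid M] {X : Type} [MulAction M X] (z s : X × Tl X) : X × Tl X :=
  graft M z.2 z.1 s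

theorem g_fst {n : Tl X} (h : n ≠ .top) (w : X) (z : X × Tl X) : (graft M n w z).1 = w := by
  cases n with
  | top => exact (h rfl).elim
  | virt D => rfl
  | cons => rfl

theorem g_ne {n : Tl X} (h : n ≠ .top) (w w₂ : X) (z : X × Tl X) :
    graft M n w z = (w, (graft M n w₂ z).2) := by
  cases n with
  | top => exact (h rfl).elim
  | virt D => rfl
  | cons => rfl

theorem ty_ne {n : Tl X} (h : n ≠ .top) (w w₂ : X) (K K₂ : Set X) : ty n w K = ty n w₂ K₂ := by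
  cases n with
  | top => exact (h rfl).elim
  | virt D => rfl
  | cons => rfl

namespace LS

variable (S : LS M X)

def TyOK : Ty X → Prop
  | .R w K => S.Ctx w K
  | .U D => Cl M D ∧ ∃ w ∈ S.Pt, D ⊆ orb M w

def topE : Ty X → X × Tl X
  | .R w _ => (w, .top)
  | .U D => (S.top, .virt D)

def LeC (n : Tl X) (w : X) (K : Set X) (y : X × Tl X) : Prop :=
  ∃ z, S.PT (ty n w K) z ∧ y = graft M n w z

variable {S}

theorem g_ok {n : Tl X} : ∀ {w : X} {K : Set X}, S.Ctx w K → S.Nrm n w K → S.TyOK (ty n w K) := by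
  induction n with
  | top => intro w K h1 _; exact h1
  | virt D => intro w K h1 h2; exact ⟨h2.1, w, h1.1.1, h2.2.1.trans h1.2.2⟩
  | cons g w' μ n ih => intro w K _ h2; exact ih h2.1.ctx h2.2.1

theorem g_valid {n : Tl X} : ∀ {w : X} {K : Set X} {z : X × Tl X}, S.Ctx w K → S.Nrm n w K →
    S.PT (ty n w K) z → S.PT (.R w K) (graft M n w z) := by
  induction n with
  | top => intro w K z _ _ h3; exact h3
  | virt D =>
    intro w K z h1 h2 h3
    exact PT_same h1 (h3.2.1.nrm (h3.2.2.trans h2.2.1) fun h => h2.2.2 (h3.2.2 h))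
  | cons g w' μ n ih =>
    intro w K z h1 h2 h3
    exact PT_same h1 (Nrm_lv h2.1 h2.2.2.1 h2.2.2.2 (ih h2.1.ctx h2.2.1 h3))

theorem g_validU {n : Tl X} {w : X} {K : Set X} {z : X × Tl X} (h : S.Uv n)
    (h3 : S.PT (ty n w K) z) :
    S.Uv (graft M n w z).2 ∧ hdom (graft M n w z).2 ⊆ hdom n := by
  cases n with
  | top => exact h.elim
  | virt D => exact h3.2
  | cons g w' μ n =>
    obtain ⟨rfl, k1, k2, k3⟩ := h
    exact ⟨Uv_lv k1 k3 (g_valid k1.ctx k2 h3), (hdom_lv k1.2.2.2 _).subset⟩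

theorem g_ty {n : Tl X} : ∀ {w : X} {K : Set X} {r : X × Tl X}, S.PT (ty n w K) r →
    tyE M (.R w K) (graft M n w r) = tyE M (ty n w K) r := by
  induction n with
  | top => intro w K r _; rfl
  | virt D => intro w K r h; exact ty_ne h.2.1.ne_top _ _ _ _
  | cons g w' μ n ih =>
    intro w K r h
    rw [show ty (.cons g w' μ n) w K = ty n w' (ran μ) from rfl, ← ih h]
    simp only [tyE, graft, lv, ty, vis, ran_cp]

theorem g_assoc {n : Tl X} : ∀ {w : X} {K : Set X} {r s : X × Tl X}, S.Ctx w K → S.Nrm n w K →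
    S.PT (ty n w K) r → S.PT (tyE M (ty n w K) r) s →
    gr M (graft M n w r) s = graft M n w (gr M r s) := by
  induction n with
  | top => intro w K r s _ _ _ _; rfl
  | virt D => intro w K r s _ _ h _; exact g_ne h.2.1.ne_top _ _ _
  | cons g w' μ n ih =>
    intro w K r s _ h2 h3 h4
    have hv := g_valid h2.1.ctx h2.2.1 h3
    have h5 : S.PT (tyE M (.R w' (ran μ)) (graft M n w' r)) s := by
      rw [g_ty (n := n) h3]; exact h4
    have hv2 := g_valid (hv.ctx h2.1.2.1.cl_ran) hv.2.2 h5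
    have := ih h2.1.ctx h2.2.1 h3 h4
    simp only [gr, graft] at this ⊢
    rw [← this, lv, graft, lv_lv _ _ _ hv2.2.1]

theorem topE_valid {τ : Ty X} (h : S.TyOK τ) : S.PT τ (S.topE τ) := by
  cases τ with
  | R w K => exact PT_same h trivial
  | U D => exact ⟨rfl, h.1, subset_rfl⟩

theorem g_top {n : Tl X} : ∀ {w : X} {K : Set X}, S.HOK n →
    graft M n w (S.topE (ty n w K)) = (w, n) := by
  induction n with
  | top => intro w K _; rfl
  | virt D => intro w K _; rfl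
  | cons g w' μ n ih =>
    intro w K h
    simp only [graft, ty]
    rw [ih h.2.hok, lv_same h.1.2.2.2]

theorem g_inj {n : Tl X} : ∀ {w : X} {K : Set X} {z₁ z₂ : X × Tl X}, S.PT (ty n w K) z₁ →
    S.PT (ty n w K) z₂ → graft M n w z₁ = graft M n w z₂ → z₁ = z₂ := by
  induction n with
  | top => intro w K z₁ z₂ _ _ h; exact h
  | virt D =>
    intro w K z₁ z₂ h1 h2 h
    exact Prod.ext (h1.1.trans h2.1.symm) (Prod.mk.inj h).2
  | cons g w' μ n ih =>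
    intro w K z₁ z₂ h1 h2 h
    simp only [graft, lv, Prod.mk.injEq, Tl.cons.injEq, true_and] at h
    exact ih h1 h2 (Prod.ext h.1 h.2.2)

theorem PT.hok {τ : Ty X} {r : X × Tl X} (h : S.PT τ r) : S.HOK r.2 := by
  cases τ with
  | R w K => exact h.2.2.hok
  | U D => exact h.2.1.hok

theorem tyE_ok {τ : Ty X} {r : X × Tl X} (h : S.TyOK τ) (hr : S.PT τ r) :
    S.TyOK (tyE M τ r) := by
  cases τ with
  | R w K => exact g_ok (hr.ctx h.2.1) hr.2.2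
  | U D =>
    obtain ⟨w, n⟩ := r
    cases n with
    | top => exact hr.2.1.elim
    | virt D₁ =>
      obtain ⟨w', h1, h2⟩ := h.2
      exact ⟨hr.2.1, w', h1, hr.2.2.trans h2⟩
    | cons g w' μ n => exact g_ok (n := n) hr.2.1.2.1.ctx hr.2.1.2.2.1

theorem gr_valid {τ : Ty X} {r s : X × Tl X} (h : S.TyOK τ) (hr : S.PT τ r)
    (hs : S.PT (tyE M τ r) s) : S.PT τ (gr M r s) := by
  cases τ with
  | R w K => exact (g_valid (hr.ctx h.2.1) hr.2.2 hs).trans hr.2.1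
  | U D =>
    have := g_validU hr.2.1 hs
    exact ⟨(g_fst hr.2.1.ne_top _ _).trans hr.1, this.1, this.2.trans hr.2.2⟩

theorem LeC.refl {n : Tl X} {w : X} {K : Set X} (h1 : S.Ctx w K) (h2 : S.Nrm n w K) :
    S.LeC n w K (w, n) := ⟨_, topE_valid (g_ok h1 h2), (g_top h2.hok).symm⟩

theorem LeC.valid {n : Tl X} {w : X} {K : Set X} {y : X × Tl X} (h1 : S.Ctx w K)
    (h2 : S.Nrm n w K) (h : S.LeC n w K y) : S.PT (.R w K) y := by
  obtain ⟨z, hz, rfl⟩ := h; exact g_valid h1 h2 hz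

theorem LeC.trans {n : Tl X} {w : X} {K : Set X} {y y' : X × Tl X} (h1 : S.Ctx w K)
    (h2 : S.Nrm n w K) (h : S.LeC n w K y) (h' : S.LeC y.2 y.1 (img (Tr M w y.1) K) y') :
    S.LeC n w K y' := by
  obtain ⟨z, hz, rfl⟩ := h
  obtain ⟨s, hs, rfl⟩ := h'
  have hs' : S.PT (tyE M (ty n w K) z) s := by rw [← g_ty hz]; exact hs
  exact ⟨_, gr_valid (g_ok h1 h2) hz hs', g_assoc h1 h2 hz hs'⟩

theorem LeC_top {w : X} {K : Set X} {y : X × Tl X} : S.LeC .top w K y ↔ S.PT (.R w K) y :=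
  ⟨by rintro ⟨z, hz, rfl⟩; exact hz, fun h => ⟨y, h, rfl⟩⟩

theorem LeC_virt {w : X} {K D : Set X} {y : X × Tl X} :
    S.LeC (.virt D) w K y ↔ y.1 = w ∧ S.Uv y.2 ∧ hdom y.2 ⊆ D :=
  ⟨by rintro ⟨z, hz, rfl⟩; exact ⟨rfl, hz.2⟩,
    fun h => ⟨(S.top, y.2), ⟨rfl, h.2⟩, Prod.ext h.1 rfl⟩⟩

theorem LeC_cons {w w' : X} {K : Set X} {g : Option X} {μ : Rl X} {n : Tl X} {y : X × Tl X} :
    S.LeC (.cons g w' μ n) w K y ↔ ∃ q, S.LeC n w' (ran μ) q ∧ y = (w, lv M g w' μ q) :=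
  ⟨by rintro ⟨z, hz, rfl⟩; exact ⟨_, ⟨z, hz, rfl⟩, rfl⟩,
    by rintro ⟨_, ⟨z, hz, rfl⟩, rfl⟩; exact ⟨z, hz, rfl⟩⟩

theorem LeC.fst {n : Tl X} {w : X} {K : Set X} {y : X × Tl X} (h : S.LeC n w K y)
    (hn : n ≠ .top) : y.1 = w := by
  obtain ⟨z, -, rfl⟩ := h; exact g_fst hn _ _

theorem LeC.antisymm {n : Tl X} : ∀ {w : X} {K : Set X} {y : X × Tl X}, S.Ctx w K → S.Nrm n w K →
    S.LeC n w K y → S.LeC y.2 y.1 (img (Tr M w y.1) K) (w, n) → y = (w, n) := by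
  induction n with
  | top =>
    rintro w K ⟨u, m⟩ h1 _ h3 h4
    rw [LeC_top] at h3
    cases m with
    | top => rw [LeC_top] at h4; rw [show u = w from h3.1.eq h1.1 h3.2.1 h4.2.1]
    | virt D => rw [LeC_virt] at h4; exact h4.2.1.elim
    | cons => rw [LeC_cons] at h4; obtain ⟨q, -, h⟩ := h4; cases h
  | virt D =>
    rintro w K ⟨u, m⟩ _ _ h3 h4
    rw [LeC_virt] at h3
    cases m with
    | top => exact h3.2.1.elim
    | virt D₁ =>
      rw [LeC_virt] at h4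
      rw [show u = w from h3.1, show D₁ = D from h3.2.2.antisymm h4.2.2]
    | cons => rw [LeC_cons] at h4; obtain ⟨q, -, h⟩ := h4; cases h
  | cons g w' μ n ih =>
    intro w K y _ h2 h3 h4
    obtain ⟨q, hq, rfl⟩ := LeC_cons.1 h3
    obtain ⟨q', hq', h⟩ := LeC_cons.1 h4
    simp only [lv, Prod.mk.injEq, Tl.cons.injEq, true_and] at h
    obtain rfl : q' = (w', n) := Prod.ext h.1.symm h.2.2.symm
    rw [ran_cp] at hq'
    rw [ih h2.1.ctx h2.2.1 hq hq', lv_same h2.1.2.2.2]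

def Low (S : LS M X) (n : Tl X) (w : X) (ν : Rl X) (n' : Tl X) (w' : X) (ν' : Rl X)
    (y : X × Tl X) : Prop :=
  S.LeC n w (ran ν) y ∧ S.LeC n' w' (ran ν') y ∧ cp ν (Tr M w y.1) = cp ν' (Tr M w' y.1)

theorem meet_aux [Finite M] {n : Tl X} : ∀ {w : X} {ν : Rl X} {n' : Tl X} {w' : X} {ν' : Rl X},
    S.Lev w ν → S.Nrm n w (ran ν) → S.Lev w' ν' → S.Nrm n' w' (ran ν') →
    (∃ y, S.Low n w ν n' w' ν' y) →
    ∃ m : X × Tl X, S.PT (.R w (ran ν)) m ∧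
      ∀ y, S.LeC m.2 m.1 (img (Tr M w m.1) (ran ν)) y ↔ S.Low n w ν n' w' ν' y := by
  -- the case where the second stack lies below the first one
  have right : ∀ {n : Tl X} {w : X} {ν : Rl X} {n' : Tl X} {w' : X} {ν' : Rl X},
      S.Lev w ν → S.Nrm n w (ran ν) → S.Lev w' ν' → S.Nrm n' w' (ran ν') → n' ≠ .top →
      (∃ y, S.Low n w ν n' w' ν' y) →
      (cp ν (Tr M w w') = ν' → ∀ y, S.LeC n' w' (ran ν') y → S.LeC n w (ran ν) y) →
      ∃ m : X × Tl X, S.PT (.R w (ran ν)) m ∧ ∀ y,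
        S.LeC m.2 m.1 (img (Tr M w m.1) (ran ν)) y ↔ S.Low n w ν n' w' ν' y := by
    rintro n w ν n' w' ν' h1 h2 h3 h4 hn ⟨y₀, -, k2, k3⟩ h
    rw [k2.fst hn, cp_Tr_same h3.2.2.2] at k3
    refine ⟨(w', n'), (h k3 _ (LeC.refl h3.ctx h4)).valid h1.ctx h2, fun y => ?_⟩
    dsimp only
    rw [← ran_cp, k3]
    refine ⟨fun hy => ⟨h k3 y hy, hy, ?_⟩, fun hy => hy.2.1⟩
    rw [hy.fst hn, cp_Tr_same h3.2.2.2, k3]
  have left : ∀ {n : Tl X} {w : X} {ν : Rl X} {n' : Tl X} {w' : X} {ν' : Rl X},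
      S.Lev w ν → S.Nrm n w (ran ν) → n ≠ .top → (∃ y, S.Low n w ν n' w' ν' y) →
      (cp ν' (Tr M w' w) = ν → ∀ y, S.LeC n w (ran ν) y → S.LeC n' w' (ran ν') y) →
      ∃ m : X × Tl X, S.PT (.R w (ran ν)) m ∧ ∀ y,
        S.LeC m.2 m.1 (img (Tr M w m.1) (ran ν)) y ↔ S.Low n w ν n' w' ν' y := by
    rintro n w ν n' w' ν' h1 h2 hn ⟨y₀, k1, -, k3⟩ h
    rw [k1.fst hn, cp_Tr_same h1.2.2.2] at k3
    refine ⟨(w, n), PT_same h1.ctx h2, fun y => ?_⟩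
    dsimp only
    rw [img_Tr_same h1.2.2.2]
    refine ⟨fun hy => ⟨hy, h k3.symm y hy, ?_⟩, fun hy => hy.1⟩
    rw [hy.fst hn, cp_Tr_same h1.2.2.2, ← k3]
  have below : ∀ {w : X} {ν : Rl X} {n' : Tl X} {w' : X} {ν' : Rl X}, S.Lev w' ν' →
      S.Nrm n' w' (ran ν') → S.le w' w → cp ν (Tr M w w') = ν' →
      ∀ y, S.LeC n' w' (ran ν') y → S.LeC .top w (ran ν) y := by
    intro w ν n' w' ν' h3 h4 h5 h6 y hy
    rw [LeC_top]
    refine PT.trans h5 ?_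
    rw [← ran_cp, h6]
    exact hy.valid h3.ctx h4
  have belowU : ∀ {D : Set X} {w : X} {K : Set X} {g : Option X} {w₁ : X} {μ : Rl X} {n₁ : Tl X}
      {w' : X} {K' : Set X} {y₀ : X × Tl X}, S.Nrm (.cons g w₁ μ n₁) w' K' →
      S.LeC (.virt D) w K y₀ → S.LeC (.cons g w₁ μ n₁) w' K' y₀ →
      ∀ y, S.LeC (.cons g w₁ μ n₁) w' K' y → S.LeC (.virt D) w K y := by
    intro D w K g w₁ μ n₁ w' K' y₀ h1 h2 h3 y hy
    obtain ⟨q, -, rfl⟩ := LeC_cons.1 h3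
    obtain ⟨rfl, h4, h5⟩ := LeC_virt.1 h2
    obtain rfl : g = none := h4.1
    obtain ⟨q', hq', rfl⟩ := LeC_cons.1 hy
    rw [hdom_lv h1.1.2.2.2] at h5
    exact LeC_virt.2 ⟨rfl, Uv_lv h1.1 h1.2.2.2.2 (hq'.valid h1.1.ctx h1.2.1),
      by rwa [hdom_lv h1.1.2.2.2]⟩
  induction n with
  | top =>
    intro w ν n' w' ν' h1 h2 h3 h4 hex
    by_cases hn : n' = .top
    swap
    · refine right h1 h2 h3 h4 hn hex (below h3 h4 ?_)
      obtain ⟨y₀, k1, k2, -⟩ := hex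
      rw [← k2.fst hn]; exact (LeC_top.1 k1).2.1
    subst hn
    obtain ⟨y₀, -, -, k3⟩ := hex
    have hd : dom ν = dom ν' := by rw [← dom_cp_Tr h1.2.2.2 y₀.1, k3, dom_cp_Tr h3.2.2.2]
    obtain ⟨m₀, hm₀, e₀⟩ := S.meet w h1.1.1 w' h3.1.1
    obtain ⟨m₁, hm₁, e₁⟩ := eqz_set hm₀ {q : M × M | ∃ k, ν k (q.1 • w) ∧ ν' k (q.2 • w')}
    have hr := rep_spec hm₁
    have hle : ∀ x, S.le x (S.rep m₁) ↔
        S.le x w ∧ S.le x w' ∧ cp ν (Tr M w x) = cp ν' (Tr M w' x) := by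
      intro x
      have : S.le x (S.rep m₁) ↔ S.le x m₁ := ⟨fun h => le_trans h hr.2.1, fun h => le_trans h hr.2.2⟩
      rw [this, e₁, show S.le x m₀ ↔ S.le x w ∧ S.le x w' from e₀ x, and_assoc]
      refine and_congr_right fun hx => and_congr_right fun hx' => ⟨fun h => ?_, fun h => ?_⟩
      · refine rl_ext fun k b => ⟨?_, ?_⟩
        · rintro ⟨_, h5, z, rfl, rfl⟩
          obtain ⟨k', h6⟩ := hd.subset ⟨_, h5⟩
          obtain ⟨z', rfl⟩ := h3.2.2.2 ⟨k, h6⟩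
          exact ⟨_, h6, z', rfl, h (z, z') ⟨k, h5, h6⟩⟩
        · rintro ⟨_, h5, z', rfl, rfl⟩
          obtain ⟨k', h6⟩ := hd.symm.subset ⟨_, h5⟩
          obtain ⟨z, rfl⟩ := h1.2.2.2 ⟨k, h6⟩
          exact ⟨_, h6, z, rfl, (h (z, z') ⟨k, h6, h5⟩).symm⟩
      · rintro ⟨z, z'⟩ ⟨k, h5, h6⟩
        have : cp ν' (Tr M w' x) k (z • x) := h ▸ ⟨_, h5, z, rfl, rfl⟩
        obtain ⟨_, h7, s, rfl, h8⟩ := this
        exact h8.trans (hx'.eq (h3.2.2.1.fn h7 h6))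
    refine ⟨(S.rep m₁, .top), ⟨rep_lam hm₁, ((hle _).1 (le_rfl _)).1, trivial⟩, fun y => ?_⟩
    simp only [Low, LeC_top, PT]
    constructor
    · rintro ⟨k1, k2, k4⟩
      rw [← img_cp, Tr_Tr w k2] at k4
      obtain ⟨k5, k6, k7⟩ := (hle _).1 k2
      exact ⟨⟨k1, k5, k4⟩, ⟨k1, k6, by rwa [← ran_cp, ← k7, ran_cp]⟩, k7⟩
    · rintro ⟨⟨k1, k5, k4⟩, ⟨-, k6, -⟩, k7⟩
      have k2 := (hle _).2 ⟨k5, k6, k7⟩
      exact ⟨k1, k2, by rwa [← img_cp, Tr_Tr w k2]⟩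
  | virt D =>
    intro w ν n' w' ν' h1 h2 h3 h4 hex
    cases n' with
    | top =>
      refine left h1 h2 (by simp) hex (below h1 h2 ?_)
      obtain ⟨y₀, k1, k2, -⟩ := hex
      rw [← k1.fst (by simp)]; exact (LeC_top.1 k2).2.1
    | virt D' =>
      obtain ⟨y₀, k1, k2, k3⟩ := hex
      obtain rfl : w = w' := (k1.fst (by simp)).symm.trans (k2.fst (by simp))
      rw [k1.fst (by simp)] at k3
      refine ⟨(w, .virt (D ∩ D')), PT_same h1.ctx ⟨h2.1.inter h4.1,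
        inter_subset_left.trans h2.2.1, fun h => h2.2.2 h.1⟩, fun y => ?_⟩
      simp only [Low, LeC_virt, subset_inter_iff]
      constructor
      · rintro ⟨rfl, k4, k5, k6⟩; exact ⟨⟨rfl, k4, k5⟩, ⟨rfl, k4, k6⟩, k3⟩
      · rintro ⟨⟨k4, k5, k6⟩, ⟨-, -, k7⟩, -⟩; exact ⟨k4, k5, k6, k7⟩
    | cons g w₁ μ n₁ =>
      refine right h1 h2 h3 h4 (by simp) hex fun _ => ?_
      obtain ⟨y₀, k1, k2, -⟩ := hex
      exact belowU h4 k1 k2
  | cons g w₁ μ n₁ ih =>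
    intro w ν n' w' ν' h1 h2 h3 h4 hex
    cases n' with
    | top =>
      refine left h1 h2 (by simp) hex (below h1 h2 ?_)
      obtain ⟨y₀, k1, k2, -⟩ := hex
      rw [← k1.fst (by simp)]; exact (LeC_top.1 k2).2.1
    | virt D' =>
      refine left h1 h2 (by simp) hex fun _ => ?_
      obtain ⟨y₀, k1, k2, -⟩ := hex
      exact belowU h2 k2 k1
    | cons g' w₁' μ' n₁' =>
      obtain ⟨y₀, k1, k2, k3⟩ := hex
      obtain rfl : w = w' := (k1.fst (by simp)).symm.trans (k2.fst (by simp))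
      rw [k1.fst (by simp)] at k3
      obtain ⟨q, hq, rfl⟩ := LeC_cons.1 k1
      obtain ⟨q', hq', e⟩ := LeC_cons.1 k2
      simp only [lv, Prod.mk.injEq, Tl.cons.injEq, true_and] at e
      obtain ⟨rfl, e1, e2, e3⟩ := e
      obtain rfl : q = q' := Prod.ext e1 e3
      obtain ⟨m, hmv, hm⟩ := ih h2.1 h2.2.1 h4.1 h4.2.1 ⟨q, hq, hq', e2⟩
      have hml : ∀ y, S.Low n₁ w₁ μ n₁' w₁' μ' y → lv M g m.1 (cp μ (Tr M w₁ m.1)) y =
          lv M g w₁ μ y := by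
        intro y hy
        refine lv_lv (S := S) _ _ _ ?_
        obtain ⟨m1, m2⟩ := m
        have := (hm y).2 hy
        by_cases h0 : m2 = .top
        · subst h0; exact (LeC_top.1 this).2.1
        · rw [this.fst h0]; exact le_rfl _
      refine ⟨(w, lv M g w₁ μ m), PT_same h1.ctx (Nrm_lv h2.1 h2.2.2.1 h2.2.2.2 hmv), fun y => ?_⟩
      simp only [Low]
      rw [lv, LeC_cons, LeC_cons, LeC_cons, ran_cp]
      constructor
      · rintro ⟨q₁, hq₁, rfl⟩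
        have hl := (hm q₁).1 hq₁
        refine ⟨⟨q₁, hl.1, by rw [hml _ hl]⟩, ⟨q₁, hl.2.1, ?_⟩, k3⟩
        rw [hml _ hl, lv, lv, hl.2.2]
      · rintro ⟨⟨q₁, hq₁, rfl⟩, ⟨q₂, hq₂, e⟩, -⟩
        simp only [lv, Prod.mk.injEq, Tl.cons.injEq, true_and] at e
        obtain rfl : q₁ = q₂ := Prod.ext e.1 e.2.2
        have hl : S.Low n₁ w₁ μ n₁' w₁' μ' q₁ := ⟨hq₁, hq₂, e.2.1⟩
        exact ⟨q₁, (hm q₁).2 hl, by rw [hml _ hl]⟩

end LS

end Pool.Agent.P.MP_9ca27c_lc.Ex
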