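import Mathlib
import Pool.Agent.P.MP_9ca27c_lc.ExGraft

/-! Isomorphisms between types of stacks. -/

namespace Pool.Agent.P.MP_9ca27c_lc.Ex

open Set

variable {M : Type} [Monoid M] {X : Type} [MulAction M X]

namespace LS

variable (S : LS M X)

def TI : Ty X → Ty X → X × Tl X → X × Tl X → Prop
  | .R w K, .R w' K', z, z' => (w = w' ∧ K = K' ∧ z' = z) ∨
      (w ∈ K ∧ w' ∈ K' ∧ ∃ a : M, S.le (a • w) w' ∧ S.le w' (a • w) ∧ w ∈ orb M (a • w) ∧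
        z' = S.act a z)
  | .U D, .U D', z, z' => ∃ σ, ClR M σ ∧ S.Adm σ ∧ S.NS σ ∧ dom σ = D' ∧ ran σ = D ∧
      z' = (S.top, S.relab z.2 σ)
  | _, _, _, _ => False

def TF : Ty X → Ty X → (X × Tl X → X × Tl X) → Prop
  | .R w K, .R w' K', r => (w = w' ∧ K = K' ∧ ∀ z, S.PT (.R w K) z → r z = z) ∨
      (w ∈ K ∧ w' ∈ K' ∧ ∃ a : M, S.le (a • w) w' ∧ S.le w' (a • w) ∧ w ∈ orb M (a • w) ∧
        ∀ z, S.PT (.R w K) z → r z = S.act a z)
  | .U D, .U D', r => ∃ σ, ClR M σ ∧ S.Adm σ ∧ S.NS σ ∧ dom σ = D' ∧ ran σ = D ∧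
      ∀ z, S.PT (.U D) z → r z = (S.top, S.relab z.2 σ)
  | _, _, _ => False

variable {S}

theorem PT_orb {w : X} {z : X × Tl X} : S.PT (.R w (orb M w)) z ↔ S.St z ∧ S.le z.1 w := by
  simp only [PT, St, img_Tr_orb]; tauto

theorem Ctx.eq_orb {w : X} {K : Set X} (h : S.Ctx w K) (hw : w ∈ K) : K = orb M w :=
  h.2.2.antisymm (h.2.1.orb_subset hw)

theorem TF_refl {τ : Ty X} {r : X × Tl X → X × Tl X} (h : S.TyOK τ)
    (hr : ∀ z, S.PT τ z → r z = z) : S.TF τ τ r := by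
  cases τ with
  | R w K => exact Or.inl ⟨rfl, rfl, hr⟩
  | U D =>
    refine ⟨idr D, h.1.clr_idr, Adm_idr D, NS_idr D, dom_idr D, ran_idr D, fun z hz => ?_⟩
    rw [hr z hz, relab_idr (hz.2.1.flagIn D) (Or.inr hz.2.2), ← hz.1]

theorem TF.ti {τ τ' : Ty X} {r : X × Tl X → X × Tl X} (h : S.TF τ τ' r) {z : X × Tl X}
    (hz : S.PT τ z) : S.TI τ τ' z (r z) := by
  cases τ <;> cases τ'
  · rcases h with ⟨h1, h2, h3⟩ | ⟨h1, h2, a, h3, h4, h5, h6⟩
    · exact Or.inl ⟨h1, h2, h3 z hz⟩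
    · exact Or.inr ⟨h1, h2, a, h3, h4, h5, h6 z hz⟩
  · exact h.elim
  · exact h.elim
  · obtain ⟨σ, h1, h2, h3, h4, h5, h6⟩ := h
    exact ⟨σ, h1, h2, h3, h4, h5, h6 z hz⟩

theorem TF.congr {τ τ' : Ty X} {r r' : X × Tl X → X × Tl X} (h : S.TF τ τ' r)
    (hr : ∀ z, S.PT τ z → r' z = r z) : S.TF τ τ' r' := by
  cases τ <;> cases τ'
  · rcases h with ⟨h1, h2, h3⟩ | ⟨h1, h2, a, h3, h4, h5, h6⟩
    · exact Or.inl ⟨h1, h2, fun z hz => (hr z hz).trans (h3 z hz)⟩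
    · exact Or.inr ⟨h1, h2, a, h3, h4, h5, fun z hz => (hr z hz).trans (h6 z hz)⟩
  · exact h.elim
  · exact h.elim
  · obtain ⟨σ, h1, h2, h3, h4, h5, h6⟩ := h
    exact ⟨σ, h1, h2, h3, h4, h5, fun z hz => (hr z hz).trans (h6 z hz)⟩

theorem TI_valid {τ τ' : Ty X} {z z' : X × Tl X} (h : S.TyOK τ) (h' : S.TyOK τ')
    (hz : S.PT τ z) (hI : S.TI τ τ' z z') : S.PT τ' z' := by
  cases τ <;> cases τ'
  · rcases hI with ⟨rfl, rfl, rfl⟩ | ⟨h1, h2, a, h3, -, -, rfl⟩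
    · exact hz
    · rw [Ctx.eq_orb h h1, PT_orb] at hz
      rw [Ctx.eq_orb h' h2, PT_orb]
      exact ⟨(valid_act hz.1 a).1, le_trans (valid_act hz.1 a).2 (le_trans (hz.2.smul a) h3)⟩
  · exact hI.elim
  · exact hI.elim
  · obtain ⟨σ, h1, h2, -, rfl, rfl, rfl⟩ := hI
    have := valid_pullU hz.2.1.hok h1 h2
    rw [← relab_U hz.2.1 hz.2.2 h1 h2] at this
    exact ⟨rfl, this.1, this.2.trans (pre_subset_dom _ _)⟩

theorem le.fix {a b : X} (h : S.le a b) {z : M} (e : z • b = b) : z • a = a := by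
  have := h.eq (z := z) (z' := 1) (by rwa [one_smul])
  rwa [one_smul] at this

theorem NS.adm_flip {σ : Rl X} (h : S.NS σ) : S.Adm (flip σ) := by
  obtain ⟨f, hf, h⟩ := h; exact ⟨f, hf, fun k k' e => h k' k e⟩

theorem Adm.ns_flip {σ : Rl X} (h : S.Adm σ) : S.NS (flip σ) := by
  obtain ⟨f, hf, h⟩ := h; exact ⟨f, hf, fun k k' e => h k' k e⟩

theorem TF.valid {τ τ' : Ty X} {r : X × Tl X → X × Tl X} (hI : S.TF τ τ' r) (h : S.TyOK τ)
    (h' : S.TyOK τ') {z : X × Tl X} (hz : S.PT τ z) : S.PT τ' (r z) :=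
  TI_valid h h' hz (hI.ti hz)

theorem TF_symm {τ τ' : Ty X} {r : X × Tl X → X × Tl X} (h : S.TyOK τ) (h' : S.TyOK τ')
    (hI : S.TF τ τ' r) : ∃ r', S.TF τ' τ r' ∧ (∀ z, S.PT τ z → r' (r z) = z) ∧
      ∀ z, S.PT τ' z → r (r' z) = z := by
  cases τ <;> cases τ'
  · rename_i w K w' K'
    rcases hI with ⟨rfl, rfl, h3⟩ | ⟨h1, h2, a, h3, h4, ⟨b, hb⟩, h6⟩
    · exact ⟨id, Or.inl ⟨rfl, rfl, fun _ _ => rfl⟩, h3, h3⟩
    · have hab : (a * b) • w' = w' := h4.fix (by rw [mul_smul, ← hb])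
      have hF : S.TF (.R w' K') (.R w K) (S.act b) := by
        refine Or.inr ⟨h2, h1, b, ?_, ?_, ⟨a, ?_⟩, fun _ _ => rfl⟩
        · have := h4.smul b; rwa [← hb] at this
        · have := h3.smul b; rwa [← hb] at this
        · rw [← mul_smul, hab]
      refine ⟨S.act b, hF, fun z hz => ?_, fun z hz => ?_⟩
      · rw [h6 z hz]
        rw [Ctx.eq_orb h h1, PT_orb] at hz
        rw [act_act hz.1, act_fix hz.1 (hz.2.fix (by rw [mul_smul, ← hb]))]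
      · rw [h6 _ (hF.valid h' h hz)]
        rw [Ctx.eq_orb h' h2, PT_orb] at hz
        rw [act_act hz.1, act_fix hz.1 (hz.2.fix hab)]
  · exact hI.elim
  · exact hI.elim
  · obtain ⟨σ, h1, h2, h3, rfl, rfl, h6⟩ := hI
    have hF : S.TF (.U (dom σ)) (.U (ran σ)) fun z => (S.top, S.relab z.2 (flip σ)) :=
      ⟨flip σ, h1.fl, h3.adm_flip, h2.ns_flip, rfl, rfl, fun _ _ => rfl⟩
    refine ⟨_, hF, fun z hz => ?_, fun z hz => ?_⟩
    · rw [h6 z hz]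
      dsimp only
      rw [relab_relab (hz.2.1.flagIn _) h3 h2.ns_flip, h2.flip_cp,
        relab_idr (hz.2.1.flagIn _) (Or.inr hz.2.2), ← hz.1]
    · rw [h6 _ (hF.valid h' h hz)]
      dsimp only
      have e : cp σ (flip σ) = idr (dom σ) := h3.adm_flip.flip_cp
      rw [relab_relab (hz.2.1.flagIn _) h2.ns_flip h3, e,
        relab_idr (hz.2.1.flagIn _) (Or.inr hz.2.2), ← hz.1]

theorem TF_comp {τ τ' τ'' : Ty X} {r r' : X × Tl X → X × Tl X} (h : S.TyOK τ) (h' : S.TyOK τ')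
    (hI : S.TF τ τ' r) (hI' : S.TF τ' τ'' r') : S.TF τ τ'' (r' ∘ r) := by
  have hv := fun z => hI.valid h h' (z := z)
  cases τ <;> cases τ' <;> cases τ'' <;> try first | exact hI.elim | exact hI'.elim
  · rename_i w K w' K' w'' K''
    rcases hI with ⟨rfl, rfl, h6⟩ | ⟨h1, h2, a, h3, h4, ⟨b, hb⟩, h6⟩
    · exact hI'.congr fun z hz => by rw [Function.comp, h6 z hz]
    rcases hI' with ⟨rfl, rfl, k6⟩ | ⟨-, k2, a', k3, k4, ⟨b', hb'⟩, k6⟩
    · exact Or.inr ⟨h1, h2, a, h3, h4, ⟨b, hb⟩, fun z hz => by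
        rw [Function.comp, k6 _ (hv z hz), h6 z hz]⟩
    refine Or.inr ⟨h1, k2, a' * a, ?_, ?_, ⟨b * b', ?_⟩, fun z hz => ?_⟩
    · rw [mul_smul]; exact le_trans (h3.smul a') k3
    · rw [mul_smul]; exact le_trans k4 (h4.smul a')
    · have := h3.fix (z := b' * a') (by rw [mul_smul, ← hb'])
      rw [mul_smul, mul_smul, ← mul_smul b', this, ← hb]
    · rw [Function.comp, k6 _ (hv z hz), h6 z hz]
      rw [Ctx.eq_orb h h1, PT_orb] at hz
      exact act_act hz.1 a a'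
  · obtain ⟨σ, h1, h2, h3, h4, rfl, h6⟩ := hI
    obtain ⟨σ', k1, k2, k3, rfl, k5, k6⟩ := hI'
    refine ⟨cp σ' σ, k1.comp h1, k2.comp h2, k3.comp h3, ?_, ?_, fun z hz => ?_⟩
    · rw [dom_cp, pre_of_ran (by rw [k5, h4])]
    · rw [ran_cp, img_of_dom (by rw [k5, h4])]
    · rw [Function.comp, k6 _ (hv z hz), h6 z hz]
      dsimp only
      rw [relab_relab (hz.2.1.flagIn _) h3 k3]

theorem TF_cov (hS : S.Rig) {τ : Ty X} (h : S.TyOK τ) : Cov M (S.TF τ τ) (S.PT τ) := by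
  cases τ with
  | R w K =>
    by_cases hw : w ∈ K
    · have hst : ∀ z, S.PT (.R w K) z → S.St z := fun z hz => by
        rw [Ctx.eq_orb h hw, PT_orb] at hz
        exact hz.1
      refine ⟨fun a j => S.TF (.R w K) (.R w K) j ∧ ∀ z, S.PT (.R w K) z → j z = S.act a z,
        fun j hj => ?_, fun _ _ k => k.1, fun r r' j j' k k' => ⟨TF_comp h h k'.1 k.1, ?_⟩,
        fun r j j' k k' z hz => (k.2 z hz).trans (k'.2 z hz).symm⟩
      · rcases id hj with ⟨-, -, h6⟩ | ⟨-, -, a, -, -, -, h6⟩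
        · exact ⟨1, hj, fun z hz => by rw [h6 z hz, act_fix (hst z hz) (one_smul _ _)]⟩
        · exact ⟨a, hj, h6⟩
      · intro z hz
        rw [Function.comp, k.2 _ (k'.1.valid h h hz), k'.2 z hz, act_act (hst z hz)]
    · refine ⟨fun _ j => ∀ z, S.PT (.R w K) z → j z = z, fun j hj => ⟨1, ?_⟩,
        fun _ _ k => TF_refl h k, fun r r' j j' k k' z hz => ?_,
        fun r j j' k k' z hz => (k z hz).trans (k' z hz).symm⟩
      · rcases hj with ⟨-, -, h6⟩ | ⟨h1, -⟩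
        · exact h6
        · exact absurd h1 hw
      · rw [Function.comp, k' z hz, k z hz]
  | U D =>
    obtain ⟨w, hw, hD⟩ := h.2
    obtain ⟨n, ⟨t, ht⟩, hn⟩ := hS w hw D hD
    have tf : ∀ {σ : Rl X} {g : X → X} {j : X × Tl X → X × Tl X}, ClR M σ → S.NS σ → dom σ = D →
        ran σ = D → g ∈ S.E → (∀ a b, σ a b → g a = b) →
        (∀ z, S.PT (.U D) z → j z = (S.top, S.relab z.2 σ)) → S.TF (.U D) (.U D) j :=
      fun h1 h3 h4 h5 hg h2 h6 => ⟨_, h1, ⟨_, hg, h2⟩, h3, h4, h5, h6⟩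
    refine ⟨fun r j => ∃ σ g, ClR M σ ∧ S.NS σ ∧ dom σ = D ∧ ran σ = D ∧ g ∈ S.E ∧
      (∀ a b, σ a b → g a = b) ∧ g n = r • n ∧
      ∀ z, S.PT (.U D) z → j z = (S.top, S.relab z.2 σ), ?_, ?_, ?_, ?_⟩
    · rintro j ⟨σ, h1, ⟨f, hf, h2⟩, h3, h4, h5, h6⟩
      obtain ⟨g, hg, k1, r, k2⟩ := hn f hf (bij_rel h2 h3 h4 h5).2
      exact ⟨r, σ, g, h1, h3, h4, h5, hg,
        fun a b hab => (k1 (h4.subset ⟨b, hab⟩)).trans (h2 a b hab), k2, h6⟩
    · rintro r j ⟨σ, g, h1, h3, h4, h5, hg, h2, -, h6⟩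
      exact tf h1 h3 h4 h5 hg h2 h6
    · rintro r r' j j' ⟨σ, g, h1, h3, h4, h5, hg, h2, h7, h6⟩
        ⟨σ', g', k1, k3, k4, k5, kg, k2, k7, k6⟩
      refine ⟨cp σ σ', g' ∘ g, h1.comp k1, h3.comp k3, ?_, ?_, S.comp_mem kg hg, ?_, ?_,
        fun z hz => ?_⟩
      · rw [dom_cp, pre_of_ran (by rw [h5, k4]), h4]
      · rw [ran_cp, img_of_dom (by rw [h5, k4]), k5]
      · rintro a c ⟨b, e1, e2⟩
        rw [Function.comp, h2 a b e1, k2 b c e2]
      · rw [Function.comp, h7, S.equiv kg, k7, mul_smul]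
      · rw [Function.comp, h6 _ ((tf k1 k3 k4 k5 kg k2 k6).valid h h hz), k6 z hz]
        dsimp only
        rw [relab_relab (hz.2.1.flagIn _) k3 h3]
    · rintro r j j' ⟨σ, g, h1, h3, h4, h5, hg, h2, h7, h6⟩
        ⟨σ', g', k1, k3, k4, k5, kg, k2, k7, k6⟩ z hz
      have e : σ = σ' := by
        refine rl_ext fun a b => ?_
        rw [(bij_rel h2 h3 h4 h5).1, (bij_rel k2 k3 k4 k5).1]
        refine and_congr_right fun ha => ?_
        obtain ⟨s, rfl⟩ := hD ha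
        rw [ht, S.equiv hg, S.equiv hg, S.equiv kg, S.equiv kg, h7, k7]
      rw [h6 z hz, k6 z hz, e]

theorem relab_res {m : Tl X} {σ : Rl X} {D : Set X} (h : S.Uv m) (h1 : hdom m ⊆ D)
    (h3 : S.NS σ) : S.relab m (cp σ (idr D)) = S.relab m σ := by
  rw [← relab_relab (h.flagIn _) (NS_idr D) h3, relab_idr (h.flagIn _) (Or.inr h1)]

theorem relab_ne_top {n : Tl X} (h : n ≠ .top) (σ : Rl X) : S.relab n σ ≠ .top := by
  cases n with
  | top => exact (h rfl).elim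
  | virt D => simp [relab]
  | cons => simp [relab]

theorem relab_graft {n : Tl X} {w : X} {K : Set X} {σ : Rl X} (hn : n ≠ .top)
    (hd : hdom n ⊆ ran σ) (h1 : ClR M σ) (h2 : S.Adm σ) (h3 : S.NS σ) (hT : S.TyOK (ty n w K))
    (w₂ : X) (K₂ : Set X) :
    ∃ r, S.TF (ty n w K) (ty (S.relab n σ) w₂ K₂) r ∧ ∀ s, S.PT (ty n w K) s →
      S.relab (graft M n w s).2 σ = (graft M (S.relab n σ) w₂ (r s)).2 := by
  cases n with
  | top => exact (hn rfl).elim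
  | virt D =>
    refine ⟨fun s => (S.top, S.relab s.2 (cp σ (idr D))), ⟨cp σ (idr D), h1.comp hT.1.clr_idr,
      h2.comp (Adm_idr D), h3.comp (NS_idr D), by rw [dom_cp, dom_idr], ?_, fun _ _ => rfl⟩,
      fun s hs => ?_⟩
    · rw [ran_cp, img_idr]; exact inter_eq_right.2 hd
    · exact (relab_res hs.2.1 hs.2.2 h3).symm
  | cons g w' μ n =>
    have e : ran (cp σ μ) = ran μ := by rw [ran_cp, img_of_dom hd]
    refine ⟨id, ?_, fun s _ => ?_⟩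
    · simp only [relab, ty, e]; exact TF_refl hT fun _ _ => rfl
    · simp only [relab, graft, lv, cp_assoc, id]

theorem TF_res {τ τ' : Ty X} {j : X × Tl X → X × Tl X} {r : X × Tl X} (h : S.TyOK τ)
    (h' : S.TyOK τ') (hr : S.PT τ r) (hI : S.TF τ τ' j) :
    ∃ j', S.TF (tyE M τ r) (tyE M τ' (j r)) j' ∧
      ∀ s, S.PT (tyE M τ r) s → j (gr M r s) = gr M (j r) (j' s) := by
  have hT := tyE_ok h hr
  have hg := fun s => gr_valid h hr (s := s)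
  cases τ <;> cases τ'
  · rename_i w K w' K'
    rcases hI with ⟨rfl, rfl, h6⟩ | ⟨h1, h2, a, h3, h4, h5, h6⟩
    · rw [h6 r hr]
      exact ⟨id, TF_refl hT fun _ _ => rfl, fun s hs => h6 _ (hg s hs)⟩
    obtain rfl := Ctx.eq_orb h h1
    obtain rfl := Ctx.eq_orb h' h2
    have hr' := PT_orb.1 hr
    rw [h6 r hr]
    suffices H : ∃ j', S.TF (tyE M (.R w (orb M w)) r) (tyE M (.R w' (orb M w')) (S.act a r)) j' ∧
        ∀ s, S.PT (tyE M (.R w (orb M w)) r) s → S.act a (gr M r s) = gr M (S.act a r) (j' s) by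
      obtain ⟨j', k1, k2⟩ := H
      exact ⟨j', k1, fun s hs => (h6 _ (hg s hs)).trans (k2 s hs)⟩
    obtain ⟨u, n⟩ := r
    have hu : u ∈ orb M (a • u) := by
      obtain ⟨b, hb⟩ := h5
      exact ⟨b, by rw [← mul_smul, hr'.2.fix (by rw [mul_smul, ← hb])]⟩
    have hP : a • u ∈ S.Pt := S.P_smul hr'.1.1.1 a
    have e : ∀ m, S.act a (u, m) = (S.rep (a • u), S.relab m (Tr M (S.rep (a • u)) (a • u))) :=
      fun m => mv_pos hu m
    simp only [tyE, vis, img_Tr_orb, gr, e] at hT ⊢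
    by_cases hn : n = .top
    · subst hn
      exact ⟨S.act a, Or.inr ⟨mem_orb _, mem_orb _, a, (rep_spec hP).2.2, (rep_spec hP).2.1,
        hu, fun _ _ => rfl⟩, fun _ _ => rfl⟩
    · obtain ⟨j', k1, k2⟩ := relab_graft hn (by
        rw [ran_Tr]
        exact (hr'.1.2.hdom_subset.resolve_left hn).trans ((Cl_orb _).orb_subset hu))
        (ClR_Tr _ _) (Adm_rep hP) (NS_rep hP) hT (S.rep (a • u)) (orb M (S.rep (a • u)))
      refine ⟨j', k1, fun s hs => ?_⟩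
      rw [g_ne hn u u, e, k2 s hs, ← g_ne (relab_ne_top hn _)]
  · exact hI.elim
  · exact hI.elim
  · obtain ⟨σ, h1, h2, h3, rfl, rfl, h6⟩ := hI
    obtain ⟨j', k1, k2⟩ := relab_graft hr.2.1.ne_top hr.2.2 h1 h2 h3 hT S.top ∅
    rw [h6 r hr]
    refine ⟨j', k1, fun s hs => ?_⟩
    rw [h6 _ (hg s hs)]
    simp only [gr]
    rw [k2 s hs, ← g_ne (relab_ne_top hr.2.1.ne_top _)]

end LS

end Pool.Agent.P.MP_9ca27c_lc.Ex
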