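import Mathlib
import Pool.Agent.P.MP_9ca27c_lc.ExIso

/-! The action on stacks is monotone and normal. -/

namespace Pool.Agent.P.MP_9ca27c_lc.Ex

open Set

variable {M : Type} [Monoid M] {X : Type} [MulAction M X]

namespace LS

variable {S : LS M X}

def Good (S : LS M X) (τ τ' : Ty X) (r : X × Tl X → X × Tl X) : Prop :=
  (∀ z, S.PT τ z → S.PT τ' (r z)) ∧
    ∃ s, S.PT τ s ∧ S.TF (tyE M τ s) τ' fun z => r (gr M s z)

theorem good_id {τ : Ty X} (h : S.TyOK τ) : S.Good τ τ id := by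
  refine ⟨fun z hz => hz, S.topE τ, topE_valid h, ?_⟩
  cases τ with
  | R w K =>
    simp only [tyE, topE, vis, ty, img_Tr_same h.2.2]
    exact TF_refl (τ := .R w K) h fun _ _ => rfl
  | U D => exact TF_refl h fun z hz => Prod.ext hz.1.symm rfl

theorem good_RR {w : X} {K L : Set X} (h : S.Ctx w K) (hL : Cl M L) (hLK : L ⊆ K) :
    S.Good (.R w K) (.R w L) fun z => S.resR z.2 z.1 (img (Tr M w z.1) L) := by
  have hc : S.Ctx w L := ⟨h.1, hL, hLK.trans h.2.2⟩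
  refine ⟨fun z hz => ?_, ?_⟩
  · have := valid_resR (hz.ctx h.2.1) hz.2.2 ((ClR_Tr _ _).cl_img hL) (img_mono _ hLK)
    exact this.trans hz.2.1
  by_cases e : L = K
  · subst e
    refine ⟨(w, .top), PT_same h trivial, ?_⟩
    simp only [tyE, vis, ty, img_Tr_same h.2.2, gr, graft]
    exact TF_refl (τ := .R w L) h fun z hz => resR_self (hz.ctx h.2.1) hz.2.2
  · have hw : w ∉ L := fun hw => e (h.eq_of_mem hL hLK hw)
    refine ⟨(w, .cons (some w) w (idr L) .top), PT_same h ⟨⟨h.1, hL.clr_idr, Adm_idr L,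
      by rw [ran_idr]; exact hc.2.2⟩, trivial, by rwa [dom_idr], by rwa [dom_idr], Or.inl rfl,
      le_rfl w, ?_⟩, ?_⟩
    · rintro a _ ⟨ha, rfl⟩
      obtain ⟨z, hz⟩ := hc.2.2 ha
      exact ⟨z, hz, hz⟩
    · simp only [tyE, ty, ran_idr, gr, graft, lv]
      refine TF_refl (τ := .R w L) hc fun z hz => ?_
      rw [img_Tr_same hc.2.2, resR_full hw (by
        rw [dom_cp_Tr (by rw [ran_idr]; exact hc.2.2), dom_idr]), img_cp, img_idr, inter_self,
        resR_self (hz.ctx hL) hz.2.2]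

theorem good_RU {w : X} {K : Set X} {ν : Rl X} (h : S.Ctx w K) (h1 : ClR M ν) (h2 : S.Adm ν)
    (h3 : ran ν ⊆ K) (hF : S.Fg w ν) :
    S.Good (.R w K) (.U (dom ν)) fun z => (S.top, S.gh z.2 z.1 (cp ν (Tr M w z.1))) := by
  have ho := h3.trans h.2.2
  refine ⟨fun z hz => ?_, (w, .virt (ran ν)), PT_same h ⟨h1.cl_ran, h3, hF.1⟩, ?_⟩
  · have := valid_gh (hz.ctx h.2.1) hz.2.2 (h1.comp (ClR_Tr _ _)) (h2.comp (Adm_Tr hz.2.1))
      ((ran_cp _ _).subset.trans (img_mono _ h3))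
    rw [dom_cp_Tr ho] at this
    exact ⟨rfl, this⟩
  · refine ⟨ν, h1, h2, hF.2, rfl, rfl, fun z hz => ?_⟩
    simp only [gr, graft]
    rw [cp_Tr_same ho, gh_pos hF, relab_U hz.2.1 hz.2.2 h1 h2]

theorem good_UU {D : Set X} {σ : Rl X} (h : Cl M D) (h1 : ClR M σ) (h2 : S.Adm σ)
    (h3 : S.NS σ) :
    S.Good (.U D) (.U (pre σ D)) fun z => (S.top, S.pullU z.2 σ) := by
  refine ⟨fun z hz => ?_, (S.top, .virt (D ∩ ran σ)), ⟨rfl, h.inter h1.cl_ran, inter_subset_left⟩,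
    ?_⟩
  · have := valid_pullU hz.2.1.hok h1 h2
    exact ⟨rfl, this.1, this.2.trans (pre_mono _ hz.2.2)⟩
  · refine ⟨cp σ (idr (D ∩ ran σ)), h1.comp (h.inter h1.cl_ran).clr_idr, h2.comp (Adm_idr _),
      h3.comp (NS_idr _), ?_, ?_, fun z hz => ?_⟩
    · rw [dom_cp, dom_idr, pre_inter subset_rfl]
    · rw [ran_cp, img_idr]; exact inter_eq_right.2 inter_subset_right
    · simp only [gr, graft]
      rw [relab_res hz.2.1 hz.2.2 h3, relab_U hz.2.1 (hz.2.2.trans inter_subset_right) h1 h2]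

theorem sec_Uv {u : X} (hP : u ∈ S.Pt) :
    S.Uv (.cons none (S.rep u) (Tr M u (S.rep u)) .top) :=
  ⟨rfl, ⟨rep_lam hP, ClR_Tr _ _, Adm_Tr (rep_spec hP).2.1, (ran_Tr _ _).subset⟩, trivial,
    fun h => h.1 ⟨u, Tr_self _ _⟩⟩

theorem sec_mvN {u : X} (hP : u ∈ S.Pt) {z : X × Tl X}
    (hz : S.PT (.R (S.rep u) (orb M (S.rep u))) z) :
    S.mvN (lv M none (S.rep u) (Tr M u (S.rep u)) z) u = z := by
  rw [lv, mvN_cons ⟨_, Tr_self _ _, Tr_self _ _⟩
    ((Adm_Tr (rep_spec hP).2.1).comp (Adm_Tr hz.2.1)), mv_self (PT_orb.1 hz).1]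

theorem good_RC {w u : X} {K : Set X} (h : S.Ctx w K) (hu : u ∈ K) :
    S.Good (.R w K) (.R (S.rep u) (orb M (S.rep u)))
      fun z => S.mv z.2 z.1 (S.app (Tr M w z.1) u) := by
  have hP := h.mem_Pt hu
  obtain ⟨a, rfl⟩ := h.2.2 hu
  have happ : ∀ {v : X}, S.le v w → S.app (Tr M w v) (a • w) = a • v := fun hv =>
    (Adm_Tr hv).app_eq ⟨a, rfl, rfl⟩
  refine ⟨fun z hz => ?_, ?_⟩
  · rw [PT_orb]
    dsimp only
    rw [happ hz.2.1]
    have := valid_mv (hz.ctx h.2.1) hz.2.2 (u := a • z.1) ⟨_, hu, a, rfl, rfl⟩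
    exact ⟨this.1, le_trans this.2 (le_trans (hz.2.1.smul a) (rep_spec hP).2.2)⟩
  by_cases hw : w ∈ orb M (a • w)
  · refine ⟨(w, .top), PT_same h trivial, ?_⟩
    simp only [tyE, vis, ty, img_Tr_same h.2.2, gr, graft]
    refine Or.inr ⟨h.2.1.orb_subset hu hw, mem_orb _, a, (rep_spec hP).2.2, (rep_spec hP).2.1,
      hw, fun z hz => ?_⟩
    dsimp only
    rw [happ hz.2.1]
    rfl
  · refine ⟨(w, .cons none (S.rep (a • w)) (Tr M (a • w) (S.rep (a • w))) .top),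
      PT_same h ((sec_Uv hP).nrm ((dom_Tr _ _).subset.trans (h.2.1.orb_subset hu))
        fun k => hw ((dom_Tr _ _).subset k)), ?_⟩
    simp only [tyE, ty, ran_Tr, gr, graft]
    refine Or.inl ⟨rfl, rfl, fun z hz => ?_⟩
    dsimp only
    rw [happ (le_rfl w), mv_neg hw, sec_mvN hP hz]

theorem good_UC {u : X} {D : Set X} (h : Cl M D) (hu : u ∈ D) (hP : u ∈ S.Pt) :
    S.Good (.U D) (.R (S.rep u) (orb M (S.rep u))) fun z => S.mvN z.2 u := by
  refine ⟨fun z hz => ?_, (S.top, .cons none (S.rep u) (Tr M u (S.rep u)) .top),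
    ⟨rfl, sec_Uv hP, (dom_Tr _ _).subset.trans (h.orb_subset hu)⟩, ?_⟩
  · have := valid_mvN hz.2.1.hok hP
    exact PT_orb.2 ⟨this.1, le_trans this.2 (rep_spec hP).2.2⟩
  · simp only [tyE, ty, ran_Tr, gr, graft]
    exact Or.inl ⟨rfl, rfl, fun z hz => sec_mvN hP hz⟩

def LocR (S : LS M X) (n : Tl X) : Prop :=
  ∀ w K L, S.Ctx w K → S.Nrm n w K → Cl M L → L ⊆ K →
    ∃ r, S.Good (ty n w K) (tyE M (.R w L) (S.resR n w L)) r ∧ ∀ z, S.PT (ty n w K) z →
      S.resR (graft M n w z).2 (graft M n w z).1 (img (Tr M w (graft M n w z).1) L) =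
        gr M (S.resR n w L) (r z)

def LocF (S : LS M X) (n : Tl X) : Prop :=
  ∀ w K ν, S.Ctx w K → S.Nrm n w K → ClR M ν → S.Adm ν → ran ν ⊆ K → S.Fg w ν →
    ∃ r, S.Good (ty n w K) (ty (S.pullU n ν) w ∅) r ∧ ∀ z, S.PT (ty n w K) z →
      S.gh (graft M n w z).2 (graft M n w z).1 (cp ν (Tr M w (graft M n w z).1)) =
        (graft M (S.pullU n ν) w (r z)).2

def LocG (S : LS M X) (n : Tl X) : Prop :=
  ∀ w K ν, S.Ctx w K → S.Nrm n w K → ClR M ν → S.Adm ν → ran ν ⊆ K → ∀ w₀ K₀,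
    ∃ r, S.Good (ty n w K) (ty (S.gh n w ν) w₀ K₀) r ∧ ∀ z, S.PT (ty n w K) z →
      (w₀, S.gh (graft M n w z).2 (graft M n w z).1 (cp ν (Tr M w (graft M n w z).1))) =
        graft M (S.gh n w ν) w₀ (r z)

theorem LocG_of {n : Tl X} (lr : S.LocR n) (lf : S.LocF n) : S.LocG n := by
  intro w K ν h1 h2 h3 h4 h5 w₀ K₀
  have hne := (valid_gh h1 h2 h3 h4 h5).1.ne_top
  rw [ty_ne hne w₀ w K₀ ∅]
  simp only [g_ne hne w₀ w, Prod.mk.injEq, true_and]
  by_cases hF : S.Fg w ν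
  · rw [gh_pos hF]; exact lf w K ν h1 h2 h3 h4 h5 hF
  obtain ⟨r, hr1, hr2⟩ := lr w K (ran ν) h1 h2 h3.cl_ran h5
  have ho := h5.trans h1.2.2
  have hp := valid_resR h1 h2 h3.cl_ran h5
  refine ⟨r, ?_, fun z hz => ?_⟩
  · rw [gh_neg hF, lv, ty, ran_cp]; exact hr1
  · have hy := g_valid h1 h2 hz
    have hs := valid_resR (hy.ctx h1.2.1) hy.2.2 ((ClR_Tr _ _).cl_img h3.cl_ran) (img_mono _ h5)
    have hs2 := g_valid (hp.ctx h3.cl_ran) hp.2.2 (hr1.1 z hz)
    rw [gh_neg fun h => hF (h.of_tr ho hy.2.1), ran_cp, lv_lv _ _ _ hs.2.1, hr2 z hz, gh_neg hF,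
      lv, lv, graft, lv_lv _ _ _ hs2.2.1]
    rfl

theorem loc_aux (n : Tl X) : S.LocR n ∧ S.LocF n := by
  have mem : ∀ (n : Tl X) w K L, S.Ctx w K → S.Nrm n w K → Cl M L → L ⊆ K → w ∈ L →
      ∃ r, S.Good (ty n w K) (tyE M (.R w L) (S.resR n w L)) r ∧ ∀ z, S.PT (ty n w K) z →
      S.resR (graft M n w z).2 (graft M n w z).1 (img (Tr M w (graft M n w z).1) L) =
        gr M (S.resR n w L) (r z) := by
    intro n w K L h1 h2 h3 h4 h5
    obtain rfl := h1.eq_of_mem h3 h4 h5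
    rw [resR_mem h5]
    refine ⟨id, ?_, fun z hz => ?_⟩
    · simp only [tyE, vis, img_Tr_same h1.2.2]
      exact good_id (g_ok h1 h2)
    · have hy := g_valid h1 h2 hz
      exact resR_self (hy.ctx h1.2.1) hy.2.2
  induction n with
  | top =>
    refine ⟨fun w K L h1 _ h3 h4 => ?_, fun w K ν h1 _ h3 h4 h5 hF => ?_⟩
    · rw [resR_top]
      refine ⟨_, ?_, fun z _ => rfl⟩
      simp only [tyE, vis, ty, img_Tr_same (h4.trans h1.2.2)]
      exact good_RR h1 h3 h4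
    · rw [pullU_top]
      exact ⟨_, good_RU h1 h3 h4 h5 hF, fun z _ => rfl⟩
  | virt D =>
    refine ⟨fun w K L h1 h2 h3 h4 => ?_, fun w K ν h1 h2 h3 h4 h5 hF => ?_⟩
    · by_cases hw : w ∈ L
      · exact mem _ w K L h1 h2 h3 h4 hw
      rw [resR_virt hw, ← pre_idr]
      refine ⟨_, good_UU h2.1 h3.clr_idr (Adm_idr L) (NS_idr L), fun z hz => ?_⟩
      simp only [graft, gr]
      rw [img_Tr_same (h4.trans h1.2.2), resR_U hw hz.2.1]
    · rw [pullU_virt]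
      refine ⟨_, good_UU h2.1 h3 h4 hF.2, fun z hz => ?_⟩
      simp only [graft]
      rw [cp_Tr_same (h5.trans h1.2.2), gh_pos hF]
  | cons g w' μ n ih =>
    obtain ⟨lr, lf⟩ := ih
    have lg := LocG_of lr lf
    refine ⟨fun w K L h1 h2 h3 h4 => ?_, fun w K ν h1 ⟨k1, k2, k3, k4⟩ h3 h4 h5 hF => ?_⟩
    · by_cases hw : w ∈ L
      · exact mem _ w K L h1 h2 h3 h4 hw
      obtain ⟨k1, k2, k3, k4⟩ := h2
      have ho := h4.trans h1.2.2
      simp only [graft, ty, img_Tr_same ho]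
      by_cases hg : g = some w
      · subst hg
        obtain ⟨r, hr1, hr2⟩ := lr _ _ _ k1.ctx k2 (k1.2.1.cl_img h3) (img_subset_ran μ L)
        have hp := valid_resR k1.ctx k2 (k1.2.1.cl_img h3) (img_subset_ran μ L)
        by_cases hL : L ⊆ dom μ
        · rw [resR_full hw hL]
          refine ⟨r, ?_, fun z hz => ?_⟩
          · simp only [tyE, vis] at hr1 ⊢
            rwa [← Tr_Tr w hp.2.1, img_cp, ← img_eq_img_Tr k4.2.2.2 k4.2.2.1 hL]
          · rw [lv, resR_full hw (by rwa [dom_cp_Tr k1.2.2.2]), img_cp, hr2 z hz]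
        · rw [resR_nfull hw hL]
          refine ⟨r, ?_, fun z hz => ?_⟩
          · simp only [tyE, vis, lv, ty, ran_cp, ran_idr] at hr1 ⊢
            exact hr1
          · have hy := g_valid k1.ctx k2 hz
            have hs := valid_resR (hy.ctx k1.2.1.cl_ran) hy.2.2
              ((ClR_Tr _ _).cl_img (k1.2.1.cl_img h3)) (img_mono _ (img_subset_ran μ L))
            have hs2 := g_valid (hp.ctx (k1.2.1.cl_img h3)) hp.2.2 (hr1.1 z hz)
            rw [lv, resR_nfull hw (by rwa [dom_cp_Tr k1.2.2.2]), img_cp, ← cp_assoc,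
              lv_lv _ _ _ hs.2.1, hr2 z hz]
            simp only [gr]
            rw [lv, lv, graft, lv_lv _ _ _ hs2.2.1]
            rfl
      · have hl := k1.comp h3.clr_idr (Adm_idr L)
        have hr : ran (cp (idr L) μ) ⊆ ran μ := (ran_cp _ _).subset.trans (img_subset_ran _ _)
        rw [resR_ghost hw hg]
        obtain ⟨r, hr1, hr2⟩ := lg _ _ _ k1.ctx k2 hl.2.1 hl.2.2.1 hr w (img (Tr M w w) L)
        refine ⟨r, hr1, fun z hz => ?_⟩
        rw [lv, resR_ghost hw hg, ← cp_assoc, hr2 z hz]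
        rfl
    · have hl := k1.comp h3 h4
      have hr : ran (cp ν μ) ⊆ ran μ := (ran_cp _ _).subset.trans (img_subset_ran _ _)
      rw [pullU_cons]
      obtain ⟨r, hr1, hr2⟩ := lg _ _ _ k1.ctx k2 hl.2.1 hl.2.2.1 hr w ∅
      refine ⟨r, hr1, fun z hz => ?_⟩
      simp only [graft]
      rw [cp_Tr_same (h5.trans h1.2.2), gh_pos hF, lv, pullU_cons, ← cp_assoc, ← hr2 z hz]

theorem locG (n : Tl X) : S.LocG n := LocG_of (loc_aux n).1 (loc_aux n).2

theorem locM {n : Tl X} : ∀ {w u : X} {K : Set X}, S.Ctx w K → S.Nrm n w K → u ∈ K →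
    ∃ r, S.Good (ty n w K) (ty (S.mv n w u).2 (S.mv n w u).1 (orb M (S.mv n w u).1)) r ∧
      ∀ z, S.PT (ty n w K) z → ∀ u'', Tr M w (graft M n w z).1 u u'' →
        S.mv (graft M n w z).2 (graft M n w z).1 u'' = gr M (S.mv n w u) (r z) := by
  have same : ∀ {w u u'' : X}, Tr M w w u u'' → u'' = u := by
    rintro w _ _ ⟨z, rfl, rfl⟩; rfl
  induction n with
  | top =>
    intro w u K h1 _ hu
    rw [mv_top]
    refine ⟨_, good_RC h1 hu, fun z hz u'' h => ?_⟩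
    simp only [graft, gr] at h ⊢
    rw [(Adm_Tr hz.2.1).app_eq h]
  | virt D =>
    intro w u K h1 h2 hu
    have hP := h1.mem_Pt hu
    by_cases hw : w ∈ orb M u
    · rw [mv_pos hw]
      refine ⟨_, good_UU h2.1 (ClR_Tr _ _) (Adm_rep hP) (NS_rep hP), fun z hz u'' h => ?_⟩
      simp only [graft, gr, relab] at h ⊢
      rw [same h, mv_pos hw, relab_U hz.2.1 _ (ClR_Tr _ _) (Adm_rep hP)]
      rw [ran_Tr]
      exact hz.2.2.trans (h2.2.1.trans (h1.2.2.trans ((Cl_orb u).orb_subset hw)))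
    rw [mv_neg hw]
    by_cases hD : u ∈ D
    · rw [mvN_virt hD]
      refine ⟨_, good_UC h2.1 hD hP, fun z hz u'' h => ?_⟩
      simp only [graft, gr] at h ⊢
      rw [same h, mv_neg hw]
    · rw [mvN_notMem (n := .virt D) hD, pullU_virt]
      refine ⟨_, good_UU h2.1 (ClR_Tr _ _) (Adm_rep hP) (NS_rep hP), fun z hz u'' h => ?_⟩
      simp only [graft, gr] at h ⊢
      rw [same h, mv_neg hw, mvN_notMem fun k => hD (hz.2.2 k)]
  | cons g w' μ n ih =>
    intro w u K h1 ⟨k1, k2, k3, k4⟩ hu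
    have hP := h1.mem_Pt hu
    by_cases hw : w ∈ orb M u
    · rw [mv_pos hw]
      have e : ran (cp (Tr M (S.rep u) u) μ) = ran μ := by
        rw [ran_cp, img_of_dom]
        rw [ran_Tr]
        exact k3.trans (h1.2.2.trans ((Cl_orb u).orb_subset hw))
      refine ⟨id, ?_, fun z hz u'' h => ?_⟩
      · simp only [relab, ty, e]
        exact good_id (g_ok k1.ctx k2)
      · simp only [graft, gr, relab] at h ⊢
        rw [same h, mv_pos hw]
        simp only [lv, relab, cp_assoc, id]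
    rw [mv_neg hw]
    by_cases hD : u ∈ dom μ
    · obtain ⟨u', hu'⟩ := hD
      rw [mvN_cons hu' k1.2.2.1]
      obtain ⟨r, hr1, hr2⟩ := ih k1.ctx k2 ⟨u, hu'⟩
      refine ⟨r, hr1, fun z hz u'' h => ?_⟩
      simp only [graft] at h ⊢
      have hy := g_valid k1.ctx k2 hz
      obtain ⟨s, hs⟩ := k1.2.2.2 ⟨u, hu'⟩
      have hT : Tr M w' (graft M n w' z).1 u' (s • (graft M n w' z).1) := ⟨s, hs, rfl⟩
      rw [same h, mv_neg hw, lv, mvN_cons ⟨u', hu', hT⟩ (k1.2.2.1.comp (Adm_Tr hy.2.1)),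
        hr2 z hz _ hT]
    · rw [mvN_notMem (n := .cons g w' μ n) hD, pullU_cons]
      have hl := k1.comp (ClR_Tr (S.rep u) u) (Adm_rep hP)
      obtain ⟨r, hr1, hr2⟩ := locG n _ _ _ k1.ctx k2 hl.2.1 hl.2.2.1
        ((ran_cp _ _).subset.trans (img_subset_ran _ _)) (S.rep u) (orb M (S.rep u))
      refine ⟨r, hr1, fun z hz u'' h => ?_⟩
      simp only [graft, gr] at h ⊢
      rw [same h, mv_neg hw, mvN_notMem (by rwa [hdom_lv k1.2.2.2]), lv, pullU_cons, ← cp_assoc,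
        hr2 z hz]

end LS

end Pool.Agent.P.MP_9ca27c_lc.Ex
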