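import Mathlib
import Pool.Agent.P.MP_9ca27c_lc.ExLoc
import Pool.Agent.P.MP_9ca27c_lc.ExFrame

/-! Finiteness of the set of normal stacks and the embedding theorem. -/

namespace Pool.Agent.P.MP_9ca27c_lc.Ex

open Set

variable {M : Type} [Monoid M] {X : Type} [MulAction M X]

def depth : Tl X → ℕ
  | .top => 0
  | .virt _ => 0
  | .cons _ _ _ n => depth n + 1

theorem depth_finite [Finite X] (k : ℕ) : {n : Tl X | depth n ≤ k}.Finite := by
  have h0 : ({Tl.top} ∪ range Tl.virt : Set (Tl X)).Finite :=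
    (finite_singleton _).union (finite_range _)
  induction k with
  | zero =>
    refine h0.subset fun n hn => ?_
    cases n with
    | top => exact Or.inl rfl
    | virt D => exact Or.inr ⟨D, rfl⟩
    | cons => simp [depth] at hn
  | succ k ih =>
    refine (h0.union (((finite_univ (α := Option X × X × Rl X)).prod ih).image
      fun q => Tl.cons q.1.1 q.1.2.1 q.1.2.2 q.2)).subset fun n hn => ?_
    cases n with
    | top => exact Or.inl (Or.inl rfl)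
    | virt D => exact Or.inl (Or.inr ⟨D, rfl⟩)
    | cons g w μ n => exact Or.inr ⟨((g, w, μ), n), ⟨trivial, Nat.le_of_succ_le_succ hn⟩, rfl⟩

namespace LS

variable {S : LS M X}

noncomputable def mu (S : LS M X) (K : Set X) : ℕ := {ν | S.Adm ν ∧ dom ν ⊆ K}.ncard

theorem mu_lt [Finite X] {D K : Set X} (h : D ⊆ K) (h' : D ≠ K) : S.mu D < S.mu K := by
  refine ncard_lt_ncard ⟨fun ν hν => ⟨hν.1, hν.2.trans h⟩, fun k => h' (h.antisymm ?_)⟩
  have := (k (show idr K ∈ _ from ⟨Adm_idr K, (dom_idr K).subset⟩)).2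
  rwa [dom_idr] at this

theorem mu_ran [Finite X] {ν : Rl X} (h : S.Adm ν) :
    S.mu (ran ν) ≤ S.mu (dom ν) ∧ (¬ S.NS ν → S.mu (ran ν) < S.mu (dom ν)) := by
  have hinj : InjOn (cp ν) {μ | S.Adm μ ∧ dom μ ⊆ ran ν} := by
    intro μ hμ μ' hμ' e
    rw [← idr_cp hμ.2, ← idr_cp hμ'.2, ← h.flip_cp, cp_assoc, cp_assoc, e]
  have hsub : cp ν '' {μ | S.Adm μ ∧ dom μ ⊆ ran ν} ⊆ {μ | S.Adm μ ∧ dom μ ⊆ dom ν} := by
    rintro _ ⟨μ, hμ, rfl⟩
    exact ⟨h.comp hμ.1, (dom_cp _ _).subset.trans (pre_subset_dom _ _)⟩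
  unfold mu
  rw [← hinj.ncard_image]
  refine ⟨ncard_le_ncard hsub, fun hn => ncard_lt_ncard ⟨hsub, fun k => hn ?_⟩⟩
  obtain ⟨μ, ⟨⟨f, hf, hμ⟩, -⟩, e⟩ :=
    k (show idr (dom ν) ∈ _ from ⟨Adm_idr _, (dom_idr _).subset⟩)
  refine ⟨f, hf, fun a b hab => ?_⟩
  have : cp ν μ a a := by rw [e]; exact ⟨⟨b, hab⟩, rfl⟩
  obtain ⟨c, h1, h2⟩ := this
  rw [h.fn hab h1]; exact hμ _ _ h2

open Classical in
theorem depth_le [Finite X] {n : Tl X} : ∀ {w : X} {K : Set X}, S.Nrm n w K →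
    depth n ≤ 2 * S.mu K + if w ∈ K then 0 else 1 := by
  induction n with
  | top => intro w K _; exact Nat.zero_le _
  | virt D => intro w K _; exact Nat.zero_le _
  | cons g w' μ n ih =>
    intro w K ⟨k1, k2, k3, k4⟩
    have h1 := ih k2
    have h2 := mu_ran k1.2.2.1
    rw [depth]
    by_cases e : dom μ = K
    · cases g with
      | some g => exact (k4.1 e).elim
      | none =>
        rw [if_neg (e ▸ k4.1), ← e]
        by_cases hv : w' ∈ ran μ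
        · rw [if_pos hv] at h1; omega
        · have := h2.2 fun h => k4.2 ⟨hv, h⟩
          split_ifs at h1
          omega
    · have := mu_lt (S := S) k3 e
      split_ifs at h1 ⊢
      all_goals omega

theorem St_finite [Finite X] : {x : X × Tl X | S.St x}.Finite := by
  refine ((finite_univ (α := X)).prod (depth_finite (2 * S.mu univ + 1))).subset ?_
  rintro ⟨u, n⟩ h
  refine ⟨trivial, ?_⟩
  have h1 := depth_le h.2
  have h2 : S.mu (orb M u) ≤ S.mu univ :=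
    ncard_le_ncard fun ν hν => ⟨hν.1, subset_univ _⟩
  change depth n ≤ _
  dsimp only at h1
  split_ifs at h1 <;> omega

theorem St.pt {x : X × Tl X} (h : S.St x) :
    S.PT (.R (S.rep S.top) (orb M (S.rep S.top))) x :=
  PT_orb.2 ⟨h, le_trans (S.le_top _ h.1.1) (rep_spec S.top_mem).2.2⟩

def sty (M : Type) [Monoid M] {X : Type} [MulAction M X] (x : X × Tl X) : Ty X :=
  ty x.2 x.1 (orb M x.1)

theorem St.ok {x : X × Tl X} (h : S.St x) : S.TyOK (sty M x) := g_ok h.ctx h.2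

theorem St.sty_gr {x z : X × Tl X} (hz : S.PT (sty M x) z) :
    sty M (gr M x z) = tyE M (sty M x) z := by
  have := g_ty hz
  simp only [tyE, vis, img_Tr_orb] at this
  exact this

theorem St.gr_St {x z : X × Tl X} (h : S.St x) (hz : S.PT (sty M x) z) : S.St (gr M x z) :=
  (PT_orb.1 (g_valid h.ctx h.2 hz)).1

noncomputable def frame (S : LS M X) [Finite M] [Finite X] (hS : S.Rig) :
    Frame {x : X × Tl X // S.St x} M where
  le y x := S.LeC x.1.2 x.1.1 (orb M x.1.1) y.1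
  refl x := LeC.refl x.2.ctx x.2.2
  trans := fun {x y z} h1 h2 => LeC.trans z.2.ctx z.2.2 h2 (by rwa [img_Tr_orb])
  antisymm := fun {x y} h1 h2 =>
    Subtype.ext (LeC.antisymm y.2.ctx y.2.2 h1 (by rwa [img_Tr_orb]))
  top := ⟨(S.rep S.top, .top), rep_lam S.top_mem, trivial⟩
  le_top x := LeC_top.2 x.2.pt
  meet := by
    rintro x x' ⟨y, h1, h2⟩
    have hl : ∀ x : {x : X × Tl X // S.St x}, S.Lev x.1.1 (Tr M (S.rep S.top) x.1.1) :=
      fun x => ⟨x.2.1, ClR_Tr _ _, Adm_Tr x.2.pt.2.1, (ran_Tr _ _).subset⟩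
    have hlow : ∀ y, S.Low x.1.2 x.1.1 (Tr M (S.rep S.top) x.1.1) x'.1.2 x'.1.1
        (Tr M (S.rep S.top) x'.1.1) y ↔
        S.LeC x.1.2 x.1.1 (orb M x.1.1) y ∧ S.LeC x'.1.2 x'.1.1 (orb M x'.1.1) y := by
      intro y
      simp only [Low, ran_Tr]
      refine ⟨fun h => ⟨h.1, h.2.1⟩, fun h => ⟨h.1, h.2, ?_⟩⟩
      rw [Tr_Tr _ (h.1.valid x.2.ctx x.2.2).2.1, Tr_Tr _ (h.2.valid x'.2.ctx x'.2.2).2.1]
    obtain ⟨m, hm1, hm2⟩ := meet_aux (hl x) (by rw [ran_Tr]; exact x.2.2) (hl x')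
      (by rw [ran_Tr]; exact x'.2.2) ⟨y.1, (hlow _).2 ⟨h1, h2⟩⟩
    rw [ran_Tr] at hm1 hm2
    refine ⟨⟨m, (PT_orb.1 hm1).1⟩, fun y => ?_⟩
    rw [← hlow, ← hm2, img_Tr_orb]
  J x x' j := ∃ r, S.TF (sty M x.1) (sty M x'.1) r ∧
    ∀ y z, S.PT (sty M x.1) z → y.1 = gr M x.1 z → (j y).1 = gr M x'.1 (r z)
  J_refl x := ⟨id, TF_refl x.2.ok fun _ _ => rfl, fun _ _ _ h => h⟩
  J_symm := by
    classical
    rintro x x' j ⟨r, h1, h2⟩
    obtain ⟨r', k1, k2, k3⟩ := TF_symm x.2.ok x'.2.ok h1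
    let j' : {x : X × Tl X // S.St x} → {x : X × Tl X // S.St x} := fun y =>
      if h : ∃ z, S.PT (sty M x'.1) z ∧ y.1 = gr M x'.1 z then
        ⟨gr M x.1 (r' h.choose), x.2.gr_St (k1.valid x'.2.ok x.2.ok h.choose_spec.1)⟩ else y
    have hj' : ∀ y z, S.PT (sty M x'.1) z → y.1 = gr M x'.1 z → (j' y).1 = gr M x.1 (r' z) := by
      intro y z hz e
      have h : ∃ z, S.PT (sty M x'.1) z ∧ y.1 = gr M x'.1 z := ⟨z, hz, e⟩
      have e2 : h.choose = z := g_inj h.choose_spec.1 hz (h.choose_spec.2.symm.trans e)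
      simp only [j', dif_pos h, e2]
    refine ⟨j', ⟨r', k1, hj'⟩, ?_, ?_⟩
    · rintro y ⟨z, hz, e⟩
      apply Subtype.ext
      rw [hj' _ _ (h1.valid x.2.ok x'.2.ok hz) (h2 y z hz e), k2 z hz]
      exact e.symm
    · rintro y ⟨z, hz, e⟩
      apply Subtype.ext
      rw [h2 _ _ (k1.valid x'.2.ok x.2.ok hz) (hj' y z hz e), k3 z hz]
      exact e.symm
  J_comp := by
    rintro x x' x'' j j' ⟨r, h1, h2⟩ ⟨r', k1, k2⟩
    exact ⟨r' ∘ r, TF_comp x.2.ok x'.2.ok h1 k1, fun y z hz e =>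
      k2 _ _ (h1.valid x.2.ok x'.2.ok hz) (h2 y z hz e)⟩
  J_le := by
    rintro x x' j y ⟨r, h1, h2⟩ ⟨z, hz, e⟩
    exact ⟨r z, h1.valid x.2.ok x'.2.ok hz, h2 y z hz e⟩
  J_res := by
    rintro x x' j y ⟨r, h1, h2⟩ ⟨p, hp, e⟩
    have e' : y.1 = gr M x.1 p := e
    have e2 := h2 y p hp e
    have hp' := h1.valid x.2.ok x'.2.ok hp
    obtain ⟨r', k1, k2⟩ := TF_res x.2.ok x'.2.ok hp h1
    refine ⟨r', by rw [e', e2, St.sty_gr hp, St.sty_gr hp']; exact k1, fun u s hs f => ?_⟩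
    rw [e', St.sty_gr hp] at hs
    rw [e'] at f
    have k3 := k1.valid (tyE_ok x.2.ok hp) (tyE_ok x'.2.ok hp') hs
    rw [h2 u _ (gr_valid x.2.ok hp hs) (f.trans (g_assoc x.2.ctx x.2.2 hp hs)), k2 s hs, e2]
    exact (g_assoc x'.2.ctx x'.2.2 hp' k3).symm
  J_cov := by
    intro x
    obtain ⟨ρ, r1, r2, r3, r4⟩ := TF_cov hS x.2.ok
    refine ⟨fun a j => ∃ r, ρ a r ∧
      ∀ y z, S.PT (sty M x.1) z → y.1 = gr M x.1 z → (j y).1 = gr M x.1 (r z), ?_, ?_, ?_, ?_⟩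
    · rintro j ⟨r, h1, h2⟩
      obtain ⟨a, ha⟩ := r1 r h1
      exact ⟨a, r, ha, h2⟩
    · rintro a j ⟨r, h1, h2⟩
      exact ⟨r, r2 a r h1, h2⟩
    · rintro a a' j j' ⟨r, h1, h2⟩ ⟨r', k1, k2⟩
      exact ⟨r ∘ r', r3 _ _ _ _ h1 k1, fun y z hz e =>
        h2 _ _ ((r2 _ _ k1).valid x.2.ok x.2.ok hz) (k2 y z hz e)⟩
    · rintro a j j' ⟨r, h1, h2⟩ ⟨r', k1, k2⟩ y ⟨z, hz, e⟩
      apply Subtype.ext
      rw [h2 y z hz e, k2 y z hz e, r4 _ _ _ h1 k1 z hz]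

theorem exists_T (S : LS M X) [Finite M] [Finite X] (hS : S.Rig) :
    ∃ (T : Type) (_ : Monoid T), Finite T ∧ Reg T ∧ Div M T ∧
      ∃ φ : M →* T, ∀ a b, φ a = φ b → ∃ c, a = b * c := by
  have : Finite {x : X × Tl X // S.St x} := St_finite
  have hloc : ∀ (a : M) (x : {x : X × Tl X // S.St x}),
      ∃ r, S.Good (sty M x.1) (sty M (S.act a x.1)) r ∧
        ∀ z, S.PT (sty M x.1) z → S.act a (gr M x.1 z) = gr M (S.act a x.1) (r z) := by
    intro a x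
    obtain ⟨r, h1, h2⟩ := locM x.2.ctx x.2.2 (u := a • x.1.1) ⟨a, rfl⟩
    exact ⟨r, h1, fun z hz => h2 z hz _ ⟨a, rfl, rfl⟩⟩
  obtain ⟨T, inst, h1, h2, h3, φ, h4⟩ := (S.frame hS).exists_hom
    (fun (a : M) x => ⟨S.act a x.1, (valid_act x.2 a).1⟩)
    (fun x => Subtype.ext (act_fix x.2 (one_smul _ _)))
    (fun a b x => Subtype.ext (act_act x.2 b a).symm)
    (fun a x => by
      obtain ⟨r, ⟨-, s, hs, k⟩, h⟩ := hloc a x
      refine ⟨⟨gr M x.1 s, x.2.gr_St hs⟩, ⟨s, hs, rfl⟩, fun z => r (gr M s z), ?_,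
        fun y z hz e => ?_⟩
      · dsimp only
        rw [St.sty_gr hs]; exact k
      · have hz' : S.PT (tyE M (sty M x.1) s) z := by rw [← St.sty_gr hs]; exact hz
        dsimp only
        rw [← h _ (gr_valid x.2.ok hs hz'), e]
        exact congrArg _ (g_assoc x.2.ctx x.2.2 hs hz'))
    (fun a x y ⟨z, hz, e⟩ => by
      obtain ⟨r, ⟨k, -⟩, h⟩ := hloc a x
      exact ⟨r z, k z hz, (congrArg (S.act a) e).trans (h z hz)⟩)
  refine ⟨T, inst, h1, h2, h3, φ, fun a b h => S.faith a b ?_⟩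
  have e := congrArg (fun x => x.1.1) (h4 a b h (S.frame hS).top)
  change (S.mv .top _ (a • S.rep S.top)).1 = (S.mv .top _ (b • S.rep S.top)).1 at e
  rw [mv_top, mv_top] at e
  have hr := rep_spec S.top_mem
  have ha := rep_spec (S.P_smul hr.1 a)
  have hb := rep_spec (S.P_smul hr.1 b)
  dsimp only at e
  rw [e] at ha
  exact le_trans (hr.2.2.smul a) (le_trans ha.2.2 (le_trans hb.2.1 (hr.2.1.smul b)))

end LS

end Pool.Agent.P.MP_9ca27c_lc.Ex
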