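import Mathlib
import Pool.Agent.P.MP_9ca27c_lc.Defs
import Pool.Agent.P.MP_9ca27c_lc.ExEmb

/-! Every finite semigroup embeds in a finite regular semigroup whose subgroups are images of
its own subgroups. -/

namespace Pool.Agent.P.MP_9ca27c_lc.Ex

open Set

theorem exists_subgroup {M T : Type} [Semigroup M] [Finite M] [Semigroup T] (ρ : M → T → Prop)
    (G : Set T) (hG : IsSubgroup G) (h1 : ∀ a ∈ G, ∃ r, ρ r a)
    (h2 : ∀ r r' a a', ρ r a → ρ r' a' → ρ (r * r') (a * a')) :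
    ∃ H : Set M, IsSubgroup H ∧ (∀ r ∈ H, ∃ a ∈ G, ρ r a) ∧ ∀ a ∈ G, ∃ r ∈ H, ρ r a := by
  obtain ⟨hc, e, he, hG⟩ := hG
  let C : Set (Set M) := {R | (∀ a ∈ R, ∀ b ∈ R, a * b ∈ R) ∧ (∀ r ∈ R, ∃ a ∈ G, ρ r a) ∧
    ∀ a ∈ G, ∃ r ∈ R, ρ r a}
  have h0 : {r | ∃ a ∈ G, ρ r a} ∈ C := by
    refine ⟨?_, fun r hr => hr, fun a ha => ?_⟩
    · rintro r ⟨a, ha, k⟩ r' ⟨a', ha', k'⟩
      exact ⟨a * a', hc a ha a' ha', h2 _ _ _ _ k k'⟩
    · obtain ⟨r, hr⟩ := h1 a ha
      exact ⟨r, ⟨a, ha, hr⟩, hr⟩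
  obtain ⟨H, ⟨k1, k2, k3⟩, hmin⟩ := exists_min_image C ncard (toFinite _) ⟨_, h0⟩
  have left : ∀ r ∈ H, ∀ s ∈ H, ∃ t ∈ H, r * t = s := by
    intro r hr
    have hsub : (fun t => r * t) '' H ⊆ H := by
      rintro _ ⟨t, ht, rfl⟩
      exact k1 r hr t ht
    have : (fun t => r * t) '' H ∈ C := by
      refine ⟨?_, fun s hs => k2 s (hsub hs), fun a ha => ?_⟩
      · rintro _ ⟨s, hs, rfl⟩ _ ⟨t, ht, rfl⟩
        exact ⟨s * (r * t), k1 s hs _ (k1 r hr t ht), (mul_assoc _ _ _).symm⟩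
      · obtain ⟨g, hg, kg⟩ := k2 r hr
        obtain ⟨-, -, b, hb, e1, -⟩ := hG g hg
        obtain ⟨s, hs, ks⟩ := k3 (b * a) (hc b hb a ha)
        have := h2 _ _ _ _ kg ks
        rw [← mul_assoc, e1, (hG a ha).1] at this
        exact ⟨_, ⟨s, hs, rfl⟩, this⟩
    intro s hs
    rw [← eq_of_subset_of_ncard_le hsub (hmin _ this)] at hs
    exact hs
  have right : ∀ r ∈ H, ∀ s ∈ H, ∃ t ∈ H, t * r = s := by
    intro r hr
    have hsub : (fun t => t * r) '' H ⊆ H := by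
      rintro _ ⟨t, ht, rfl⟩
      exact k1 t ht r hr
    have : (fun t => t * r) '' H ∈ C := by
      refine ⟨?_, fun s hs => k2 s (hsub hs), fun a ha => ?_⟩
      · rintro _ ⟨s, hs, rfl⟩ _ ⟨t, ht, rfl⟩
        exact ⟨s * r * t, k1 _ (k1 s hs r hr) t ht, mul_assoc _ _ _⟩
      · obtain ⟨g, hg, kg⟩ := k2 r hr
        obtain ⟨-, -, b, hb, -, e1⟩ := hG g hg
        obtain ⟨s, hs, ks⟩ := k3 (a * b) (hc a ha b hb)
        have := h2 _ _ _ _ ks kg
        rw [mul_assoc a, e1, (hG a ha).2.1] at this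
        exact ⟨_, ⟨s, hs, rfl⟩, this⟩
    intro s hs
    rw [← eq_of_subset_of_ncard_le hsub (hmin _ this)] at hs
    exact hs
  obtain ⟨r₀, hr₀, -⟩ := k3 e he
  obtain ⟨i, hi, ei⟩ := left r₀ hr₀ r₀ hr₀
  obtain ⟨i', hi', ei'⟩ := right r₀ hr₀ r₀ hr₀
  have ri : ∀ a ∈ H, a * i = a := fun a ha => by
    obtain ⟨t, -, rfl⟩ := right r₀ hr₀ a ha
    rw [mul_assoc, ei]
  have li : ∀ a ∈ H, i' * a = a := fun a ha => by
    obtain ⟨t, -, rfl⟩ := left r₀ hr₀ a ha
    rw [← mul_assoc, ei']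
  obtain rfl : i = i' := (li i hi).symm.trans (ri i' hi')
  refine ⟨H, ⟨k1, i, hi, fun a ha => ⟨li a ha, ri a ha, ?_⟩⟩, k2, k3⟩
  obtain ⟨b, hb, e1⟩ := left a ha i hi
  obtain ⟨c, hc', e2⟩ := right a ha i hi
  refine ⟨b, hb, e1, ?_⟩
  rw [← li b hb, ← e2, mul_assoc c, e1, ri c hc', e2]

/-- the extension of `S` by a null ideal on which `S` acts faithfully on the left -/
def Ext (S : Type) : Type := S ⊕ Option (WithOne S)

instance (S : Type) [Finite S] : Finite (Ext S) :=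
  inferInstanceAs (Finite (S ⊕ Option (Option S)))

def Ext.mul {S : Type} [Semigroup S] : Ext S → Ext S → Ext S
  | .inl a, .inl b => .inl (a * b)
  | .inl a, .inr (some x) => .inr (some (a * x))
  | .inl _, .inr none => .inr none
  | .inr _, _ => .inr none

instance (S : Type) [Semigroup S] : Semigroup (Ext S) where
  mul := Ext.mul
  mul_assoc := by
    rintro (a | a) (b | _ | b) (c | _ | c)
    all_goals first
      | rfl
      | exact congrArg Sum.inl (mul_assoc _ _ _)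
      | exact congrArg (fun x => Sum.inr (some x)) (mul_assoc (a : WithOne S) b c)

def iota (S : Type) [Semigroup S] : S →ₙ* WithOne (Ext S) where
  toFun s := WithOne.coe (α := Ext S) (Sum.inl s)
  map_mul' _ _ := rfl

theorem iota_inj {S : Type} [Semigroup S] : Function.Injective (iota S) := fun _ _ h =>
  Sum.inl.inj (WithOne.coe_inj.1 h)

theorem subgroup_cases {S : Type} [Semigroup S] (H : Set (WithOne (Ext S))) (hH : IsSubgroup H) :
    H.Subsingleton ∨ H ⊆ range (iota S) := by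
  obtain ⟨-, i, -, h⟩ := hH
  induction i using WithOne.recOneCoe with
  | one =>
    left
    have key : ∀ a ∈ H, a = 1 := fun a ha => by
      obtain ⟨-, -, b, -, e, -⟩ := h a ha
      induction a using WithOne.recOneCoe with
      | one => rfl
      | coe a =>
        induction b using WithOne.recOneCoe with
        | one => exact e
        | coe b => exact absurd e WithOne.coe_ne_one
    intro a ha b hb
    rw [key a ha, key b hb]
  | coe i =>
    have ne : ∀ a ∈ H, ∃ a' : Ext S, a = a' := fun a ha => by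
      induction a using WithOne.recOneCoe with
      | one => exact absurd (h 1 ha).1 WithOne.coe_ne_one
      | coe a => exact ⟨a, rfl⟩
    rcases i with s | o
    · right
      intro a ha
      obtain ⟨-, -, b, hb, e, -⟩ := h a ha
      obtain ⟨a, rfl⟩ := ne a ha
      obtain ⟨b, rfl⟩ := ne b hb
      rcases a with a | a
      · exact ⟨a, rfl⟩
      · cases WithOne.coe_inj.1 e
    · left
      have key : ∀ a ∈ H, a = WithOne.coe (α := Ext S) (Sum.inr none) := fun a ha => by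
        have e := (h a ha).1
        obtain ⟨a, rfl⟩ := ne a ha
        exact e.symm
      intro a ha b hb
      rw [key a ha, key b hb]

theorem embed_groups (S : Type) [Semigroup S] [Finite S] :
    ∃ (T : Type) (_ : Semigroup T), Finite T ∧ (∀ a : T, ∃ x : T, a * x * a = a) ∧
      (∀ G : Set T, IsSubgroup G → G.Subsingleton ∨ ∃ H : Set S, IsSubgroup H ∧
        ∃ ψ : S → T, (∀ a ∈ H, ∀ b ∈ H, ψ (a * b) = ψ a * ψ b) ∧ ψ '' H = G) ∧
      ∃ f : S →ₙ* T, Function.Injective f := by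
  classical
  have : Finite (WithOne (Ext S)) := inferInstanceAs (Finite (Option (Ext S)))
  obtain ⟨X, inst, hX, L, hL⟩ := exists_LS (WithOne (Ext S))
  obtain ⟨T, _, h1, h2, h3, φ, h4⟩ := L.exists_T hL
  refine ⟨T, inferInstance, h1, h2, fun G hG => ?_, φ.toMulHom.comp (iota S), fun a b hab => ?_⟩
  · obtain ⟨-, e, he, hG'⟩ := id hG
    obtain ⟨ρ, r1, r2, r3⟩ := h3 e (hG' e he).1
    obtain ⟨H, hH, k1, k2⟩ := exists_subgroup ρ G hG (fun a ha => by
      obtain ⟨e1, e2, b, -, e3, e4⟩ := hG' a ha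
      exact r1 a ⟨e1, e2, b, e3, e4⟩) r2
    rcases subgroup_cases H hH with hs | hs
    · left
      intro a ha b hb
      obtain ⟨r, hr, k⟩ := k2 a ha
      obtain ⟨r', hr', k'⟩ := k2 b hb
      exact r3 r a b k (hs hr hr' ▸ k')
    right
    let ψ : S → T := fun s => if h : ∃ a, ρ (iota S s) a then h.choose else e
    have hψ : ∀ s a, ρ (iota S s) a → ψ s = a := fun s a k => by
      have h : ∃ a, ρ (iota S s) a := ⟨a, k⟩
      simp only [ψ, dif_pos h]
      exact r3 _ _ _ h.choose_spec k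
    obtain ⟨c1, i, hi, c2⟩ := hH
    obtain ⟨i, rfl⟩ := hs hi
    refine ⟨iota S ⁻¹' H, ⟨fun a ha b hb => ?_, i, hi, fun a ha => ?_⟩, ψ, fun a ha b hb => ?_,
      Subset.antisymm ?_ fun a ha => ?_⟩
    · rw [mem_preimage, map_mul]; exact c1 _ ha _ hb
    · obtain ⟨e1, e2, b, hb, e3, e4⟩ := c2 _ ha
      obtain ⟨b, rfl⟩ := hs hb
      exact ⟨iota_inj (by rwa [map_mul]), iota_inj (by rwa [map_mul]), b, hb,
        iota_inj (by rwa [map_mul]), iota_inj (by rwa [map_mul])⟩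
    · obtain ⟨x, -, kx⟩ := k1 _ ha
      obtain ⟨y, -, ky⟩ := k1 _ hb
      rw [hψ a x kx, hψ b y ky]
      exact hψ _ _ (by rw [map_mul]; exact r2 _ _ _ _ kx ky)
    · rintro _ ⟨a, ha, rfl⟩
      obtain ⟨x, hx, kx⟩ := k1 _ ha
      rwa [hψ a x kx]
    · obtain ⟨r, hr, k⟩ := k2 a ha
      obtain ⟨s, rfl⟩ := hs hr
      exact ⟨s, hr, hψ s a k⟩
  · let x : WithOne (Ext S) := WithOne.coe (α := Ext S) (Sum.inr (some 1))
    have hab' : φ (iota S a) = φ (iota S b) := hab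
    obtain ⟨c, hc⟩ := h4 (iota S a * x) (iota S b * x) (by rw [map_mul, map_mul, hab'])
    induction c using WithOne.recOneCoe with
    | one =>
      rw [mul_one] at hc
      have := Option.some.inj (Sum.inr.inj (WithOne.coe_inj.1 hc))
      rw [mul_one, mul_one] at this
      exact WithOne.coe_inj.1 this
    | coe c => cases WithOne.coe_inj.1 hc

end Pool.Agent.P.MP_9ca27c_lc.Ex
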