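import Mathlib
import Pool.Agent.P.MP_9ca27c_lc.Defs
import Pool.Agent.P.MP_9ca27c_lc.Emb

/-! Embedding theorem for semigroups, the classes obtained by Birkhoff operators, decidability. -/

namespace Pool.Agent.P.MP_9ca27c_lc

open Set

theorem htriv_iff (S : Type) [Semigroup S] :
    HTriv S ↔ ∀ G : Set S, IsSubgroup G → G.Subsingleton := by
  constructor
  · rintro h G ⟨-, e, he, hG⟩
    have key : ∀ a ∈ G, a = e := fun a ha => by
      obtain ⟨h1, h2, b, -, h3, h4⟩ := hG a ha
      exact h e a b (hG e he).1 h1 h2 h3 h4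
    intro a ha b hb
    rw [key a ha, key b hb]
  · intro h e a b h1 h2 h3 h4 h5
    refine h {x | e * x = x ∧ x * e = x ∧ ∃ y, x * y = e ∧ y * x = e} ⟨?_, e, ⟨h1, h1, e, h1, h1⟩, ?_⟩
      ⟨h2, h3, b, h4, h5⟩ ⟨h1, h1, e, h1, h1⟩
    · rintro x ⟨k1, k2, y, k3, k4⟩ x' ⟨l1, l2, y', l3, l4⟩
      refine ⟨by rw [← mul_assoc, k1], by rw [mul_assoc, l2], y' * y, ?_, ?_⟩
      · rw [mul_assoc, ← mul_assoc x', l3, ← mul_assoc, k2, k3]
      · rw [mul_assoc, ← mul_assoc y, k4, l1, l4]
    · rintro x ⟨k1, k2, y, k3, k4⟩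
      have e1 : x * (e * y * e) = e := by rw [← mul_assoc, ← mul_assoc, k2, k3, h1]
      have e2 : e * y * e * x = e := by rw [mul_assoc, k1, mul_assoc, k4, h1]
      exact ⟨k1, k2, e * y * e, ⟨by rw [← mul_assoc, ← mul_assoc, h1], by rw [mul_assoc, h1],
        x, e2, e1⟩, e1, e2⟩

theorem HTriv.pow {M : Type} [Monoid M] [Finite M] (h : HTriv M) (r : M) :
    ∃ k, r ^ k = r ^ (k + 1) := by
  obtain ⟨i, j, hij, e⟩ := Finite.exists_ne_map_eq_of_infinite fun n : ℕ => r ^ n
  wlog hlt : i < j generalizing i j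
  · exact this j i hij.symm e.symm (by omega)
  obtain ⟨p, rfl⟩ : ∃ p, j = i + (p + 1) := ⟨j - i - 1, by omega⟩
  have e' : r ^ i = r ^ (i + (p + 1)) := e
  have per : ∀ c d, r ^ (i + d + c * (p + 1)) = r ^ (i + d) := by
    intro c d
    induction c with
    | zero => simp
    | succ c ih =>
      rw [show i + d + (c + 1) * (p + 1) = i + (p + 1) + (d + c * (p + 1)) by ring, pow_add, ← e',
        ← pow_add, ← add_assoc, ih]
  set N := (i + 1) * (p + 1) with hN
  obtain ⟨d, hd⟩ : ∃ d, N = i + d + 1 := ⟨i * p + p, by rw [hN]; ring⟩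
  have per' : ∀ c, r ^ (N + c + N) = r ^ (N + c) := fun c => by
    have := per (i + 1) (d + 1 + c)
    rwa [← hN, show i + (d + 1 + c) = N + c by omega] at this
  refine ⟨N, (h (r ^ N) (r ^ (N + 1)) (r ^ (N + (i + d))) ?_ ?_ ?_ ?_ ?_).symm⟩
  · rw [← pow_add]; exact per' 0
  · rw [← pow_add, add_comm, per']
  · rw [← pow_add, per']
  · rw [← pow_add, show N + 1 + (N + (i + d)) = N + N + N by omega, per']; exact per' 0
  · rw [← pow_add, show N + (i + d) + (N + 1) = N + N + N by omega, per']; exact per' 0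

theorem eq_of_pow {N : Type} [Monoid N] {e a b : N} {k : ℕ} (h : a ^ k = a ^ (k + 1))
    (h1 : e * e = e) (h2 : e * a = a) (h3 : a * e = a) (h5 : b * a = e) : a = e := by
  have k1 : ∀ j, b ^ j * a ^ (j + 1) = a := by
    intro j
    induction j with
    | zero => simp
    | succ j ih =>
      rw [pow_succ b, pow_succ' a, mul_assoc, ← mul_assoc b, h5, pow_succ' a, ← mul_assoc e, h2,
        ← pow_succ', ih]
  have k2 : ∀ j, e * a ^ j * e = a ^ j * e := by
    intro j
    cases j with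
    | zero => simp [h1]
    | succ j => rw [pow_succ', ← mul_assoc e, h2]
  have k3 : ∀ j, b ^ j * (a ^ j * e) = e := by
    intro j
    induction j with
    | zero => simp
    | succ j ih =>
      rw [pow_succ b, pow_succ' a, mul_assoc, mul_assoc, ← mul_assoc b, h5, ← mul_assoc e, k2, ih]
  rw [← k3 k, h, pow_succ a, mul_assoc, h3, ← pow_succ, k1]

theorem HTriv.withOne {S : Type} [Semigroup S] (h : HTriv S) : HTriv (WithOne S) := by
  intro e a b h1 h2 h3 h4 h5
  induction b using WithOne.recOneCoe with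
  | one => simpa using h4
  | coe b =>
    induction a using WithOne.recOneCoe with
    | one =>
      rw [mul_one] at h2
      exact h2.symm
    | coe a =>
      subst h4
      norm_cast at h1 h2 h3 h5 ⊢
      exact h _ a b h1 h2 h3 rfl h5

instance finite_withOne {S : Type} [Finite S] : Finite (WithOne S) :=
  inferInstanceAs (Finite (Option S))

theorem HTriv.image {S T : Type} [Semigroup S] [Semigroup T] [Finite S] (h : HTriv S)
    (f : S →ₙ* T) (hf : Function.Surjective f) : HTriv T := by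
  intro e a b h1 h2 h3 _ h5
  obtain ⟨a', rfl⟩ := hf a
  obtain ⟨k, hk⟩ := h.withOne.pow (a' : WithOne S)
  have := congrArg (WithOne.mapMulHom f) hk
  rw [map_pow, map_pow, WithOne.mapMulHom_coe] at this
  exact WithOne.coe_inj.1 (eq_of_pow (e := (e : WithOne T)) (b := (b : WithOne T)) this
    (by norm_cast) (by norm_cast) (by norm_cast) (by norm_cast))

theorem HTriv.sub {S T : Type} [Mul S] [Mul T] (h : HTriv S)
    (f : T →ₙ* S) (hf : Function.Injective f) : HTriv T := by
  intro e a b h1 h2 h3 h4 h5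
  exact hf (h (f e) (f a) (f b) (by rw [← map_mul, h1]) (by rw [← map_mul, h2])
    (by rw [← map_mul, h3]) (by rw [← map_mul, h4]) (by rw [← map_mul, h5]))

theorem HTriv.pi {ι : Type} {A : ι → Type} [∀ i, Mul (A i)] (h : ∀ i, HTriv (A i)) :
    HTriv (∀ i, A i) := fun e a b h1 h2 h3 h4 h5 =>
  funext fun i => h i (e i) (a i) (b i) (congrFun h1 i) (congrFun h2 i) (congrFun h3 i)
    (congrFun h4 i) (congrFun h5 i)

theorem Reg.image {S T : Type} [Mul S] [Mul T] (h : Reg S)
    (f : S →ₙ* T) (hf : Function.Surjective f) : Reg T := by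
  intro a
  obtain ⟨a', rfl⟩ := hf a
  obtain ⟨x, hx⟩ := h a'
  exact ⟨f x, by rw [← map_mul, ← map_mul, hx]⟩

theorem Reg.pi {ι : Type} {A : ι → Type} [∀ i, Mul (A i)] (h : ∀ i, Reg (A i)) :
    Reg (∀ i, A i) := fun a => ⟨fun i => (h i (a i)).choose, funext fun i => (h i (a i)).choose_spec⟩

theorem one_sided (M : Type) [Monoid M] [Finite M] (h : ∀ r : M, ∃ k, r ^ k = r ^ (k + 1)) :
    ∃ (T : Type) (_ : Monoid T), Finite T ∧ Reg T ∧ HTriv T ∧
      ∃ φ : M →* T, ∀ a b, φ a = φ b → ∃ c, a = b * c := by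
  obtain ⟨X, inst, hX, ⟨S⟩⟩ := exists_LS h
  exact S.exists_T

theorem embed_monoid (M : Type) [Monoid M] [Finite M] (h : HTriv M) :
    ∃ (T : Type) (_ : Monoid T), Finite T ∧ Reg T ∧ HTriv T ∧
      ∃ φ : M →* T, Function.Injective φ := by
  have : Finite Mᵐᵒᵖ := Finite.of_equiv _ MulOpposite.opEquiv
  obtain ⟨T₁, _, f1, r1, t1, φ₁, h1⟩ := one_sided M h.pow
  obtain ⟨T₂, _, f2, r2, t2, φ₂, h2⟩ := one_sided Mᵐᵒᵖ fun r => by
    obtain ⟨k, hk⟩ := h.pow r.unop
    exact ⟨k, MulOpposite.unop_injective (by simpa only [MulOpposite.unop_pow] using hk)⟩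
  have : Finite T₂ᵐᵒᵖ := Finite.of_equiv _ MulOpposite.opEquiv
  refine ⟨T₁ × T₂ᵐᵒᵖ, inferInstance, inferInstance, ?_, ?_,
    φ₁.prod ((MonoidHom.op φ₂).comp (MulEquiv.opOp M).toMonoidHom), ?_⟩
  · rintro ⟨a, b⟩
    obtain ⟨x, hx⟩ := r1 a
    obtain ⟨y, hy⟩ := r2 b.unop
    refine ⟨(x, MulOpposite.op y), Prod.ext hx (MulOpposite.unop_injective ?_)⟩
    simpa [mul_assoc] using hy
  · intro e a b k1 k2 k3 k4 k5
    refine Prod.ext (t1 e.1 a.1 b.1 (congrArg Prod.fst k1) (congrArg Prod.fst k2)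
      (congrArg Prod.fst k3) (congrArg Prod.fst k4) (congrArg Prod.fst k5))
      (MulOpposite.unop_injective (t2 e.2.unop a.2.unop b.2.unop ?_ ?_ ?_ ?_ ?_))
    · exact congrArg (fun x => x.2.unop) k1
    · exact congrArg (fun x => x.2.unop) k3
    · exact congrArg (fun x => x.2.unop) k2
    · exact congrArg (fun x => x.2.unop) k5
    · exact congrArg (fun x => x.2.unop) k4
  · intro a b hab
    obtain ⟨c, hc⟩ := h1 b a (congrArg Prod.fst hab).symm
    obtain ⟨d, hd⟩ := h2 (MulOpposite.op a) (MulOpposite.op b)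
      (congrArg (fun x => x.2.unop) hab)
    have hd' : a = d.unop * b := congrArg MulOpposite.unop hd
    have key : ∀ n, a = d.unop ^ n * a * c ^ n := by
      intro n
      induction n with
      | zero => simp
      | succ n ih =>
        rw [pow_succ, pow_succ', mul_assoc _ _ a, mul_assoc, mul_assoc, ← mul_assoc a, ← hc,
          ← mul_assoc _ b, ← hd', ← mul_assoc]
        exact ih
    obtain ⟨k, hk⟩ := h.pow c
    rw [hc, key k, mul_assoc _ (c ^ k), ← pow_succ, ← hk]

/-- the class of finite aperiodic semigroups -/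
def Ap : Cls := fun S _ => Finite S ∧ HTriv S

theorem regAp_iff (S : Type) [Semigroup S] : RegAp S ↔ Finite S ∧ Reg S ∧ HTriv S := by
  rw [htriv_iff]; rfl

theorem embed (S : Type) [Semigroup S] (h : Ap S) :
    ∃ (A : Type) (_ : Semigroup A), RegAp A ∧ ∃ f : S →ₙ* A, Function.Injective f := by
  have := h.1
  obtain ⟨T, inst, h1, h2, h3, φ, h4⟩ := embed_monoid (WithOne S) h.2.withOne
  exact ⟨T, inferInstance, (regAp_iff T).2 ⟨h1, h2, h3⟩, φ.toMulHom.comp WithOne.coeMulHom,
    h4.comp fun a b e => WithOne.coe_inj.1 e⟩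

theorem cls_ext {Φ Ψ : Cls} (h : ∀ (S : Type) [Semigroup S], Φ S ↔ Ψ S) : Φ = Ψ := by
  funext S inst
  exact propext (h S)

theorem pi_unique (T : Type) [Semigroup T] : Nonempty (T ≃* ∀ _ : Fin 1, T) :=
  ⟨(MulEquiv.piUnique fun _ : Fin 1 => T).symm⟩

theorem apply_cases (o : Op) {Φ : Cls} (h : Φ = RegAp ∨ Φ = Ap) :
    o.apply Φ = RegAp ∨ o.apply Φ = Ap := by
  rcases h with rfl | rfl
  · cases o with
    | image =>
      refine Or.inl (cls_ext fun T _ => ⟨?_, fun h => ⟨T, _, h, MulHom.id T, fun x => ⟨x, rfl⟩⟩⟩)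
      rintro ⟨A, _, hA, f, hf⟩
      obtain ⟨h1, h2, h3⟩ := (regAp_iff A).1 hA
      exact (regAp_iff T).2 ⟨Finite.of_surjective f hf, h2.image f hf, h3.image f hf⟩
    | sub =>
      refine Or.inr (cls_ext fun T _ => ⟨?_, embed T⟩)
      rintro ⟨A, _, hA, f, hf⟩
      obtain ⟨h1, -, h3⟩ := (regAp_iff A).1 hA
      exact ⟨Finite.of_injective f hf, h3.sub f hf⟩
    | prod =>
      refine Or.inl (cls_ext fun T _ => ⟨?_, fun h => ⟨1, fun _ => T, _, fun _ => h, pi_unique T⟩⟩)
      rintro ⟨n, A, _, hA, ⟨e⟩⟩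
      have h := fun i => (regAp_iff (A i)).1 (hA i)
      have := fun i => (h i).1
      exact (regAp_iff T).2 ⟨Finite.of_injective e e.injective,
        (Reg.pi fun i => (h i).2.1).image e.symm.toMulHom e.symm.surjective,
        (HTriv.pi fun i => (h i).2.2).sub e.toMulHom e.injective⟩
  · refine Or.inr (cls_ext fun T _ => ?_)
    cases o with
    | image =>
      refine ⟨?_, fun h => ⟨T, _, h, MulHom.id T, fun x => ⟨x, rfl⟩⟩⟩
      rintro ⟨A, _, ⟨h1, h3⟩, f, hf⟩
      exact ⟨Finite.of_surjective f hf, h3.image f hf⟩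
    | sub =>
      refine ⟨?_, fun h => ⟨T, _, h, MulHom.id T, fun x y e => e⟩⟩
      rintro ⟨A, _, ⟨h1, h3⟩, f, hf⟩
      exact ⟨Finite.of_injective f hf, h3.sub f hf⟩
    | prod =>
      refine ⟨?_, fun h => ⟨1, fun _ => T, _, fun _ => h, pi_unique T⟩⟩
      rintro ⟨n, A, _, hA, ⟨e⟩⟩
      have := fun i => (hA i).1
      exact ⟨Finite.of_injective e e.injective,
        (HTriv.pi fun i => (hA i).2).sub e.toMulHom e.injective⟩

theorem foldr_cases (K : List Op) :
    K.foldr Op.apply RegAp = RegAp ∨ K.foldr Op.apply RegAp = Ap := by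
  induction K with
  | nil => exact Or.inl rfl
  | cons o K ih => exact apply_cases o ih

section Decide

def ent (L : List (List ℕ)) (i j : ℕ) : ℕ := (L.getD i []).getD j 0

theorem ent_primrec {β : Type} [Primcodable β] {L : β → List (List ℕ)} {i j : β → ℕ}
    (hL : Primrec L) (hi : Primrec i) (hj : Primrec j) :
    Primrec fun b => ent (L b) (i b) (j b) :=
  (Primrec.list_getD 0).comp ((Primrec.list_getD []).comp hL hi) hj

theorem ball_primrec {β : Type} [Primcodable β] {R : ℕ → β → Prop} (hR : PrimrecRel R)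
    {g : β → ℕ} (hg : Primrec g) : PrimrecPred fun b => ∀ x < g b, R x b :=
  (hR.forall_mem_list.comp (Primrec.list_range.comp hg) Primrec.id).of_eq fun b => by simp

theorem bex_primrec {β : Type} [Primcodable β] {R : ℕ → β → Prop} (hR : PrimrecRel R)
    {g : β → ℕ} (hg : Primrec g) : PrimrecPred fun b => ∃ x < g b, R x b :=
  (hR.exists_mem_list.comp (Primrec.list_range.comp hg) Primrec.id).of_eq fun b => by simp

def RegL (L : List (List ℕ)) : Prop :=
  ∀ a < L.length, ∃ x < L.length, ent L (ent L a x) a = a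

def HL (L : List (List ℕ)) : Prop :=
  ∀ e < L.length, ∀ a < L.length, ∀ b < L.length,
    ¬ (ent L e e = e ∧ ent L e a = a ∧ ent L a e = a ∧ ent L a b = e ∧ ent L b a = e) ∨ a = e

theorem RegL_primrec : PrimrecPred RegL := by
  refine ball_primrec (R := fun a L => ∃ x < L.length, ent L (ent L a x) a = a) ?_
    Primrec.list_length
  refine bex_primrec (β := ℕ × List (List ℕ))
    (R := fun x p => ent p.2 (ent p.2 p.1 x) p.1 = p.1) ?_ (Primrec.list_length.comp Primrec.snd)
  have hL : Primrec fun q : ℕ × ℕ × List (List ℕ) => q.2.2 := Primrec.snd.comp Primrec.snd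
  have ha : Primrec fun q : ℕ × ℕ × List (List ℕ) => q.2.1 := Primrec.fst.comp Primrec.snd
  exact Primrec.eq.comp (ent_primrec hL (ent_primrec hL ha Primrec.fst) ha) ha

theorem HL_primrec : PrimrecPred HL := by
  refine ball_primrec (R := fun e L => ∀ a < L.length, ∀ b < L.length,
    ¬ (ent L e e = e ∧ ent L e a = a ∧ ent L a e = a ∧ ent L a b = e ∧ ent L b a = e) ∨ a = e) ?_
    Primrec.list_length
  refine ball_primrec (β := ℕ × List (List ℕ)) (R := fun a p => ∀ b < p.2.length,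
    ¬ (ent p.2 p.1 p.1 = p.1 ∧ ent p.2 p.1 a = a ∧ ent p.2 a p.1 = a ∧ ent p.2 a b = p.1 ∧
      ent p.2 b a = p.1) ∨ a = p.1) ?_ (Primrec.list_length.comp Primrec.snd)
  refine ball_primrec (β := ℕ × ℕ × List (List ℕ)) (R := fun b p =>
    ¬ (ent p.2.2 p.2.1 p.2.1 = p.2.1 ∧ ent p.2.2 p.2.1 p.1 = p.1 ∧ ent p.2.2 p.1 p.2.1 = p.1 ∧
      ent p.2.2 p.1 b = p.2.1 ∧ ent p.2.2 b p.1 = p.2.1) ∨ p.1 = p.2.1) ?_
    (Primrec.list_length.comp (Primrec.snd.comp Primrec.snd))
  have hL : Primrec fun q : ℕ × ℕ × ℕ × List (List ℕ) => q.2.2.2 :=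
    Primrec.snd.comp (Primrec.snd.comp Primrec.snd)
  have he : Primrec fun q : ℕ × ℕ × ℕ × List (List ℕ) => q.2.2.1 :=
    Primrec.fst.comp (Primrec.snd.comp Primrec.snd)
  have ha : Primrec fun q : ℕ × ℕ × ℕ × List (List ℕ) => q.2.1 := Primrec.fst.comp Primrec.snd
  have hb : Primrec fun q : ℕ × ℕ × ℕ × List (List ℕ) => q.1 := Primrec.fst
  exact ((Primrec.eq.comp (ent_primrec hL he he) he).and
    ((Primrec.eq.comp (ent_primrec hL he ha) ha).and
    ((Primrec.eq.comp (ent_primrec hL ha he) ha).and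
    ((Primrec.eq.comp (ent_primrec hL ha hb) he).and
    (Primrec.eq.comp (ent_primrec hL hb ha) he))))).not.or (Primrec.eq.comp ha he)

variable {T : Type} [Semigroup T] {n : ℕ} (e : Fin n ≃ T)

def table : List (List ℕ) := List.ofFn fun i => List.ofFn fun j => (e.symm (e i * e j)).val

theorem table_length : (table e).length = n := List.length_ofFn

theorem ent_table (a b : T) : ent (table e) (e.symm a) (e.symm b) = e.symm (a * b) := by
  simp [ent, table]

theorem forall_table {p : ℕ → Prop} : (∀ a < (table e).length, p a) ↔ ∀ a : T, p (e.symm a) := by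
  rw [table_length]
  exact ⟨fun h a => h _ (e.symm a).2, fun h a ha => by simpa using h (e ⟨a, ha⟩)⟩

theorem exists_table {p : ℕ → Prop} : (∃ a < (table e).length, p a) ↔ ∃ a : T, p (e.symm a) := by
  rw [table_length]
  exact ⟨fun ⟨a, ha, h⟩ => ⟨e ⟨a, ha⟩, by simpa using h⟩, fun ⟨a, h⟩ => ⟨_, (e.symm a).2, h⟩⟩

theorem RegL_table : RegL (table e) ↔ Reg T := by
  simp only [RegL, forall_table, exists_table, ent_table, Fin.val_inj, Equiv.apply_eq_iff_eq, Reg]

theorem HL_table : HL (table e) ↔ HTriv T := by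
  simp only [HL, forall_table, ent_table, Fin.val_inj, Equiv.apply_eq_iff_eq, HTriv]
  refine forall₃_congr fun a b c => ?_
  tauto

end Decide

theorem recursive_regAp : Recursive RegAp := by
  obtain ⟨inst, h⟩ := (RegL_primrec.and HL_primrec).computablePred
  refine ⟨_, h, fun T _ n e => ?_⟩
  rw [decide_eq_true_iff, regAp_iff]
  exact (and_congr (RegL_table e) (HL_table e)).trans
    ⟨fun h => ⟨Finite.of_equiv _ e, h⟩, fun h => h.2⟩

theorem recursive_Ap : Recursive Ap := by
  obtain ⟨inst, h⟩ := HL_primrec.computablePred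
  refine ⟨_, h, fun T _ n e => ?_⟩
  rw [decide_eq_true_iff]
  exact (HL_table e).trans ⟨fun h => ⟨Finite.of_equiv _ e, h⟩, fun h => h.2⟩

theorem main (K : List Op) : Recursive (K.foldr Op.apply RegAp) := by
  rcases foldr_cases K with h | h <;> rw [h]
  · exact recursive_regAp
  · exact recursive_Ap

end Pool.Agent.P.MP_9ca27c_lc
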