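import Mathlib
import Pool.Agent.P.MP_9ca27c_lc.Defs
import Pool.Agent.P.MP_9ca27c_lc.Main

namespace Pool.Agent.P.MP_9ca27c_lc.VariantEmbedding

open Pool.Agent.P.MP_9ca27c_lc

theorem result (S : Type) [Semigroup S] [Finite S]
    (h : ∀ G : Set S, IsSubgroup G → G.Subsingleton) :
    ∃ (T : Type) (_ : Semigroup T), Finite T ∧ (∀ a : T, ∃ x : T, a * x * a = a) ∧
      (∀ G : Set T, IsSubgroup G → G.Subsingleton) ∧
      ∃ f : S →ₙ* T, Function.Injective f := by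
  obtain ⟨T, inst, ⟨h1, h2, h3⟩, h4⟩ := embed S ⟨inferInstance, (htriv_iff S).2 h⟩
  exact ⟨T, inst, h1, h2, h3, h4⟩

end Pool.Agent.P.MP_9ca27c_lc.VariantEmbedding
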